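import Pool.Agent.Lib.MP_7f581e_Z.Lie.Spec
import Pool.Agent.Lib.MP_7f581e_ntL.Z1

/-!
# Task Lie/Int: calculus of integral elements
-/

namespace MP7Z

open TensorProduct MP7fS

namespace Int_

variable {p : ℕ} [Fact p.Prime] {B : Type} [Ring B] [Finite B] [Algebra (ZMod p) B]
  {Ω : Type} [Field Ω] [Algebra (ZMod p) Ω]

theorem crd_tmap {R S : Type} [CommRing R] [Algebra (ZMod p) R] [CommRing S] [Algebra (ZMod p) S]
    (f : R →+* S) (w : R ⊗[ZMod p] B) (i : Fin (Module.finrank (ZMod p) B)) :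
    crd (tmap (p := p) f (RingHom.id B) w) i = f (crd w i) :=
  repr_tmap (Module.finBasis (ZMod p) B) f w i

theorem exists_of_crd {A : Type} [CommRing A] [Algebra (ZMod p) A] (inc : A →+* Ω)
    (w : Ω ⊗[ZMod p] B) (h : ∀ i, ∃ a, inc a = crd w i) :
    ∃ w₀ : A ⊗[ZMod p] B, tmap (p := p) inc (RingHom.id B) w₀ = w := by
  choose a ha using h
  refine ⟨vec (Module.finBasis (ZMod p) B) a, ?_⟩
  rw [tmap_vec]
  conv_rhs => rw [← vec_repr (Module.finBasis (ZMod p) B) w]
  congr 1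
  funext i
  exact ha i

theorem fixes_adjoin {x : Ω} {γ : Ω ≃ₐ[ZMod p] Ω} (hγ : γ ∈ Gx p x) :
    ∀ a ∈ Algebra.adjoin (ZMod p) {x}, γ a = a := by
  intro a ha
  have h : Algebra.adjoin (ZMod p) {x} ≤ AlgHom.equalizer (γ : Ω →ₐ[ZMod p] Ω) (AlgHom.id _ _) := by
    rw [Algebra.adjoin_le_iff]
    intro z hz
    rw [Set.mem_singleton_iff] at hz
    subst hz
    exact mem_Gx.1 hγ
  exact h ha

theorem integral_map {x : Ω} {γ : Ω ≃ₐ[ZMod p] Ω} (hγ : γ ∈ Gx p x) {z : Ω}
    (hz : IsIntegral (Algebra.adjoin (ZMod p) {x}) z) :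
    IsIntegral (Algebra.adjoin (ZMod p) {x}) (γ z) := by
  let φ : Ω →ₐ[Algebra.adjoin (ZMod p) {x}] Ω :=
    { (γ : Ω →+* Ω) with
      commutes' := fun a => fixes_adjoin hγ a.1 a.2 }
  exact hz.map φ

theorem adjoin_sub {x : Ω} {V : ValuationSubring Ω} (hx : x ∈ V) :
    ∀ a ∈ Algebra.adjoin (ZMod p) {x}, a ∈ V := by
  intro a ha
  have hc : ∀ c : ZMod p, algebraMap (ZMod p) Ω c ∈ V := by
    intro c
    obtain ⟨n, rfl⟩ := ZMod.natCast_zmod_surjective c
    rw [map_natCast]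
    exact natCast_mem V n
  induction ha using Algebra.adjoin_induction with
  | mem z hz =>
    rw [Set.mem_singleton_iff] at hz
    rwa [hz]
  | algebraMap c => exact hc c
  | add a b _ _ ha hb => exact V.add_mem _ _ ha hb
  | mul a b _ _ ha hb => exact V.mul_mem _ _ ha hb

theorem integral_mem {x : Ω} {V : ValuationSubring Ω} (hx : x ∈ V) {z : Ω}
    (hz : IsIntegral (Algebra.adjoin (ZMod p) {x}) z) : z ∈ V := by
  let φ : Algebra.adjoin (ZMod p) {x} →+* V :=
    { toFun := fun a => ⟨a.1, adjoin_sub hx a.1 a.2⟩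
      map_one' := rfl
      map_mul' := fun _ _ => rfl
      map_zero' := rfl
      map_add' := fun _ _ => rfl }
  have h1 : IsIntegral V z := hz.map_of_comp_eq φ (RingHom.id Ω) (by ext; rfl)
  obtain ⟨y, hy⟩ := (IsIntegrallyClosed.isIntegral_iff (R := V) (K := Ω)).1 h1
  rw [← hy]
  exact y.2

end Int_

open Int_ in
theorem tInt : IntStmt := by
  intro p _ B _ _ _ Ω _ _ _ x
  set A := integralClosure (Algebra.adjoin (ZMod p) {x}) Ω with hA
  let inc : A →+* Ω := A.val.toRingHom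
  have hinc : ∀ z : Ω, IsIntegral (Algebra.adjoin (ZMod p) {x}) z ↔ ∃ a : A, inc a = z := by
    intro z
    constructor
    · intro h; exact ⟨⟨z, h⟩, rfl⟩
    · rintro ⟨a, rfl⟩; exact a.2
  have hiff : ∀ w : Ω ⊗[ZMod p] B, IntX x w ↔
      ∃ w₀ : A ⊗[ZMod p] B, tmap (p := p) inc (RingHom.id B) w₀ = w := by
    intro w
    constructor
    · intro h
      exact exists_of_crd inc w fun i => (hinc _).1 (h i)
    · rintro ⟨w₀, rfl⟩ i
      rw [hinc, crd_tmap]
      exact ⟨_, rfl⟩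
  refine ⟨?_, ?_, ?_, ?_, ?_, ?_⟩
  · intro w w' h h'
    rw [hiff] at h h' ⊢
    obtain ⟨a, rfl⟩ := h
    obtain ⟨b, rfl⟩ := h'
    exact ⟨a * b, map_mul _ _ _⟩
  · intro w w' h h'
    rw [hiff] at h h' ⊢
    obtain ⟨a, rfl⟩ := h
    obtain ⟨b, rfl⟩ := h'
    exact ⟨a + b, map_add _ _ _⟩
  · intro b
    rw [hiff]
    refine ⟨1 ⊗ₜ b, ?_⟩
    rw [tmap_tmul, map_one]
    rfl
  · intro γ hγ r w h
    rw [hiff] at h ⊢
    obtain ⟨a, rfl⟩ := h
    let γA : A →+* A :=
      { toFun := fun a => ⟨γ (a : Ω), integral_map hγ a.2⟩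
        map_one' := Subtype.ext (map_one γ)
        map_mul' := fun a b => Subtype.ext (map_mul γ (a : Ω) (b : Ω))
        map_zero' := Subtype.ext (map_zero γ)
        map_add' := fun a b => Subtype.ext (map_add γ (a : Ω) (b : Ω)) }
    refine ⟨tmap γA r a, ?_⟩
    rw [tmap_comp, tmap_comp]
    rfl
  · intro V hx w h i
    exact integral_mem hx (h i)
  · intro g y hg hg' hgy
    have hp : 1 < p := (Fact.out : p.Prime).one_lt
    have hfr : ∀ w : Ω ⊗[ZMod p] B, tmap (p := p) (iterateFrobenius Ω p 1) (RingHom.id B) w =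
        tmap (p := p) (frobenius Ω p) (RingHom.id B) w := by
      intro w
      rw [iterateFrobenius_one]
    have hint : ∀ z : Ω, IsIntegral A z → IsIntegral (Algebra.adjoin (ZMod p) {x}) z :=
      fun z hz => isIntegral_trans z hz
    rw [hiff] at hg hg'
    obtain ⟨c, hc⟩ := hg
    obtain ⟨c', hc'⟩ := hg'
    constructor
    · intro i
      apply hint
      refine MP7fZ.isIntegral_repr (Module.finBasis (ZMod p) B) c (y : Ω ⊗[ZMod p] B) ?_ i
      have h1 := congrArg Units.val hgy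
      rw [fru, coe_tu, hfr, Units.val_mul, ← hc] at h1
      exact h1
    · intro i
      apply hint
      have h1 : fru 1 Ω y⁻¹ = y⁻¹ * g⁻¹ := by
        rw [map_inv, hgy, mul_inv_rev]
      have h2 := congrArg Units.val h1
      rw [fru, coe_tu, hfr, Units.val_mul, ← hc'] at h2
      set Y : Ω ⊗[ZMod p] B := ((y⁻¹ : (Ω ⊗[ZMod p] B)ˣ) : Ω ⊗[ZMod p] B) with hY
      refine MP7fZ.isIntegral_of_system (p := p) hp (x := fun i => crd Y i)
        (a := fun i k => crd (((1 : A) ⊗ₜ[ZMod p] (Module.finBasis (ZMod p) B k)) * c') i)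
        (fun i => ?_) i
      have h3 : crd (tmap (p := p) (frobenius Ω p) (RingHom.id B) Y) i = crd Y i ^ p := by
        rw [crd_tmap, frobenius_def]
      rw [← h3, h2]
      have h4 : Y = ∑ k, crd Y k • ((1 : Ω) ⊗ₜ[ZMod p] (Module.finBasis (ZMod p) B k)) := by
        conv_lhs => rw [← vec_repr (Module.finBasis (ZMod p) B) Y]
        rw [vec]
        refine Finset.sum_congr rfl fun k _ => ?_
        rw [eb_apply]
        rfl
      have h5 : Y * tmap (p := p) inc (RingHom.id B) c' =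
          ∑ k, crd Y k • tmap (p := p) inc (RingHom.id B)
            (((1 : A) ⊗ₜ[ZMod p] (Module.finBasis (ZMod p) B k)) * c') := by
        conv_lhs => rw [h4]
        rw [Finset.sum_mul]
        refine Finset.sum_congr rfl fun k _ => ?_
        rw [map_mul, tmap_tmul, map_one, smul_mul_assoc]
        rfl
      rw [h5]
      unfold crd
      rw [map_sum, Finsupp.finsetSum_apply]
      refine Finset.sum_congr rfl fun k _ => ?_
      rw [map_smul, Finsupp.smul_apply, smul_eq_mul, mul_comm]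
      congr 1
      exact crd_tmap inc _ i

end MP7Z
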