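import Pool.Agent.Lib.MP_7f581e_Z.Lie.Spec

/-!
# Lie/Clo: values of points integral at `V` are points over the constants
-/

namespace MP7Z

open TensorProduct MP7fS

/-- The residue homomorphism of `V`. -/
theorem Clo_res {p : ℕ} [Fact p.Prime] {Ω : Type} [Field Ω] [Algebra (ZMod p) Ω]
    {V : ValuationSubring Ω} (hc : ∀ c ∈ Cst p Ω, c ∈ V)
    (h : ∀ u ∈ V, ∃ c ∈ Cst p Ω, V.valuation (u - c) < 1 ∧
        ∀ c' ∈ Cst p Ω, V.valuation (u - c') < 1 → c' = c) :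
    ∃ r : V →+* Cst p Ω, ∀ (f : V) (c : Cst p Ω), V.valuation ((f : Ω) - (c : Ω)) < 1 → c = r f := by
  choose! r hr1 hr2 hr3 using h
  have hu : ∀ (f : V) (c : Cst p Ω), V.valuation ((f : Ω) - (c : Ω)) < 1 →
      c = ⟨r f, hr1 f f.2⟩ := fun f c hfc => Subtype.ext (hr3 f f.2 c c.2 hfc)
  refine ⟨{ toFun := fun f => ⟨r f, hr1 f f.2⟩
            map_one' := ?_
            map_mul' := ?_
            map_zero' := ?_
            map_add' := ?_ }, hu⟩
  · refine (hu 1 1 ?_).symm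
    change V.valuation ((1 : Ω) - 1) < 1
    rw [sub_self, map_zero]
    exact zero_lt_one
  · intro f g
    refine (hu (f * g) (⟨r f, hr1 f f.2⟩ * ⟨r g, hr1 g g.2⟩) ?_).symm
    change V.valuation ((f : Ω) * g - r f * r g) < 1
    have h1 : (f : Ω) * g - r f * r g = (f - r f) * g + r f * (g - r g) := by ring
    rw [h1]
    refine V.valuation.map_add_lt ?_ ?_
    · rw [map_mul]
      exact lt_of_le_of_lt (mul_le_of_le_one_right' ((V.valuation_le_one_iff _).2 g.2)) (hr2 f f.2)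
    · rw [map_mul]
      exact lt_of_le_of_lt (mul_le_of_le_one_left'
        ((V.valuation_le_one_iff _).2 (hc _ (hr1 f f.2)))) (hr2 g g.2)
  · refine (hu 0 0 ?_).symm
    change V.valuation ((0 : Ω) - 0) < 1
    rw [sub_self, map_zero]
    exact zero_lt_one
  · intro f g
    refine (hu (f + g) (⟨r f, hr1 f f.2⟩ + ⟨r g, hr1 g g.2⟩) ?_).symm
    change V.valuation ((f : Ω) + g - (r f + r g)) < 1
    have h1 : (f : Ω) + g - (r f + r g) = (f - r f) + (g - r g) := by ring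
    rw [h1]
    exact V.valuation.map_add_lt (hr2 f f.2) (hr2 g g.2)

theorem Clo_main {p : ℕ} [Fact p.Prime] {B : Type} [Ring B] [Finite B] [Algebra (ZMod p) B]
    (𝒢 : LangGp p B) {R Ω k : Type} [CommRing R] [Algebra (ZMod p) R] [CommRing Ω]
    [Algebra (ZMod p) Ω] [CommRing k] [Algebra (ZMod p) k] (inc : R →+* Ω)
    (hinc : Function.Injective inc) (res : R →+* k) (w : (Ω ⊗[ZMod p] B)ˣ) (u : (k ⊗[ZMod p] B)ˣ)
    (f g : Fin (Module.finrank (ZMod p) B) → R)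
    (hf : ∀ i, inc (f i) = crd (w : Ω ⊗[ZMod p] B) i)
    (hg : ∀ i, inc (g i) = crd ((w⁻¹ : (Ω ⊗[ZMod p] B)ˣ) : Ω ⊗[ZMod p] B) i)
    (hr : ∀ i, res (f i) = crd (u : k ⊗[ZMod p] B) i) (hw : w ∈ 𝒢.H Ω) : u ∈ 𝒢.H k := by
  let e := Module.finBasis (ZMod p) B
  have h1 : tmap inc (RingHom.id B) (vec e f) = (w : Ω ⊗[ZMod p] B) := by
    rw [tmap_vec]
    simp only [hf]
    exact vec_repr e (w : Ω ⊗[ZMod p] B)
  have h2 : tmap inc (RingHom.id B) (vec e g) =
      ((w⁻¹ : (Ω ⊗[ZMod p] B)ˣ) : Ω ⊗[ZMod p] B) := by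
    rw [tmap_vec]
    simp only [hg]
    exact vec_repr e _
  let wu : (R ⊗[ZMod p] B)ˣ :=
    { val := vec e f
      inv := vec e g
      val_inv := by
        apply tmap_injective inc hinc
        rw [map_mul, h1, h2, Units.mul_inv, map_one]
      inv_val := by
        apply tmap_injective inc hinc
        rw [map_mul, h1, h2, Units.inv_mul, map_one] }
  have h3 : tu inc (RingHom.id B) wu = w := Units.ext h1
  have h4 : wu ∈ 𝒢.H R := 𝒢.inj R Ω inc hinc wu (by rw [h3]; exact hw)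
  have h5 := 𝒢.map R k res wu h4
  have h6 : tu res (RingHom.id B) wu = u := by
    apply Units.ext
    change tmap res (RingHom.id B) (vec e f) = (u : k ⊗[ZMod p] B)
    rw [tmap_vec]
    simp only [hr]
    exact vec_repr e (u : k ⊗[ZMod p] B)
  rwa [h6] at h5

theorem tClo (hRes : ResStmt) : CloStmt := by
  intro p _ B _ _ _ 𝒢 Ω _ _ x hx V hV w u hw hwV hwV' hcong
  obtain ⟨hR1, -, hR3, -⟩ := hRes p Ω x hx V hV
  obtain ⟨res, hres⟩ := Clo_res hR1 hR3
  let _ : Algebra (ZMod p) V := ((algebraMap (ZMod p) Ω).codRestrict V.toSubring (by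
    intro c
    rw [← ZMod.natCast_zmod_val c, map_natCast]
    exact natCast_mem _ _)).toAlgebra
  exact Clo_main 𝒢 V.subtype Subtype.val_injective res w u
    (fun i => ⟨crd (w : Ω ⊗[ZMod p] B) i, hwV i⟩)
    (fun i => ⟨crd ((w⁻¹ : (Ω ⊗[ZMod p] B)ˣ) : Ω ⊗[ZMod p] B) i, hwV' i⟩)
    (fun i => rfl) (fun i => rfl) (fun i => (hres _ _ (hcong i)).symm) hw

end MP7Z
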