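import Pool.Agent.Lib.MP_7f581e_Z.Lie.Spec

/-!
# Calculus of values

Step Lie: elements of `Ω ⊗ B` with a value at a valuation ring `V`.
-/

set_option autoImplicit false

namespace MP7Z

open TensorProduct MP7fS

section coordinates

variable {p : ℕ} [Fact p.Prime] {B : Type} [Ring B] [Finite B] [Algebra (ZMod p) B]
variable {R S : Type} [CommRing R] [Algebra (ZMod p) R] [CommRing S] [Algebra (ZMod p) S]

theorem Cong_crd_add (w w' : R ⊗[ZMod p] B) (i : Fin (Module.finrank (ZMod p) B)) :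
    crd (w + w') i = crd w i + crd w' i := by
  rw [crd, crd, crd, map_add, Finsupp.add_apply]

theorem Cong_crd_sub (w w' : R ⊗[ZMod p] B) (i : Fin (Module.finrank (ZMod p) B)) :
    crd (w - w') i = crd w i - crd w' i := by
  rw [crd, crd, crd, map_sub, Finsupp.sub_apply]

theorem Cong_crd_smul (r : R) (w : R ⊗[ZMod p] B) (i : Fin (Module.finrank (ZMod p) B)) :
    crd (r • w) i = r * crd w i := by
  rw [crd, crd, map_smul, Finsupp.smul_apply, smul_eq_mul]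

theorem Cong_crd_sum {κ : Type} (s : Finset κ) (f : κ → R ⊗[ZMod p] B)
    (i : Fin (Module.finrank (ZMod p) B)) : crd (∑ k ∈ s, f k) i = ∑ k ∈ s, crd (f k) i := by
  classical
  rw [crd, map_sum, Finsupp.finsetSum_apply]
  rfl

theorem Cong_crd_one_tmul (b : B) (i : Fin (Module.finrank (ZMod p) B)) :
    crd ((1 : R) ⊗ₜ[ZMod p] b) i =
      algebraMap (ZMod p) R ((Module.finBasis (ZMod p) B).repr b i) := by
  rw [crd, Algebra.TensorProduct.basis_repr_tmul, one_smul, Finsupp.mapRange_apply]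

theorem Cong_crd_tmap (f : R →+* S) (w : R ⊗[ZMod p] B)
    (i : Fin (Module.finrank (ZMod p) B)) :
    crd (tmap (p := p) f (RingHom.id B) w) i = f (crd w i) :=
  repr_tmap _ f w i

theorem Cong_eq_sum (w : R ⊗[ZMod p] B) :
    w = ∑ j, crd w j • ((1 : R) ⊗ₜ[ZMod p] (Module.finBasis (ZMod p) B j)) := by
  have h := vec_repr (Module.finBasis (ZMod p) B) w
  rw [vec] at h
  simp only [eb_apply] at h
  exact h.symm

theorem Cong_crd_tmap_gen (f : R →+* S) (r : B →+* B) (w : R ⊗[ZMod p] B)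
    (i : Fin (Module.finrank (ZMod p) B)) :
    crd (tmap (p := p) f r w) i = ∑ j, f (crd w j) * algebraMap (ZMod p) S
      ((Module.finBasis (ZMod p) B).repr (r (Module.finBasis (ZMod p) B j)) i) := by
  conv_lhs => rw [Cong_eq_sum w]
  rw [map_sum, Cong_crd_sum]
  refine Finset.sum_congr rfl fun j _ => ?_
  rw [tmap_smul, Cong_crd_smul, tmap_tmul, map_one, Cong_crd_one_tmul]

theorem Cong_crd_mul (w w' : R ⊗[ZMod p] B) (i : Fin (Module.finrank (ZMod p) B)) :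
    crd (w * w') i = ∑ j, ∑ k, crd w j * (crd w' k * algebraMap (ZMod p) R
      ((Module.finBasis (ZMod p) B).repr
        (Module.finBasis (ZMod p) B j * Module.finBasis (ZMod p) B k) i)) := by
  conv_lhs => rw [Cong_eq_sum w, Cong_eq_sum w']
  rw [Finset.sum_mul, Cong_crd_sum]
  refine Finset.sum_congr rfl fun j _ => ?_
  rw [Finset.mul_sum, Cong_crd_sum]
  refine Finset.sum_congr rfl fun k _ => ?_
  rw [smul_mul_assoc, mul_smul_comm, Cong_crd_smul, Cong_crd_smul,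
    Algebra.TensorProduct.tmul_mul_tmul, one_mul, Cong_crd_one_tmul]

theorem Cong_ext {w w' : R ⊗[ZMod p] B} (h : ∀ i, crd w i = crd w' i) : w = w' := by
  rw [Cong_eq_sum w, Cong_eq_sum w']
  exact Finset.sum_congr rfl fun j _ => by rw [h j]

end coordinates

section values

variable {p : ℕ} [Fact p.Prime] {B : Type} [Ring B] [Finite B] [Algebra (ZMod p) B]
  {Ω : Type} [Field Ω] [Algebra (ZMod p) Ω]

/-- All coordinates are in the maximal ideal. -/
def Cong_M (V : ValuationSubring Ω) (w : Ω ⊗[ZMod p] B) : Prop :=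
  ∀ i, V.valuation (crd w i) < 1

/-- The inclusion of the constants on `𝔽 ⊗ B`. -/
noncomputable def Cong_inc (u : Cst p Ω ⊗[ZMod p] B) : Ω ⊗[ZMod p] B :=
  tmap (p := p) (algebraMap (Cst p Ω) Ω) (RingHom.id B) u

theorem Cong_crd_inc (u : Cst p Ω ⊗[ZMod p] B) (i : Fin (Module.finrank (ZMod p) B)) :
    crd (Cong_inc u) i = ((crd u i : Cst p Ω) : Ω) :=
  Cong_crd_tmap _ u i

theorem Cong_iff (V : ValuationSubring Ω) (w : Ω ⊗[ZMod p] B) (u : Cst p Ω ⊗[ZMod p] B) :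
    Cong V w u ↔ Cong_M V (w - Cong_inc u) := by
  constructor
  · intro h i
    rw [Cong_crd_sub, Cong_crd_inc]
    exact h i
  · intro h i
    have h1 := h i
    rw [Cong_crd_sub, Cong_crd_inc] at h1
    exact h1

theorem Cong_prime_mem (V : ValuationSubring Ω) (c : ZMod p) : algebraMap (ZMod p) Ω c ∈ V := by
  rw [← ZMod.natCast_zmod_val c, map_natCast]
  exact natCast_mem V _

theorem Cong_M_add {V : ValuationSubring Ω} {w w' : Ω ⊗[ZMod p] B} (h : Cong_M V w)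
    (h' : Cong_M V w') : Cong_M V (w + w') := by
  intro i
  rw [Cong_crd_add]
  exact Valuation.map_add_lt _ (h i) (h' i)

theorem Cong_M_mul {V : ValuationSubring Ω} {w w' : Ω ⊗[ZMod p] B} (h : Cong_M V w)
    (h' : ∀ i, crd w' i ∈ V) : Cong_M V (w * w') := by
  intro i
  rw [Cong_crd_mul]
  refine Valuation.map_sum_lt _ one_ne_zero fun j _ => ?_
  refine Valuation.map_sum_lt _ one_ne_zero fun k _ => ?_
  rw [map_mul]
  exact mul_lt_one_of_lt_of_le (h j)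
    ((V.valuation_le_one_iff _).2 (V.mul_mem _ _ (h' k) (Cong_prime_mem V _)))

theorem Cong_M_mul' {V : ValuationSubring Ω} {w w' : Ω ⊗[ZMod p] B} (h : ∀ i, crd w i ∈ V)
    (h' : Cong_M V w') : Cong_M V (w * w') := by
  intro i
  rw [Cong_crd_mul]
  refine Valuation.map_sum_lt _ one_ne_zero fun j _ => ?_
  refine Valuation.map_sum_lt _ one_ne_zero fun k _ => ?_
  rw [map_mul, map_mul]
  exact (mul_le_of_le_one_left' ((V.valuation_le_one_iff _).2 (h j))).trans_lt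
    (mul_lt_one_of_lt_of_le (h' k) ((V.valuation_le_one_iff _).2 (Cong_prime_mem V _)))

theorem Cong_dec {V : ValuationSubring Ω} {γ : Ω ≃ₐ[ZMod p] Ω} (hγ : γ ∈ Dec p V) {a : Ω}
    (ha : V.valuation a < 1) : V.valuation (γ a) < 1 := by
  by_cases h0 : a = 0
  · rw [h0, map_zero, map_zero]
    exact zero_lt_one
  · by_contra hcon
    rw [not_lt] at hcon
    have h1 : V.valuation (γ a)⁻¹ ≤ 1 := by
      rw [map_inv₀]
      exact inv_le_one_of_one_le₀ hcon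
    rw [V.valuation_le_one_iff, ← map_inv₀] at h1
    have h2 : a⁻¹ ∈ V := (hγ a⁻¹).1 h1
    rw [← V.valuation_le_one_iff, map_inv₀] at h2
    have h3 : V.valuation a ≠ 0 := (Valuation.ne_zero_iff _).2 h0
    have h4 : 1 < (V.valuation a)⁻¹ := (one_lt_inv₀ (zero_lt_iff.2 h3)).2 ha
    exact absurd h2 (not_le.2 h4)

theorem Cong_M_tmap {V : ValuationSubring Ω} {γ : Ω ≃ₐ[ZMod p] Ω} (hγ : γ ∈ Dec p V)
    (r : B →+* B) {w : Ω ⊗[ZMod p] B} (h : Cong_M V w) :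
    Cong_M V (tmap (p := p) (γ : Ω →+* Ω) r w) := by
  intro i
  rw [Cong_crd_tmap_gen]
  refine Valuation.map_sum_lt _ one_ne_zero fun j _ => ?_
  rw [map_mul]
  exact mul_lt_one_of_lt_of_le (Cong_dec hγ (h j))
    ((V.valuation_le_one_iff _).2 (Cong_prime_mem V _))

theorem Cong_inc_mem {V : ValuationSubring Ω} (hV : ∀ c ∈ Cst p Ω, c ∈ V)
    (u : Cst p Ω ⊗[ZMod p] B) (i : Fin (Module.finrank (ZMod p) B)) : crd (Cong_inc u) i ∈ V := by
  rw [Cong_crd_inc]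
  exact hV _ (crd u i).2

theorem Cong_mem {V : ValuationSubring Ω} (hV : ∀ c ∈ Cst p Ω, c ∈ V) {w : Ω ⊗[ZMod p] B}
    {u : Cst p Ω ⊗[ZMod p] B} (h : Cong V w u) (i : Fin (Module.finrank (ZMod p) B)) :
    crd w i ∈ V := by
  have h1 : crd w i = (crd w i - ((crd u i : Cst p Ω) : Ω)) + ((crd u i : Cst p Ω) : Ω) := by ring
  rw [h1]
  exact V.add_mem _ _ ((V.valuation_le_one_iff _).1 (h i).le) (hV _ (crd u i).2)

theorem Cong_mul {V : ValuationSubring Ω} (hV : ∀ c ∈ Cst p Ω, c ∈ V) {w w' : Ω ⊗[ZMod p] B}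
    {u u' : Cst p Ω ⊗[ZMod p] B} (h : Cong V w u) (h' : Cong V w' u') :
    Cong V (w * w') (u * u') := by
  rw [Cong_iff]
  have h1 : w * w' - Cong_inc (u * u') =
      (w - Cong_inc u) * w' + Cong_inc u * (w' - Cong_inc u') := by
    have h2 : Cong_inc (u * u') = Cong_inc u * Cong_inc u' := map_mul _ _ _
    rw [h2]
    noncomm_ring
  rw [h1]
  exact Cong_M_add (Cong_M_mul ((Cong_iff V w u).1 h) (Cong_mem hV h'))
    (Cong_M_mul' (Cong_inc_mem hV u) ((Cong_iff V w' u').1 h'))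

theorem Cong_tmul (V : ValuationSubring Ω) (b : B) :
    Cong V ((1 : Ω) ⊗ₜ[ZMod p] b) ((1 : Cst p Ω) ⊗ₜ[ZMod p] b) := by
  intro i
  rw [Cong_crd_one_tmul, Cong_crd_one_tmul]
  have h : ((algebraMap (ZMod p) (Cst p Ω) ((Module.finBasis (ZMod p) B).repr b i) : Cst p Ω) : Ω)
      = algebraMap (ZMod p) Ω ((Module.finBasis (ZMod p) B).repr b i) := rfl
  rw [h, sub_self, map_zero]
  exact zero_lt_one

theorem Cong_one (V : ValuationSubring Ω) : Cong V (1 : Ω ⊗[ZMod p] B) 1 :=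
  Cong_tmul V 1

theorem Cong_unique {V : ValuationSubring Ω} (hV : ∀ c ∈ Cst p Ω, c ≠ 0 → V.valuation c = 1)
    {w : Ω ⊗[ZMod p] B} {u u' : Cst p Ω ⊗[ZMod p] B} (h : Cong V w u) (h' : Cong V w u') :
    u = u' := by
  refine Cong_ext fun i => ?_
  have h1 : V.valuation (((crd u i : Cst p Ω) : Ω) - ((crd u' i : Cst p Ω) : Ω)) < 1 := by
    have h2 : ((crd u i : Cst p Ω) : Ω) - ((crd u' i : Cst p Ω) : Ω) =
        (crd w i - ((crd u' i : Cst p Ω) : Ω)) - (crd w i - ((crd u i : Cst p Ω) : Ω)) := by ring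
    rw [h2]
    exact Valuation.map_sub_lt _ (h' i) (h i)
  by_contra hne
  have h3 : ((crd u i - crd u' i : Cst p Ω) : Ω) ≠ 0 := by
    intro h0
    exact hne (sub_eq_zero.1 (Subtype.ext h0))
  have h4 := hV _ (crd u i - crd u' i).2 h3
  have h5 : ((crd u i - crd u' i : Cst p Ω) : Ω) =
      ((crd u i : Cst p Ω) : Ω) - ((crd u' i : Cst p Ω) : Ω) := rfl
  rw [h5] at h4
  exact absurd h4 h1.ne

theorem Cong_tmap {V : ValuationSubring Ω} {γ : Ω ≃ₐ[ZMod p] Ω} (hγ : γ ∈ Dec p V)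
    (r : B →+* B) {w : Ω ⊗[ZMod p] B} {u : Cst p Ω ⊗[ZMod p] B} (h : Cong V w u) :
    Cong V (tmap (p := p) (γ : Ω →+* Ω) r w) (tmap (p := p) (cstAut γ) r u) := by
  rw [Cong_iff]
  have h1 : tmap (p := p) (γ : Ω →+* Ω) r w - Cong_inc (tmap (p := p) (cstAut γ) r u) =
      tmap (p := p) (γ : Ω →+* Ω) r (w - Cong_inc u) := by
    rw [map_sub, Cong_inc, Cong_inc, tmap_comp, tmap_comp]
    rfl
  rw [h1]
  exact Cong_M_tmap hγ r ((Cong_iff V w u).1 h)

theorem Cong_fru [CharP Ω p] [CharP (Cst p Ω) p] {V : ValuationSubring Ω} (d : ℕ)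
    (w : (Ω ⊗[ZMod p] B)ˣ) (u : (Cst p Ω ⊗[ZMod p] B)ˣ)
    (h : Cong V (w : Ω ⊗[ZMod p] B) (u : Cst p Ω ⊗[ZMod p] B)) :
    Cong V (fru d Ω w : (Ω ⊗[ZMod p] B)ˣ) ((fru d (Cst p Ω) u : (Cst p Ω ⊗[ZMod p] B)ˣ) :
        Cst p Ω ⊗[ZMod p] B) := by
  intro i
  rw [fru, fru, coe_tu, coe_tu, Cong_crd_tmap, Cong_crd_tmap]
  have h1 : ((iterateFrobenius (Cst p Ω) p d (crd (u : Cst p Ω ⊗[ZMod p] B) i) : Cst p Ω) : Ω) =
      iterateFrobenius Ω p d ((crd (u : Cst p Ω ⊗[ZMod p] B) i : Cst p Ω) : Ω) := by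
    rw [iterateFrobenius_def, iterateFrobenius_def]
    rfl
  rw [h1, ← map_sub, iterateFrobenius_def, map_pow]
  exact pow_lt_one₀ zero_le (h i) (pow_ne_zero _ (Fact.out : p.Prime).ne_zero)

theorem Cong_exists {V : ValuationSubring Ω}
    (hV : ∀ u ∈ V, ∃ c ∈ Cst p Ω, V.valuation (u - c) < 1) (w : Ω ⊗[ZMod p] B)
    (hw : ∀ i, crd w i ∈ V) : ∃ u : Cst p Ω ⊗[ZMod p] B, Cong V w u := by
  choose c hc hc' using fun i => hV _ (hw i)
  refine ⟨vec (Module.finBasis (ZMod p) B) (fun i => (⟨c i, hc i⟩ : Cst p Ω)), fun i => ?_⟩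
  have h : crd (vec (Module.finBasis (ZMod p) B) (fun i => (⟨c i, hc i⟩ : Cst p Ω))) i =
      (⟨c i, hc i⟩ : Cst p Ω) := repr_vec _ _ i
  rw [h]
  exact hc' i

end values

theorem tCong (hRes : ResStmt) : CongStmt := by
  intro p _ B _ _ _ Ω _ _ _ _ x hx V hV
  obtain ⟨h1, h2, h3, -⟩ := hRes p Ω x hx V hV
  have h3' : ∀ u ∈ V, ∃ c ∈ Cst p Ω, V.valuation (u - c) < 1 := by
    intro u hu
    obtain ⟨c, hc, hc', -⟩ := h3 u hu
    exact ⟨c, hc, hc'⟩
  refine ⟨fun w w' u u' h h' => Cong_mul h1 h h', Cong_one V, Cong_tmul V,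
    fun w u u' h h' => Cong_unique h2 h h', fun γ hγ r w u h => Cong_tmap hγ r h,
    fun d w u h => Cong_fru d w u h, fun w u hw h => ?_, Cong_exists h3'⟩
  obtain ⟨u', hu'⟩ := Cong_exists h3' _ hw
  have h4 : (u : Cst p Ω ⊗[ZMod p] B) * u' = 1 := by
    have h5 := Cong_mul h1 h hu'
    rw [Units.mul_inv] at h5
    exact Cong_unique h2 h5 (Cong_one V)
  have h6 : ((u⁻¹ : (Cst p Ω ⊗[ZMod p] B)ˣ) : Cst p Ω ⊗[ZMod p] B) = u' := by
    have h7 := congrArg
      (fun z => ((u⁻¹ : (Cst p Ω ⊗[ZMod p] B)ˣ) : Cst p Ω ⊗[ZMod p] B) * z) h4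
    simp only [mul_one, Units.inv_mul_cancel_left] at h7
    exact h7.symm
  rw [h6]
  exact hu'

end MP7Z
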