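import Pool.Agent.Lib.MP_7f581e_Z.Lie.Spec

/-!
# Lie/CongU: units have unit values
-/

namespace MP7Z

open TensorProduct MP7fS

theorem tCongU (hCong : CongStmt) : CongUStmt := by
  intro p _ B _ _ _ Ω _ _ _ _ x hx V hV w hw hw'
  obtain ⟨c1, c2, -, c4, -, -, -, c8⟩ := hCong p B Ω x hx V hV
  obtain ⟨u, hu⟩ := c8 _ hw
  obtain ⟨u', hu'⟩ := c8 _ hw'
  have h1 := c1 _ _ _ _ hu hu'
  have h2 := c1 _ _ _ _ hu' hu
  rw [Units.mul_inv] at h1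
  rw [Units.inv_mul] at h2
  exact ⟨⟨u, u', c4 _ _ _ h1 c2, c4 _ _ _ h2 c2⟩, hu⟩

end MP7Z
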