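import Pool.Agent.Lib.MP_7f581e_Z.Lie.Spec
import Pool.Agent.Lib.MP_7f581e_Z.BR.BC
import Pool.Agent.Lib.MP_7f581e_Z.BR.ResT

/-!
# Lie/DecF: the decomposition group of a finite place in `Gx` and the constants
-/

namespace MP7Z

open IntermediateField

section

variable {p : ℕ} [Fact p.Prime] {Ω : Type} [Field Ω] [Algebra (ZMod p) Ω]

/-- The finite field generated by an algebraic element `c`, with `p ^ d` elements, is the set of the
solutions of `a ^ (p ^ d) = a`. -/
theorem DecF_field {c : Ω} (hc : IsAlgebraic (ZMod p) c) : ∃ d : ℕ, 0 < d ∧ c ^ p ^ d = c ∧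
    ∀ a : Ω, a ^ p ^ d = a → ∃ P : Polynomial (ZMod p), Polynomial.aeval c P = a := by
  classical
  have hfd : FiniteDimensional (ZMod p) (adjoin (ZMod p) {c}) :=
    adjoin.finiteDimensional hc.isIntegral
  have hfin : Finite (adjoin (ZMod p) {c}) := Module.finite_of_finite (ZMod p)
  let _ := Fintype.ofFinite (adjoin (ZMod p) {c})
  set d := Module.finrank (ZMod p) (adjoin (ZMod p) {c}) with hd
  have hd0 : 0 < d := Module.finrank_pos
  have hcard : Fintype.card (adjoin (ZMod p) {c}) = p ^ d := by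
    rw [Module.card_eq_pow_finrank (K := ZMod p), ZMod.card]
  have hpow : ∀ a : adjoin (ZMod p) {c}, (a : Ω) ^ p ^ d = a := by
    intro a
    have h1 := FiniteField.pow_card a
    rw [hcard] at h1
    exact congrArg Subtype.val h1
  refine ⟨d, hd0, hpow ⟨c, mem_adjoin_simple_self (ZMod p) c⟩, ?_⟩
  intro a ha
  have hp1 : 1 < p ^ d := Nat.one_lt_pow hd0.ne' (Fact.out : p.Prime).one_lt
  have hne : (Polynomial.X ^ p ^ d - Polynomial.X : Polynomial Ω) ≠ 0 :=
    FiniteField.X_pow_card_sub_X_ne_zero Ω hp1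
  have hsub : (Finset.univ.image fun b : adjoin (ZMod p) {c} => (b : Ω)) ⊆
      (Polynomial.X ^ p ^ d - Polynomial.X : Polynomial Ω).roots.toFinset := by
    intro b hb
    obtain ⟨b', -, rfl⟩ := Finset.mem_image.1 hb
    rw [Multiset.mem_toFinset, Polynomial.mem_roots hne, Polynomial.IsRoot, Polynomial.eval_sub,
      Polynomial.eval_pow, Polynomial.eval_X, hpow, sub_self]
  have hle : (Polynomial.X ^ p ^ d - Polynomial.X : Polynomial Ω).roots.toFinset.card ≤
      (Finset.univ.image fun b : adjoin (ZMod p) {c} => (b : Ω)).card := by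
    rw [Finset.card_image_of_injective _ Subtype.val_injective, Finset.card_univ, hcard]
    refine (Multiset.toFinset_card_le _).trans ((Polynomial.card_roots' _).trans ?_)
    rw [FiniteField.X_pow_card_sub_X_natDegree_eq Ω hp1]
  have heq := Finset.eq_of_subset_of_card_le hsub hle
  have ha' : a ∈ (Polynomial.X ^ p ^ d - Polynomial.X : Polynomial Ω).roots.toFinset := by
    rw [Multiset.mem_toFinset, Polynomial.mem_roots hne, Polynomial.IsRoot, Polynomial.eval_sub,
      Polynomial.eval_pow, Polynomial.eval_X, ha, sub_self]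
  rw [← heq] at ha'
  obtain ⟨b, -, rfl⟩ := Finset.mem_image.1 ha'
  have h2 : (b : Ω) ∈ Algebra.adjoin (ZMod p) {c} := by
    rw [← adjoin_simple_toSubalgebra_of_isAlgebraic hc]
    exact b.2
  rw [Algebra.adjoin_singleton_eq_range_aeval] at h2
  obtain ⟨P, hP⟩ := h2
  exact ⟨P, hP⟩

theorem DecF_aeval {V : ValuationSubring Ω} {x c : Ω} (hx : x ∈ V) (hc : c ∈ V)
    (hxc : V.valuation (x - c) < 1) (P : Polynomial (ZMod p)) :
    V.valuation (Polynomial.aeval x P - Polynomial.aeval c P) < 1 := by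
  have hZ : ∀ a : ZMod p, algebraMap (ZMod p) Ω a ∈ V := by
    intro a
    rw [← ZMod.natCast_zmod_val a, map_natCast]
    exact natCast_mem _ _
  have hcV : ∀ P : Polynomial (ZMod p), Polynomial.aeval c P ∈ V := by
    intro P
    rw [Polynomial.aeval_eq_sum_range]
    refine sum_mem fun i _ => ?_
    rw [Algebra.smul_def]
    exact mul_mem (hZ _) (pow_mem hc i)
  induction P using Polynomial.induction_on with
  | C a =>
    rw [Polynomial.aeval_C, Polynomial.aeval_C, sub_self, map_zero]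
    exact zero_lt_one
  | add P Q hP hQ =>
    rw [map_add, map_add]
    have h1 : Polynomial.aeval x P + Polynomial.aeval x Q -
        (Polynomial.aeval c P + Polynomial.aeval c Q) =
        (Polynomial.aeval x P - Polynomial.aeval c P) +
          (Polynomial.aeval x Q - Polynomial.aeval c Q) := by ring
    rw [h1]
    exact V.valuation.map_add_lt hP hQ
  | monomial n a ih =>
    have h0 : ∀ y : Ω, Polynomial.aeval y (Polynomial.C a * Polynomial.X ^ (n + 1)) =
        Polynomial.aeval y (Polynomial.C a * Polynomial.X ^ n) * y := by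
      intro y
      rw [pow_succ, ← mul_assoc, map_mul (Polynomial.aeval y) _ Polynomial.X, Polynomial.aeval_X]
    rw [h0, h0]
    set u := Polynomial.aeval x (Polynomial.C a * Polynomial.X ^ n)
    set u' := Polynomial.aeval c (Polynomial.C a * Polynomial.X ^ n) with hu'
    have h1 : u * x - u' * c = (u - u') * x + u' * (x - c) := by ring
    rw [h1]
    refine V.valuation.map_add_lt ?_ ?_
    · rw [map_mul]
      exact lt_of_le_of_lt (mul_le_of_le_one_right' ((V.valuation_le_one_iff _).2 hx)) ih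
    · rw [map_mul]
      exact lt_of_le_of_lt (mul_le_of_le_one_left' ((V.valuation_le_one_iff _).2 (hcV _))) hxc

/-- The values of `m` at which all solutions of `c ^ (p ^ m) = c` satisfy `c ^ (p ^ d) = c`. -/
theorem DecF_dvd (hs : IsSepClosed Ω) {m d : ℕ} (hm : 0 < m) (hd : 0 < d)
    (h : ∀ c : Ω, c ^ p ^ m = c → c ^ p ^ d = c) : m ∣ d := by
  have hp : 1 < p := (Fact.out : p.Prime).one_lt
  have hp1 : 1 < p ^ m := Nat.one_lt_pow hm.ne' hp
  have hp2 : 1 < p ^ d := Nat.one_lt_pow hd.ne' hp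
  have hchar : CharP Ω p := charP_of_injective_algebraMap (algebraMap (ZMod p) Ω).injective p
  have hne : NeZero ((p ^ m - 1 : ℕ) : Ω) := by
    refine ⟨?_⟩
    rw [Nat.cast_sub hp1.le, Nat.cast_pow, CharP.cast_eq_zero, zero_pow hm.ne', Nat.cast_one,
      zero_sub]
    exact neg_ne_zero.2 one_ne_zero
  obtain ⟨ζ, hζ⟩ := HasEnoughRootsOfUnity.exists_primitiveRoot Ω (p ^ m - 1)
  have h1 : ζ ^ p ^ m = ζ := by
    have h2 : p ^ m = (p ^ m - 1) + 1 := by omega
    rw [h2, pow_succ, hζ.pow_eq_one, one_mul]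
  have h2 := h ζ h1
  have hζ0 : ζ ≠ 0 := hζ.ne_zero (by omega)
  have h3 : ζ ^ (p ^ d - 1) = 1 := by
    have h4 : p ^ d = (p ^ d - 1) + 1 := by omega
    rw [h4, pow_succ] at h2
    exact mul_right_cancel₀ hζ0 (by rw [h2, one_mul])
  have h4 : p ^ m - 1 ∣ p ^ d - 1 := hζ.dvd_of_pow_eq_one _ h3
  have h5 := Nat.pow_sub_one_gcd_pow_sub_one p m d
  rw [Nat.gcd_eq_left h4] at h5
  have h6 : 0 < p ^ Nat.gcd m d := pow_pos (by omega) _
  have h7 : p ^ m = p ^ Nat.gcd m d := by omega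
  have h8 : m = Nat.gcd m d := Nat.pow_right_injective hp h7
  rw [h8]
  exact Nat.gcd_dvd_right m d

end

open ResAux in
theorem tDecF (hCst : CstStmt) (_hLvl : LvlStmt) (_hBel : BelStmt) (hConj : ConjStmt)
    (hRes : ResStmt) (hFrb : FrbStmt) : DecFStmt := by
  intro p _ Ω _ _ x hx V hV hxV
  have := hCst p Ω x hx
  obtain ⟨hR1, hR2, hR3, -⟩ := hRes p Ω x hx V hV
  obtain ⟨c, hcC, hcV, hcu⟩ := hR3 x hxV
  have hca : IsAlgebraic (ZMod p) c := mem_algebraicClosure_iff.1 hcC
  obtain ⟨d, hd, hcd, hfield⟩ := DecF_field hca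
  have hxc : x - c ≠ 0 := by
    intro h
    apply hx.transc
    rw [sub_eq_zero.1 h]
    exact hca
  -- second claim
  have hsec : ∀ δ ∈ Gx p x ⊓ Dec p V, ∀ a ∈ Cst p Ω, a ^ p ^ d = a → δ a = a := by
    rintro δ ⟨hδ1, hδ2⟩ a _ ha
    have h1 : δ c = c := by
      apply hcu
      · exact mem_algebraicClosure_iff.2 (hca.algHom (δ : Ω →ₐ[ZMod p] Ω))
      · have h2 := dec_val hδ2 hcV
        rwa [map_sub, mem_Gx.1 hδ1] at h2
    obtain ⟨P, rfl⟩ := hfield a ha
    have h2 := Polynomial.aeval_algHom_apply (δ : Ω →ₐ[ZMod p] Ω) c P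
    change Polynomial.aeval (δ c) P = δ (Polynomial.aeval c P) at h2
    rw [← h2, h1]
  -- first claim
  obtain ⟨⟨φ, hφ1, hφ2⟩, -⟩ := hFrb p Ω x hx
  set τ : Ω ≃ₐ[ZMod p] Ω := φ ^ d with hτ
  have hτx : τ x = x := mem_Gx.1 (pow_mem hφ1 d)
  have hτc : ∀ a ∈ Cst p Ω, τ a = a ^ p ^ d := by
    intro a ha
    rw [hτ]
    clear hτ hτx hcd hsec hfield hd
    induction d with
    | zero => rw [pow_zero, pow_zero, pow_one]; rfl
    | succ d ih =>
      rw [pow_succ', AlgEquiv.mul_apply, ih, map_pow, hφ2 a ha, ← pow_mul, ← pow_succ']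
  have hfirst : ∃ γ ∈ Gx p x ⊓ Dec p V, ∀ a ∈ Cst p Ω, γ a = a ^ p ^ d := by
    set V' : ValuationSubring Ω := V.comap ((τ⁻¹ : Ω ≃ₐ[ZMod p] Ω) : Ω →+* Ω) with hV'
    have hmem : ∀ f, f ∈ V' ↔ τ⁻¹ f ∈ V := fun f => Iff.rfl
    have hmem' : ∀ f, τ f ∈ V' ↔ f ∈ V := by
      intro f
      rw [hmem]
      have h1 : τ⁻¹ (τ f) = f := τ.symm_apply_apply f
      rw [h1]
    have hV't : V' ≠ ⊤ := by
      intro h
      apply hV
      rw [eq_top_iff]
      intro f _
      rw [← hmem', h]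
      exact ValuationSubring.mem_top _
    have hτxc : τ (x - c) = x - c := by
      rw [map_sub, hτx, hτc c hcC, hcd]
    have hV'c : V'.valuation (x - c) < 1 := by
      rw [val_lt_iff V' hxc]
      intro h
      have h1 : (x - c)⁻¹ = τ ((x - c)⁻¹) := by rw [map_inv₀, hτxc]
      rw [h1, hmem'] at h
      exact (val_lt_iff V hxc).1 hcV h
    set K : IntermediateField (Cst p Ω) Ω := adjoin (Cst p Ω) {x} with hK
    have hxK : x ∈ K := mem_adjoin_simple_self (Cst p Ω) x
    have hKl : IsLevel p x K := ⟨hxK, fg_adjoin_of_finite (Set.finite_singleton x)⟩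
    have htr : ∀ f ∈ K, f ∈ V' ↔ f ∈ V := by
      intro f hf
      refine BC_trace (𝕜 := Cst p Ω) V' V
        (fun a ha => val_const (p := p) a.2 (fun h => ha (Subtype.ext h)) V')
        (fun a ha => val_const (p := p) a.2 (fun h => ha (Subtype.ext h)) V) hxc hV'c hcV f ?_
      have h1 : K ≤ adjoin (Cst p Ω) {x - c} := by
        rw [hK, adjoin_simple_le_iff]
        have h2 := add_mem (mem_adjoin_simple_self (Cst p Ω) (x - c))
          ((adjoin (Cst p Ω) {x - c}).algebraMap_mem ⟨c, hcC⟩)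
        have h3 : x - c + algebraMap (Cst p Ω) Ω ⟨c, hcC⟩ = x := sub_add_cancel x c
        rwa [h3] at h2
      exact h1 hf
    obtain ⟨γ', hγ'1, hγ'2⟩ := hConj p Ω x hx K hKl V' V hV't hV htr
    refine ⟨γ' * τ, ⟨?_, ?_⟩, ?_⟩
    · refine mem_Gx.2 ?_
      rw [AlgEquiv.mul_apply, hτx]
      exact hγ'1 x hxK
    · intro f
      rw [AlgEquiv.mul_apply, hγ'2, hmem']
    · intro a ha
      rw [AlgEquiv.mul_apply, hτc a ha]
      exact hγ'1 _ (K.algebraMap_mem ⟨a ^ p ^ d, pow_mem ha _⟩)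
  obtain ⟨γ, hγ, hγc⟩ := hfirst
  refine ⟨d, hd, ⟨γ, hγ, hγc⟩, hsec, ?_, ?_⟩
  · intro a ha hfix
    have h1 : a ^ p ^ d = a := by rw [← hγc a ha, hfix γ hγ]
    obtain ⟨P, rfl⟩ := hfield a h1
    refine ⟨Polynomial.aeval x P, ?_, DecF_aeval hxV (hR1 c hcC) hcV P⟩
    rw [Algebra.adjoin_singleton_eq_range_aeval]
    exact ⟨P, rfl⟩
  · intro m hm hfix
    refine DecF_dvd (p := p) hx.sepClosed hm hd fun a ha => ?_
    have hp1 : 1 < p ^ m := Nat.one_lt_pow hm.ne' (Fact.out : p.Prime).one_lt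
    have haC : a ∈ Cst p Ω := by
      rw [mem_algebraicClosure_iff]
      refine ⟨Polynomial.X ^ p ^ m - Polynomial.X, FiniteField.X_pow_card_sub_X_ne_zero _ hp1, ?_⟩
      rw [map_sub, map_pow, Polynomial.aeval_X, ha, sub_self]
    rw [← hγc a haC]
    exact hfix γ hγ a ha

end MP7Z
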