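import Pool.Agent.Lib.MP_7f581e_Z.Lie.Spec
import Pool.Agent.Lib.MP_7f581e_Z.BR.ResT
import Pool.Agent.Lib.MP_7f581e_Z.BR.Spl

set_option autoImplicit false

/-! Existence of split families. -/

namespace MP7Z

namespace FamM

variable {p : ℕ} [Fact p.Prime] {Ω : Type} [Field Ω] [Algebra (ZMod p) Ω]

/-- An automorphism over `𝔽_p(x)` as an element of `Gx`, as a homomorphism. -/
noncomputable def gal {x : Ω} : (Ω ≃ₐ[IntermediateField.adjoin (ZMod p) {x}] Ω) →* Gx p x where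
  toFun := SplM.ofGal
  map_one' := rfl
  map_mul' := fun _ _ => rfl

/-- A primitive element of the fixed field of the kernel. -/
theorem exists_gen {x : Ω} (hst : IsStage p x) {G : Type} [Group G] (ψ : Gx p x →* G)
    (hψ : FinLevel ψ) : ∃ α : Ω, IsIntegral (Algebra.adjoin (ZMod p) {x}) α ∧
      (∀ γ : Gx p x, ψ γ = 1 → (γ : Ω ≃ₐ[ZMod p] Ω) α = α) ∧
      ∀ γ : Gx p x, (γ : Ω ≃ₐ[ZMod p] Ω) α = α → ψ γ = 1 := by
  obtain ⟨S, hS⟩ := hψ
  have hsep := hst.sep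
  have hsc := hst.sepClosed
  let F := IntermediateField.adjoin (ZMod p) {x}
  have hclos : IsSepClosure F Ω := ⟨hsc, hsep⟩
  have hgal : IsGalois F Ω := inferInstance
  let H : Subgroup (Ω ≃ₐ[F] Ω) := (ψ.comp gal).ker
  let L : IntermediateField F Ω := IntermediateField.adjoin F (S : Set Ω)
  have hL : FiniteDimensional F L :=
    IntermediateField.finiteDimensional_adjoin fun s _ => Algebra.IsIntegral.isIntegral s
  have hLH : L.fixingSubgroup ≤ H := by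
    intro γ hγ
    rw [MonoidHom.mem_ker]
    refine hS _ fun s hs => ?_
    exact (IntermediateField.mem_fixingSubgroup_iff L γ).1 hγ s
        (IntermediateField.subset_adjoin F _ hs)
  have hopen : IsOpen (H : Set (Ω ≃ₐ[F] Ω)) :=
    Subgroup.isOpen_mono hLH (IntermediateField.fixingSubgroup_isOpen L)
  have hclosed : IsClosed (H : Set (Ω ≃ₐ[F] Ω)) := OpenSubgroup.isClosed ⟨H, hopen⟩
  let K : IntermediateField F Ω := IntermediateField.fixedField H
  have hKH : K.fixingSubgroup = H :=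
    InfiniteGalois.fixingSubgroup_fixedField (⟨H, hclosed⟩ : ClosedSubgroup (Ω ≃ₐ[F] Ω))
  have hfin : FiniteDimensional F K := by
    rw [← InfiniteGalois.isOpen_iff_finite, hKH]
    exact hopen
  obtain ⟨a, ha⟩ := Field.exists_primitive_element F K
  have hψa : ∀ γ : Gx p x, ψ γ = 1 → (γ : Ω ≃ₐ[ZMod p] Ω) (a : Ω) = a := by
    intro γ hγ
    have h1 := (IntermediateField.mem_fixedField_iff H (a : Ω)).1 a.2 (SplM.toGal γ)
    apply h1
    change ψ (gal (SplM.toGal γ)) = 1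
    exact hγ
  have haψ : ∀ γ : Gx p x, (γ : Ω ≃ₐ[ZMod p] Ω) (a : Ω) = a → ψ γ = 1 := by
    intro γ hγ
    have h2 : ∀ e : K, e ∈ IntermediateField.adjoin F {a} →
        SplM.toGal γ (e : Ω) = (e : Ω) := by
      intro e he
      induction he using IntermediateField.adjoin_induction with
      | mem z hz =>
        rw [Set.mem_singleton_iff] at hz
        rw [hz]
        exact hγ
      | algebraMap c => exact (SplM.toGal γ).commutes c
      | add a b _ _ ha hb =>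
        rw [IntermediateField.coe_add, map_add, ha, hb]
      | inv a _ ha => rw [IntermediateField.coe_inv, map_inv₀, ha]
      | mul a b _ _ ha hb => rw [IntermediateField.coe_mul, map_mul, ha, hb]
    have h3 : SplM.toGal γ ∈ K.fixingSubgroup := by
      rw [IntermediateField.mem_fixingSubgroup_iff]
      intro y hy
      exact h2 ⟨y, hy⟩ (by rw [ha]; trivial)
    rw [hKH] at h3
    exact h3
  obtain ⟨c, hc, hci⟩ := (SplM.isAlgebraic_adjoin hst (a : Ω)).exists_integral_multiple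
  have hc' : (c : Ω) ≠ 0 := fun h => hc (Subtype.ext h)
  have hcf : ∀ γ : Gx p x, (γ : Ω ≃ₐ[ZMod p] Ω) (c • (a : Ω)) =
      (c : Ω) * (γ : Ω ≃ₐ[ZMod p] Ω) (a : Ω) := by
    intro γ
    rw [Algebra.smul_def]
    change (γ : Ω ≃ₐ[ZMod p] Ω) ((c : Ω) * a) = _
    rw [map_mul, SplM.toFix γ.2 (IntermediateField.algebra_adjoin_le_adjoin _ _ c.2)]
  refine ⟨c • (a : Ω), hci, fun γ hγ => ?_, fun γ hγ => haψ γ ?_⟩
  · rw [hcf, hψa γ hγ, Algebra.smul_def]
    rfl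
  · rw [hcf, Algebra.smul_def] at hγ
    exact mul_left_cancel₀ hc' hγ

/-- The elements of `𝔽_{p^m}`. -/
def Fm (p m : ℕ) (Ω : Type) [Field Ω] : Type := {c : Ω // c ^ (p ^ m) = c}

theorem Fm_finite {m : ℕ} (hm : 0 < m) : Finite (Fm p m Ω) := by
  classical
  have hp : 1 < p ^ m := Nat.one_lt_pow hm.ne' (Fact.out : p.Prime).one_lt
  have hne : (Polynomial.X ^ (p ^ m) - Polynomial.X : Polynomial Ω) ≠ 0 :=
    FiniteField.X_pow_card_sub_X_ne_zero Ω hp
  have h1 : {c : Ω | c ^ (p ^ m) = c} ⊆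
      ((Polynomial.X ^ (p ^ m) - Polynomial.X : Polynomial Ω).roots.toFinset : Set Ω) := by
    intro c hc
    rw [Finset.mem_coe, Multiset.mem_toFinset, Polynomial.mem_roots hne, Polynomial.IsRoot,
      Polynomial.eval_sub, Polynomial.eval_pow, Polynomial.eval_X, sub_eq_zero]
    exact hc
  exact (Set.Finite.subset (Finset.finite_toSet _) h1).to_subtype

/-- The action on `𝔽_{p^m}`. -/
noncomputable def perm (x : Ω) (m : ℕ) : Gx p x →* Equiv.Perm (Fm p m Ω) where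
  toFun γ :=
    { toFun := fun c => ⟨(γ : Ω ≃ₐ[ZMod p] Ω) c.1, by rw [← map_pow, c.2]⟩
      invFun := fun c => ⟨(γ : Ω ≃ₐ[ZMod p] Ω).symm c.1, by rw [← map_pow, c.2]⟩
      left_inv := fun c => Subtype.ext (AlgEquiv.symm_apply_apply _ _)
      right_inv := fun c => Subtype.ext (AlgEquiv.apply_symm_apply _ _) }
  map_one' := rfl
  map_mul' := fun _ _ => rfl

/-- A nonzero element of `𝔽_p[x]` with value `0`. -/
theorem exists_zero (hRes : ResStmt) {x : Ω} (hst : IsStage p x) {V : ValuationSubring Ω}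
    (hV : V ≠ ⊤) (hx : x ∈ V) : ∃ t ∈ Algebra.adjoin (ZMod p) {x}, t ≠ 0 ∧ V.valuation t < 1 := by
  obtain ⟨c, hc, hcv, -⟩ := (hRes p Ω x hst V hV).2.2.1 x hx
  have hxA : x ∈ Algebra.adjoin (ZMod p) {x} := Algebra.subset_adjoin (Set.mem_singleton x)
  by_cases h0 : c = 0
  · refine ⟨x, hxA, ?_, ?_⟩
    · rintro rfl
      exact hst.transc isAlgebraic_zero
    · rwa [h0, sub_zero] at hcv
  · obtain ⟨k, hk, hk'⟩ := ResAux.exists_pow_eq_one hc h0
    refine ⟨x ^ k - 1, sub_mem (pow_mem hxA k) (one_mem _), ?_, ?_⟩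
    · intro h
      apply hst.transc
      refine ⟨Polynomial.X ^ k - 1, (Polynomial.monic_X_pow_sub_C 1 hk).ne_zero, ?_⟩
      rw [map_sub, map_pow, Polynomial.aeval_X, map_one, h]
    · obtain ⟨d, hd⟩ := sub_dvd_pow_sub_pow (⟨x, hx⟩ : V) ⟨c, ResAux.val_le hc V⟩ k
      have h1 : x ^ k - 1 = (x - c) * (d : Ω) := by
        rw [← hk']
        exact congrArg Subtype.val hd
      rw [h1, map_mul]
      exact mul_lt_one_of_lt_of_le hcv ((V.valuation_le_one_iff _).2 d.2)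

/-- Separation is symmetric. -/
theorem sep_symm (hRes : ResStmt) {x : Ω} (hst : IsStage p x) {V W : ValuationSubring Ω}
    (hW : W ≠ ⊤) {t : Ω} (ht : t ∈ Algebra.adjoin (ZMod p) {x})
    (htV : V.valuation t < 1) (htW : W.valuation t = 1) :
    ∃ s ∈ Algebra.adjoin (ZMod p) {x}, W.valuation s < 1 ∧ V.valuation s = 1 := by
  have htW' : t ∈ W := (W.valuation_le_one_iff _).1 htW.le
  obtain ⟨c, hc, hcv, -⟩ := (hRes p Ω x hst W hW).2.2.1 t htW'
  have h0 : c ≠ 0 := by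
    rintro rfl
    rw [sub_zero] at hcv
    exact hcv.ne htW
  obtain ⟨k, hk, hk'⟩ := ResAux.exists_pow_eq_one hc h0
  refine ⟨t ^ k - 1, sub_mem (pow_mem ht k) (one_mem _), ?_, ?_⟩
  · obtain ⟨d, hd⟩ := sub_dvd_pow_sub_pow (⟨t, htW'⟩ : W) ⟨c, ResAux.val_le hc W⟩ k
    have h1 : t ^ k - 1 = (t - c) * (d : Ω) := by
      rw [← hk']
      exact congrArg Subtype.val hd
    rw [h1, map_mul]
    exact mul_lt_one_of_lt_of_le hcv ((W.valuation_le_one_iff _).2 d.2)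
  · have h1 : V.valuation (t ^ k) < 1 := by
      rw [map_pow]
      exact pow_lt_one' htV hk
    have h2 : V.valuation (t ^ k - 1) = V.valuation (1 : Ω) :=
      V.valuation.map_sub_eq_of_lt_right (by rw [map_one]; exact h1)
    rw [h2, map_one]

end FamM

theorem tFam (hRes : ResStmt) (hSpl : SplStmt) : FamStmt := by
  classical
  intro p _ Ω _ _ x hst m₀ hm₀ Q _ _ ψ hψ r
  cases nonempty_fintype Q
  obtain ⟨α, hαi, hαf, hαψ⟩ := FamM.exists_gen hst ψ hψ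
  -- the conjugates of `α`
  have hdep : ∀ γ γ' : Gx p x, ψ γ = ψ γ' →
      (γ : Ω ≃ₐ[ZMod p] Ω) α = (γ' : Ω ≃ₐ[ZMod p] Ω) α := by
    intro γ γ' h
    have h1 := hαf (γ'⁻¹ * γ) (by rw [map_mul, map_inv, h, inv_mul_cancel])
    have h2 : ((γ'⁻¹ * γ : Gx p x) : Ω ≃ₐ[ZMod p] Ω) α =
        (γ' : Ω ≃ₐ[ZMod p] Ω).symm ((γ : Ω ≃ₐ[ZMod p] Ω) α) := rfl
    rw [h2, AlgEquiv.symm_apply_eq] at h1
    exact h1
  have hdist : ∀ γ γ' : Gx p x, ψ γ ≠ ψ γ' →
      (γ : Ω ≃ₐ[ZMod p] Ω) α - (γ' : Ω ≃ₐ[ZMod p] Ω) α ≠ 0 := by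
    intro γ γ' h h0
    apply h
    have h1 : ψ (γ'⁻¹ * γ) = 1 := by
      apply hαψ
      have h2 : ((γ'⁻¹ * γ : Gx p x) : Ω ≃ₐ[ZMod p] Ω) α =
        (γ' : Ω ≃ₐ[ZMod p] Ω).symm ((γ : Ω ≃ₐ[ZMod p] Ω) α) := rfl
      rw [h2, AlgEquiv.symm_apply_eq]
      exact sub_eq_zero.1 h0
    rw [map_mul, map_inv, inv_mul_eq_one] at h1
    exact h1.symm
  let f : Q → Ω := fun q => if h : ∃ γ, ψ γ = q then (h.choose : Ω ≃ₐ[ZMod p] Ω) α else 0
  have hf : ∀ γ : Gx p x, (γ : Ω ≃ₐ[ZMod p] Ω) α = f (ψ γ) := by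
    intro γ
    have h : ∃ γ', ψ γ' = ψ γ := ⟨γ, rfl⟩
    simp only [f, dif_pos h]
    exact hdep _ _ h.choose_spec.symm
  let T₀ : Finset Ω := ((Finset.univ : Finset (Q × Q)).image (fun q => f q.1 - f q.2)).filter
    (fun t => t ≠ 0)
  have hT₀ : ∀ γ γ' : Gx p x, ψ γ ≠ ψ γ' →
      (γ : Ω ≃ₐ[ZMod p] Ω) α - (γ' : Ω ≃ₐ[ZMod p] Ω) α ∈ T₀ := by
    intro γ γ' h
    rw [Finset.mem_filter, Finset.mem_image]
    refine ⟨⟨(ψ γ, ψ γ'), Finset.mem_univ _, ?_⟩, hdist γ γ' h⟩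
    rw [hf, hf]
  have hT₀0 : ∀ t ∈ T₀, t ≠ 0 := fun t ht => (Finset.mem_filter.1 ht).2
  -- the homomorphism for the degree
  have hFm : Finite (FamM.Fm p m₀ Ω) := FamM.Fm_finite hm₀
  let ψ₁ : Gx p x →* Q × Equiv.Perm (FamM.Fm p m₀ Ω) := ψ.prod (FamM.perm x m₀)
  have hψ₁ : FinLevel ψ₁ := by
    obtain ⟨S, hS⟩ := hψ
    cases nonempty_fintype (FamM.Fm p m₀ Ω)
    refine ⟨S ∪ (Finset.univ : Finset (FamM.Fm p m₀ Ω)).image (fun c => c.1), fun γ hγ => ?_⟩
    have h1 : ψ γ = 1 := hS γ fun s hs => hγ s (Finset.mem_union_left _ hs)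
    have h2 : FamM.perm x m₀ γ = 1 := by
      ext c
      apply Subtype.ext
      exact hγ c.1 (Finset.mem_union_right _ (Finset.mem_image.2 ⟨c, Finset.mem_univ _, rfl⟩))
    exact Prod.ext h1 h2
  have key : ∀ r : ℕ, ∃ V : Fin r → ValuationSubring Ω,
      (∀ j, V j ≠ ⊤ ∧ x ∈ V j ∧ (∀ t ∈ T₀, (V j).valuation t = 1) ∧
        ∀ γ : Gx p x, (γ : Ω ≃ₐ[ZMod p] Ω) ∈ Dec p (V j) → ψ₁ γ = 1) ∧
      ∀ i j, i ≠ j → ∃ t ∈ Algebra.adjoin (ZMod p) {x},
        (V i).valuation t < 1 ∧ (V j).valuation t = 1 := by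
    intro r
    induction r with
    | zero => exact ⟨fun i => i.elim0, fun i => i.elim0, fun i => i.elim0⟩
    | succ r ih =>
      obtain ⟨V, hV, hsep⟩ := ih
      choose t htA ht0 htV using fun j => FamM.exists_zero hRes hst (hV j).1 (hV j).2.1
      obtain ⟨W, hW1, hW2, hW3, hW4⟩ := hSpl p Ω x hst (Q × Equiv.Perm (FamM.Fm p m₀ Ω)) ψ₁ hψ₁
        (T₀ ∪ Finset.univ.image t) (by
          intro s hs
          rcases Finset.mem_union.1 hs with hs | hs
          · exact hT₀0 s hs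
          · obtain ⟨j, -, rfl⟩ := Finset.mem_image.1 hs
            exact ht0 j)
      have hWt : ∀ j, W.valuation (t j) = 1 := fun j =>
        hW3 _ (Finset.mem_union_right _ (Finset.mem_image.2 ⟨j, Finset.mem_univ _, rfl⟩))
      refine ⟨Fin.cons W V, ?_, ?_⟩
      · intro j
        refine Fin.cases ?_ (fun j => ?_) j
        · exact ⟨hW1, hW2, fun s hs => hW3 s (Finset.mem_union_left _ hs), hW4⟩
        · exact hV j
      · intro i j hij
        rcases Fin.eq_zero_or_eq_succ i with rfl | ⟨i, rfl⟩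
        · rcases Fin.eq_zero_or_eq_succ j with rfl | ⟨j, rfl⟩
          · exact absurd rfl hij
          · rw [Fin.cons_zero, Fin.cons_succ]
            exact FamM.sep_symm hRes hst hW1 (htA j) (htV j) (hWt j)
        · rcases Fin.eq_zero_or_eq_succ j with rfl | ⟨j, rfl⟩
          · rw [Fin.cons_zero, Fin.cons_succ]
            exact ⟨t i, htA i, htV i, hWt i⟩
          · rw [Fin.cons_succ, Fin.cons_succ]
            exact hsep i j fun h => hij (congrArg _ h)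
  obtain ⟨V, hV, hsep⟩ := key r
  refine ⟨V, ⟨fun j => (hV j).1, fun j => (hV j).2.1, ?_, ?_, hsep,
    ⟨α, hαi, hαf, fun γ γ' h j => (hV j).2.2.1 _ (hT₀ γ γ' h)⟩⟩⟩
  · intro j γ hγ
    exact congrArg Prod.fst ((hV j).2.2.2 γ hγ)
  · intro j γ hγ c hc
    have h1 := congrArg Prod.snd ((hV j).2.2.2 ⟨γ, hγ.1⟩ hγ.2)
    have h2 := congrArg (fun e : Equiv.Perm (FamM.Fm p m₀ Ω) => (e ⟨c, hc⟩).1) h1
    exact h2

end MP7Z
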