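import Pool.Agent.Lib.MP_7f581e_Z.Lie.Spec

/-!
# The element `g` with prescribed values
-/

namespace MP7Z

open TensorProduct MP7fS

section

variable {p : ℕ} [Fact p.Prime] {B : Type} [Ring B] [Finite B] [Algebra (ZMod p) B]

theorem Gel_fru_comm (R : Type) [CommRing R] [CharP R p] [Algebra (ZMod p) R] (d e : ℕ)
    (u : (R ⊗[ZMod p] B)ˣ) : fru d R (fru e R u) = fru e R (fru d R u) := by
  apply Units.ext
  show tmap (iterateFrobenius R p d) (RingHom.id B)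
      (tmap (iterateFrobenius R p e) (RingHom.id B) (u : R ⊗[ZMod p] B)) =
    tmap (iterateFrobenius R p e) (RingHom.id B)
      (tmap (iterateFrobenius R p d) (RingHom.id B) (u : R ⊗[ZMod p] B))
  rw [tmap_comp, tmap_comp]
  congr 1
  have h : (iterateFrobenius R p d).comp (iterateFrobenius R p e) =
      (iterateFrobenius R p e).comp (iterateFrobenius R p d) := by
    ext r
    simp only [RingHom.comp_apply, iterateFrobenius_def]
    rw [← pow_mul, ← pow_mul, mul_comm]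
  rw [h]

theorem Gel_fru_cstu (R : Type) [CommRing R] [CharP R p] [Algebra (ZMod p) R] (d : ℕ)
    (b : Bˣ) : fru d R (cstu (p := p) R b) = cstu R b := by
  apply Units.ext
  show tmap (iterateFrobenius R p d) (RingHom.id B) ((1 : R) ⊗ₜ[ZMod p] (b : B)) =
    (1 : R) ⊗ₜ[ZMod p] (b : B)
  rw [tmap_tmul, map_one]
  rfl

end

theorem tGel (hCst : CstStmt) (hFam : FamStmt) (hDecF : DecFStmt) (hLift : LiftAllStmt) :
    GelStmt := by
  intro p _ B _ _ _ 𝒢 Q _ _ ρ m₀ ι Z hm₀ hLM hGen hZ hPar Ω _ _ _ _ x hst ψ hfin hsurj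
  haveI : IsAlgClosed (Cst p Ω) := hCst p Ω x hst
  haveI : Finite 𝒢.pts := inferInstance
  let e := Finite.equivFin 𝒢.pts
  obtain ⟨V, hV⟩ := hFam p Ω x hst m₀ hm₀ Q ψ hfin (Nat.card 𝒢.pts)
  have hD := fun j => hDecF p Ω x hst (V j) (hV.ne_top j) (hV.mem j)
  choose d hd0 hγ hfix _ hdiv using hD
  choose γ hγmem hγc using hγ
  have hdvd : ∀ j, m₀ ∣ d j := fun j => hdiv j m₀ hm₀ (fun δ hδ c hc => hV.deg j δ hδ c hc)
  have hz : ∀ j, ∃ z ∈ 𝒢.H (Cst p Ω), fru (d j) (Cst p Ω) z =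
      z * cstu (Cst p Ω) ((e.symm j : 𝒢.pts) : Bˣ) :=
    fun j => hLM (Cst p Ω) (d j) (hd0 j) (hdvd j) _ (e.symm j).2
  choose z hzH hzf using hz
  have hgH : ∀ j, fru 1 (Cst p Ω) (z j) * (z j)⁻¹ ∈ 𝒢.H (Cst p Ω) := fun j =>
    mul_mem (𝒢.map _ _ (iterateFrobenius (Cst p Ω) p 1) _ (hzH j)) (inv_mem (hzH j))
  have hgf : ∀ j, fru (d j) (Cst p Ω) (fru 1 (Cst p Ω) (z j) * (z j)⁻¹) =
      fru 1 (Cst p Ω) (z j) * (z j)⁻¹ := by
    intro j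
    rw [map_mul, map_inv, Gel_fru_comm, hzf, map_mul, Gel_fru_cstu, mul_inv_rev]
    group
  obtain ⟨w, hwH, hwI, hwi, hwi', hwc⟩ := hLift p B 𝒢 Q ρ m₀ ι Z hGen hZ hPar Ω x hst ψ hsurj
    (Nat.card 𝒢.pts) V hV d hd0 hdvd hfix
    (fun j => fru 1 (Cst p Ω) (z j) * (z j)⁻¹) hgH hgf
  refine ⟨w, hwH, hwI, hwi, hwi', fun h hh => ?_⟩
  refine ⟨V (e ⟨h, hh⟩), hV.ne_top _, hV.mem _, ⟨γ (e ⟨h, hh⟩), (hγmem _).1⟩, (hγmem _).2,
    hV.dec _ _ (hγmem _).2, d (e ⟨h, hh⟩), hd0 _, hγc _, z (e ⟨h, hh⟩), hzH _, ?_, hwc _⟩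
  have h1 := hzf (e ⟨h, hh⟩)
  rw [Equiv.symm_apply_apply] at h1
  exact h1

end MP7Z
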