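import Pool.Agent.Lib.MP_7f581e_Z.Lie.Spec

/-!
# The Lang torsor theorem
-/

namespace MP7Z

open TensorProduct MP7fS

theorem tL3 (hInt : IntStmt) (hGel : GelStmt) (hTor : TorStmt) (hTorS : TorSStmt)
    (hTorO : TorOStmt) : L3Stmt := by
  intro p _ B _ _ _ 𝒢 Q _ _ ρ hρ m₀ ι Z hm₀ hL1 hLM hGen hZ hPar hperf Ω _ _ x ψ hψ
  haveI : CharP Ω p := charP_of_injective_algebraMap (algebraMap (ZMod p) Ω).injective p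
  haveI : CharP (Cst p Ω) p :=
    charP_of_injective_algebraMap (algebraMap (ZMod p) (Cst p Ω)).injective p
  haveI : IsSepClosed Ω := hψ.stage.sepClosed
  have hsurj : Function.Surjective ψ := by
    intro q
    obtain ⟨γ, _, h⟩ := hψ.reg q
    exact ⟨γ, h⟩
  obtain ⟨g, hgH, hinv, hgi, hgi', hpl⟩ := hGel p B 𝒢 Q ρ m₀ ι Z hm₀ hLM hGen hZ hPar Ω x
    hψ.stage ψ hψ.fin hsurj
  obtain ⟨y, hyH, hy⟩ := hL1 Ω g hgH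
  obtain ⟨hyi, hyi'⟩ := (hInt p B Ω x).2.2.2.2.2 g y hgi hgi' hy
  obtain ⟨Ψ, hΨf, hΨr, hΨy⟩ := hTor p B 𝒢 Q ρ hρ Ω x ψ g y hψ.fin hinv hyH hy
  refine ⟨Ψ, ⟨hψ.stage, hΨf, ?_, ?_⟩, hΨr⟩
  · exact hTorO p B 𝒢 Q ρ hρ Ω x ψ g y Ψ hψ.stage hψ.reg hperf hyH hyi hyi' hy hΨr hΨy hpl
  · exact hTorS p B 𝒢 Q ρ hρ Ω x ψ y Ψ hψ.stage hψ.inv hyi hyi' hΨr hΨy

end MP7Z
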