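import Pool.Agent.Lib.MP_7f581e_Z.Lie.Spec

set_option autoImplicit false
set_option linter.unusedSectionVars false

/-! Every family of points, fixed by the powers of the Frobenius, lifts. -/

namespace MP7Z

open TensorProduct MP7fS

namespace LiftM

variable {p : ℕ} [Fact p.Prime] {B : Type} [Ring B] [Finite B] [Algebra (ZMod p) B]

theorem crd_ext {R : Type} [CommRing R] [Algebra (ZMod p) R] {u v : R ⊗[ZMod p] B}
    (h : ∀ i, crd u i = crd v i) : u = v := by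
  rw [← vec_repr (Module.finBasis (ZMod p) B) u, ← vec_repr (Module.finBasis (ZMod p) B) v]
  congr 1
  funext i
  exact h i

theorem crd_tmap {R S : Type} [CommRing R] [Algebra (ZMod p) R] [CommRing S] [Algebra (ZMod p) S]
    (f : R →+* S) (y : R ⊗[ZMod p] B) (i : Fin (Module.finrank (ZMod p) B)) :
    crd (tmap (p := p) f (RingHom.id B) y) i = f (crd y i) := repr_tmap _ f y i

theorem InvL.mul {Ω : Type} [Field Ω] [Algebra (ZMod p) Ω] {x : Ω} {Q : Type} [Group Q]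
    {ψ : Gx p x →* Q} {ρ : Q →* (B ≃+* B)} {w w' : (Ω ⊗[ZMod p] B)ˣ} (h : InvL ψ ρ w)
    (h' : InvL ψ ρ w') : InvL ψ ρ (w * w') := fun γ => by rw [map_mul, h γ, h' γ]

theorem InvL.one {Ω : Type} [Field Ω] [Algebra (ZMod p) Ω] {x : Ω} {Q : Type} [Group Q]
    {ψ : Gx p x →* Q} {ρ : Q →* (B ≃+* B)} : InvL ψ ρ (1 : (Ω ⊗[ZMod p] B)ˣ) :=
  fun γ => by rw [map_one]

theorem InvL.inv {Ω : Type} [Field Ω] [Algebra (ZMod p) Ω] {x : Ω} {Q : Type} [Group Q]
    {ψ : Gx p x →* Q} {ρ : Q →* (B ≃+* B)} {w : (Ω ⊗[ZMod p] B)ˣ} (h : InvL ψ ρ w) :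
    InvL ψ ρ w⁻¹ := fun γ => by rw [map_inv, h γ]

end LiftM

theorem tLiftAll (hCst : CstStmt) (hCong : CongStmt) (hInt : IntStmt) (hP : ParLStmt) :
    LiftAllStmt := by
  classical
  intro p _ B _ _ _ 𝒢 Q _ _ ρ m₀ ι Z hGen hZ hPar Ω _ _ _ _ x hst ψ hψ r V hV d hd hmd hdf g hg hgf
  obtain ⟨i1, -, i3, -, i5, -⟩ := hInt p B Ω x
  have cong := fun j => hCong p B Ω x hst (V j) (hV.ne_top j)
  have hAC : IsAlgClosed (Cst p Ω) := hCst p Ω x hst
  let C : Subgroup (Fin r → (Cst p Ω ⊗[ZMod p] B)ˣ) :=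
    { carrier := {u | ∃ w : (Ω ⊗[ZMod p] B)ˣ, w ∈ 𝒢.H Ω ∧ InvL ψ ρ w ∧
        IntX x (w : Ω ⊗[ZMod p] B) ∧ IntX x ((w⁻¹ : (Ω ⊗[ZMod p] B)ˣ) : Ω ⊗[ZMod p] B) ∧
        ∀ j, Cong (V j) (w : Ω ⊗[ZMod p] B) (u j : Cst p Ω ⊗[ZMod p] B)}
      mul_mem' := by
        rintro u u' ⟨w, h1, h2, h3, h4, h5⟩ ⟨w', h1', h2', h3', h4', h5'⟩
        refine ⟨w * w', mul_mem h1 h1', LiftM.InvL.mul h2 h2', ?_, ?_, fun j => ?_⟩
        · rw [Units.val_mul]
          exact i1 _ _ h3 h3'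
        · rw [mul_inv_rev, Units.val_mul]
          exact i1 _ _ h4' h4
        · rw [Units.val_mul, Pi.mul_apply, Units.val_mul]
          exact (cong j).1 _ _ _ _ (h5 j) (h5' j)
      one_mem' := by
        have h1 := i3 (1 : B)
        refine ⟨1, one_mem _, LiftM.InvL.one, h1, ?_, fun j => (cong j).2.1⟩
        rw [inv_one]
        exact h1
      inv_mem' := by
        rintro u ⟨w, h1, h2, h3, h4, h5⟩
        refine ⟨w⁻¹, inv_mem h1, LiftM.InvL.inv h2, h4, ?_, fun j => ?_⟩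
        · rw [inv_inv]
          exact h3
        · rw [Pi.inv_apply]
          exact (cong j).2.2.2.2.2.2.1 w (u j) (i5 (V j) (hV.mem j) _ h4) (h5 j) }
  have hmem : ∀ v : Fin r → (Cst p Ω ⊗[ZMod p] B)ˣ, v ∈ C ↔
      ∃ w : (Ω ⊗[ZMod p] B)ˣ, w ∈ 𝒢.H Ω ∧ InvL ψ ρ w ∧
        IntX x (w : Ω ⊗[ZMod p] B) ∧ IntX x ((w⁻¹ : (Ω ⊗[ZMod p] B)ˣ) : Ω ⊗[ZMod p] B) ∧
        ∀ j, Cong (V j) (w : Ω ⊗[ZMod p] B) (v j : Cst p Ω ⊗[ZMod p] B) := fun v => Iff.rfl
  clear_value C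
  have hC : g ∈ C := by
    apply Subgroup.pi_mem_of_mulSingle_mem
    intro j
    have h1 := hGen (Cst p Ω) (d j) (hd j) (hmd j) (g j) (hg j) (hgf j)
    have h2 : Subgroup.closure {w : (Cst p Ω ⊗[ZMod p] B)ˣ | fru (d j) (Cst p Ω) w = w ∧
        ((w : Cst p Ω ⊗[ZMod p] B) - 1) * ((w : Cst p Ω ⊗[ZMod p] B) - 1) = 0 ∧
        ∃ i, (w : Cst p Ω ⊗[ZMod p] B) - 1 ∈ (Z i).baseChange (Cst p Ω)} ≤
        C.comap (MonoidHom.mulSingle (fun _ : Fin r => (Cst p Ω ⊗[ZMod p] B)ˣ) j) := by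
      rw [Subgroup.closure_le]
      rintro u ⟨hu1, hu2, i, hu3⟩
      rw [Subgroup.coe_comap, Set.mem_preimage, SetLike.mem_coe, MonoidHom.mulSingle_apply, hmem]
      refine hP p B 𝒢 Q ρ (Z i) (hZ i) (hPar i) Ω x hst ψ hψ m₀ r V hV
        (Pi.mulSingle j u) ?_ ?_ ?_
      · intro k
        by_cases hk : k = j
        · subst hk
          rw [Pi.mulSingle_eq_same]
          exact hu3
        · rw [Pi.mulSingle_eq_of_ne hk, Units.val_one, sub_self]
          exact zero_mem _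
      · intro k
        by_cases hk : k = j
        · subst hk
          rw [Pi.mulSingle_eq_same]
          exact hu2
        · rw [Pi.mulSingle_eq_of_ne hk, Units.val_one, sub_self, mul_zero]
      · intro k γ hγ
        by_cases hk : k = j
        · subst hk
          rw [Pi.mulSingle_eq_same]
          apply Units.ext
          rw [coe_tu]
          apply LiftM.crd_ext
          intro l
          rw [LiftM.crd_tmap]
          have h3 := congrArg (fun v : (Cst p Ω ⊗[ZMod p] B)ˣ =>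
            crd (v : Cst p Ω ⊗[ZMod p] B) l) hu1
          simp only [fru, coe_tu, LiftM.crd_tmap, iterateFrobenius_def] at h3
          apply Subtype.ext
          exact hdf k γ hγ _ (crd (u : Cst p Ω ⊗[ZMod p] B) l).2 (congrArg Subtype.val h3)
        · rw [Pi.mulSingle_eq_of_ne hk, map_one]
    exact h2 h1
  exact (hmem g).1 hC

end MP7Z
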