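import Pool.Agent.Lib.MP_7f581e_Z.Lie.RQ
import Pool.Agent.Lib.MP_7f581e_Z.BR.ResT

set_option autoImplicit false

/-! Prescribed values at the places of a split family. -/

namespace MP7Z

open Polynomial

namespace PresM

section

variable {p : ℕ} [Fact p.Prime] {Ω : Type} [Field Ω] [Algebra (ZMod p) Ω]

/-- Residues are unique. -/
theorem res_unique {V : ValuationSubring Ω} {u c c' : Ω} (hc : c ∈ Cst p Ω) (hc' : c' ∈ Cst p Ω)
    (h : V.valuation (u - c) < 1) (h' : V.valuation (u - c') < 1) : c = c' := by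
  by_contra hne
  have h0 : c - c' ≠ 0 := sub_ne_zero.2 hne
  have h1 := ResAux.val_const (sub_mem hc hc') h0 V
  have h2 : c - c' = (u - c') - (u - c) := by ring
  have h3 : V.valuation (c - c') < 1 := by
    rw [h2]
    exact lt_of_le_of_lt (V.valuation.map_sub _ _) (max_lt h' h)
  exact absurd h1 h3.ne

/-- Chinese remainder theorem for homomorphisms to the constants. -/
theorem crt {S : Type} [CommRing S] {ι : Type} [Finite ι] (σ : ι → S →+* Cst p Ω)
    (hsep : ∀ i j, i ≠ j → ∃ t : S, σ i t = 0 ∧ σ j t ≠ 0) (s : ι → S) :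
    ∃ r : S, ∀ i, σ i r = σ i (s i) := by
  have h : Pairwise (Function.onFun IsCoprime (fun i => RingHom.ker (σ i))) := by
    intro i j hij
    obtain ⟨t, h1, h2⟩ := hsep i j hij
    have h3 : ((σ j t : Cst p Ω) : Ω) ≠ 0 := fun h => h2 (Subtype.ext h)
    obtain ⟨k, hk, hk'⟩ := ResAux.exists_pow_eq_one (σ j t).2 h3
    change IsCoprime _ _
    rw [Ideal.isCoprime_iff_exists]
    refine ⟨t ^ k, ?_, 1 - t ^ k, ?_, by ring⟩
    · rw [RingHom.mem_ker, map_pow, h1, zero_pow hk]
    · rw [RingHom.mem_ker, map_sub, map_one, map_pow, sub_eq_zero]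
      apply Subtype.ext
      exact hk'.symm
  obtain ⟨r, hr⟩ := Ideal.exists_forall_sub_mem_ideal h s
  refine ⟨r, fun i => ?_⟩
  have h1 := hr i
  rw [RingHom.mem_ker, map_sub, sub_eq_zero] at h1
  exact h1

end

/-- The interpolation polynomial is fixed by an endomorphism which fixes the data. -/
theorem interp_fixed {k Q : Type} [Field k] [Fintype Q] [DecidableEq Q] {β r : Q → k}
    (hβ : Function.Injective β) (τ : k →+* k) (h1 : ∀ q, τ (β q) = β q)
    (h2 : ∀ q, τ (r q) = r q) :
    (Lagrange.interpolate Finset.univ β r).map τ = Lagrange.interpolate Finset.univ β r := by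
  apply Lagrange.eq_interpolate_of_eval_eq _ hβ.injOn
  · exact lt_of_le_of_lt degree_map_le (Lagrange.degree_interpolate_lt _ hβ.injOn)
  · intro q _
    have h3 : (Lagrange.interpolate Finset.univ β r).eval (β q) = r q :=
      Lagrange.eval_interpolate_at_node _ hβ.injOn (Finset.mem_univ q)
    calc eval (β q) ((Lagrange.interpolate Finset.univ β r).map τ)
        = eval (τ (β q)) ((Lagrange.interpolate Finset.univ β r).map τ) := by rw [h1]
      _ = τ (eval (β q) (Lagrange.interpolate Finset.univ β r)) := by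
        rw [eval_map, eval₂_at_apply]
      _ = r q := by rw [h3, h2]

end PresM

theorem tPres (hRes : ResStmt) (hD : DecFStmt) : PresStmt := by
  classical
  intro p _ Ω _ _ x hst Q _ _ ψ hψ m₀ r V hV a ha haf
  cases nonempty_fintype Q
  obtain ⟨R, _, _, inc, act, hinj, hsurj, hint, hact, hπ⟩ := tRQ hRes p Ω x hst Q ψ hψ
  choose π hπ' using fun j => hπ (V j) (hV.ne_top j) (hV.mem j)
  have hu : ∀ j (z : R) (c : Cst p Ω), (V j).valuation (inc z - (c : Ω)) < 1 → π j z = c :=
    fun j z c h => Subtype.ext (PresM.res_unique (π j z).2 c.2 (hπ' j z) h)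
  obtain ⟨α₀, hαi, hαf, hαd⟩ := hV.prim
  obtain ⟨α, rfl⟩ := hsurj α₀ hαi hαf
  let β : Fin r → Q → Cst p Ω := fun j q => π j (act q α)
  have hβ : ∀ j, Function.Injective (β j) := by
    intro j q q' h
    by_contra hne
    obtain ⟨γ, hγ⟩ := hψ q
    obtain ⟨γ', hγ'⟩ := hψ q'
    have h1 := hαd γ γ' (by rw [hγ, hγ']; exact hne) j
    rw [hact, hact, hγ, hγ'] at h1
    have h2 : (V j).valuation (inc (act q α) - inc (act q' α)) < 1 := by
      have h4 : ((β j q : Cst p Ω) : Ω) = (β j q' : Cst p Ω) := congrArg _ h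
      have h3 : inc (act q α) - inc (act q' α) =
          (inc (act q α) - (β j q : Ω)) - (inc (act q' α) - (β j q' : Ω)) := by
        rw [h4]; ring
      rw [h3]
      exact lt_of_le_of_lt ((V j).valuation.map_sub _ _) (max_lt (hπ' j _) (hπ' j _))
    exact h2.ne h1
  have hβf : ∀ j, ∀ δ ∈ Gx p x ⊓ Dec p (V j), ∀ q, cstAut δ (β j q) = β j q := by
    intro j δ hδ q
    have h1 : ψ ⟨δ, hδ.1⟩ = 1 := hV.dec j ⟨δ, hδ.1⟩ hδ.2
    have h2 : δ (inc (act q α)) = inc (act q α) := by
      have h3 := hact ⟨δ, hδ.1⟩ (act q α)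
      rw [h1, map_one] at h3
      exact h3
    have h4 := ResAux.dec_val hδ.2 (hπ' j (act q α))
    rw [map_sub, h2] at h4
    exact (hu j _ (cstAut δ (β j q)) h4).symm
  -- the interpolation polynomials
  let ρ : Fin r → Q → Cst p Ω := fun j q => if q = 1 then ⟨a j, ha j⟩ else 0
  let P : Fin r → (Cst p Ω)[X] := fun j => Lagrange.interpolate Finset.univ (β j) (ρ j)
  have hPe : ∀ j q, (P j).eval (β j q) = ρ j q := fun j q =>
    Lagrange.eval_interpolate_at_node _ (hβ j).injOn (Finset.mem_univ q)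
  have hPf : ∀ j, ∀ δ ∈ Gx p x ⊓ Dec p (V j), ∀ k,
      δ ((P j).coeff k : Ω) = ((P j).coeff k : Cst p Ω) := by
    intro j δ hδ k
    have h1 : (P j).map (cstAut δ) = P j := by
      refine PresM.interp_fixed (hβ j) (cstAut δ) (hβf j δ hδ) fun q => ?_
      by_cases hq : q = 1
      · simp only [ρ, if_pos hq]
        exact Subtype.ext (haf j δ hδ)
      · simp only [ρ, if_neg hq, map_zero]
    have h2 := congrArg (fun P : (Cst p Ω)[X] => P.coeff k) h1
    simp only [coeff_map] at h2
    exact congrArg Subtype.val h2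
  have hh : ∀ j k, ∃ s ∈ Algebra.adjoin (ZMod p) {x},
      (V j).valuation (s - ((P j).coeff k : Cst p Ω)) < 1 := by
    intro j k
    obtain ⟨d, -, -, -, h4, -⟩ := hD p Ω x hst (V j) (hV.ne_top j) (hV.mem j)
    exact h4 _ ((P j).coeff k).2 fun δ hδ => hPf j δ hδ k
  -- the subring of the polynomials in `x`
  let S : Subring R := (Algebra.adjoin (ZMod p) {x}).toSubring.comap inc
  have hS : ∀ s ∈ Algebra.adjoin (ZMod p) {x}, ∃ t : S, inc (t : R) = s := by
    intro s hs
    obtain ⟨t, ht⟩ := hsurj s (isIntegral_algebraMap (R := Algebra.adjoin (ZMod p) {x})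
      (x := (⟨s, hs⟩ : Algebra.adjoin (ZMod p) {x}))) (fun γ _ => RQ_fix γ s hs)
    refine ⟨⟨t, ?_⟩, ht⟩
    have h1 : inc t ∈ Algebra.adjoin (ZMod p) {x} := ht ▸ hs
    exact h1
  have hSact : ∀ (s : S) (q : Q), act q (s : R) = s := by
    intro s q
    obtain ⟨γ, hγ⟩ := hψ q
    apply hinj
    rw [← hγ, ← hact]
    exact RQ_fix γ _ s.2
  choose s hs hsv using hh
  choose t ht using fun j k => hS (s j k) (hs j k)
  let σ : Fin r → S →+* Cst p Ω := fun j => (π j).comp S.subtype
  have hσt : ∀ j k, σ j (t j k) = (P j).coeff k := by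
    intro j k
    apply hu
    change (V j).valuation (inc ((t j k : S) : R) - _) < 1
    rw [ht]
    exact hsv j k
  have hsep : ∀ i j, i ≠ j → ∃ t : S, σ i t = 0 ∧ σ j t ≠ 0 := by
    intro i j hij
    obtain ⟨u, hu', h1, h2⟩ := hV.sep i j hij
    obtain ⟨u', rfl⟩ := hS u hu'
    refine ⟨u', ?_, ?_⟩
    · apply hu
      rw [ZeroMemClass.coe_zero, sub_zero]
      exact h1
    · intro h0
      have h3 := hπ' j (u' : R)
      have h4 : π j (u' : R) = 0 := h0
      rw [h4, ZeroMemClass.coe_zero, sub_zero] at h3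
      exact h3.ne h2
  choose H hH using fun k : ℕ => PresM.crt σ hsep (fun j => t j k)
  let N : ℕ := (Finset.univ.sup fun j => (P j).natDegree) + 1
  have hN : ∀ j, (P j).natDegree < N := fun j =>
    Nat.lt_succ_of_le (Finset.le_sup (f := fun j => (P j).natDegree) (Finset.mem_univ j))
  let z : R := ∑ k ∈ Finset.range N, (H k : R) * α ^ k
  have hz : ∀ j q, π j (act q z) = ρ j q := by
    intro j q
    rw [← hPe, eval_eq_sum_range' (hN j)]
    simp only [z, map_sum, map_mul, map_pow, hSact]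
    refine Finset.sum_congr rfl fun k _ => ?_
    have h1 : π j (H k : R) = (P j).coeff k := by
      rw [← hσt j k, ← hH k j]
      rfl
    rw [h1]
  refine ⟨inc z, hint z, fun γ hγ => ?_, fun j => ?_, fun γ hγ j => ?_⟩
  · rw [hact, hγ, map_one]
    rfl
  · have h1 := hπ' j z
    have h2 := hz j 1
    rw [map_one] at h2
    have h3 : π j z = ⟨a j, ha j⟩ := by
      have h4 : ρ j 1 = ⟨a j, ha j⟩ := if_pos rfl
      rw [← h4, ← h2]
      rfl
    rw [h3] at h1
    exact h1
  · have h1 := hπ' j (act (ψ γ) z)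
    have h2 : π j (act (ψ γ) z) = 0 := by
      rw [hz j (ψ γ)]
      exact if_neg hγ
    rw [h2, ZeroMemClass.coe_zero, sub_zero] at h1
    rw [hact]
    exact h1

end MP7Z
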