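import Pool.Agent.Lib.MP_7f581e_Z.Lie.Spec

set_option autoImplicit false

/-! The ring of integral elements of the fixed field of `ker ψ`. -/

namespace MP7Z

open TensorProduct MP7fS

variable {p : ℕ} [Fact p.Prime] {Ω : Type} [Field Ω] [Algebra (ZMod p) Ω]

theorem RQ_fix {x : Ω} (γ : Gx p x) (a : Ω) (ha : a ∈ Algebra.adjoin (ZMod p) {x}) :
    (γ : Ω ≃ₐ[ZMod p] Ω) a = a := by
  induction ha using Algebra.adjoin_induction with
  | mem y hy =>
    rw [Set.mem_singleton_iff] at hy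
    rw [hy]
    exact mem_Gx.1 γ.2
  | algebraMap r => exact AlgEquiv.commutes _ r
  | add a b _ _ ha hb => rw [map_add, ha, hb]
  | mul a b _ _ ha hb => rw [map_mul, ha, hb]

theorem RQ_int {x : Ω} (γ : Gx p x) {z : Ω} (hz : IsIntegral (Algebra.adjoin (ZMod p) {x}) z) :
    IsIntegral (Algebra.adjoin (ZMod p) {x}) ((γ : Ω ≃ₐ[ZMod p] Ω) z) := by
  obtain ⟨P, hP, hPz⟩ := hz
  refine ⟨P, hP, ?_⟩
  have h1 := congrArg (γ : Ω ≃ₐ[ZMod p] Ω) hPz
  rw [map_zero] at h1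
  have h2 : (γ : Ω ≃ₐ[ZMod p] Ω)
      (Polynomial.eval₂ (algebraMap (Algebra.adjoin (ZMod p) {x}) Ω) z P) =
      Polynomial.eval₂ (((γ : Ω ≃ₐ[ZMod p] Ω) : Ω →+* Ω).comp
        (algebraMap (Algebra.adjoin (ZMod p) {x}) Ω)) ((γ : Ω ≃ₐ[ZMod p] Ω) z) P :=
    Polynomial.hom_eval₂ P _ ((γ : Ω ≃ₐ[ZMod p] Ω) : Ω →+* Ω) z
  rw [h2] at h1
  have h3 : ((γ : Ω ≃ₐ[ZMod p] Ω) : Ω →+* Ω).comp
      (algebraMap (Algebra.adjoin (ZMod p) {x}) Ω) =
      algebraMap (Algebra.adjoin (ZMod p) {x}) Ω := by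
    ext a
    exact RQ_fix γ a a.2
  rw [h3] at h1
  exact h1

/-- Integral elements are in every valuation ring which contains `x`. -/
theorem RQ_mem {x : Ω} (V : ValuationSubring Ω) (hx : x ∈ V) {z : Ω}
    (hz : IsIntegral (Algebra.adjoin (ZMod p) {x}) z) : z ∈ V := by
  have hle : ∀ a ∈ Algebra.adjoin (ZMod p) {x}, a ∈ V := by
    intro a ha
    induction ha using Algebra.adjoin_induction with
    | mem y hy =>
      rw [Set.mem_singleton_iff] at hy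
      rw [hy]
      exact hx
    | algebraMap r =>
      have h1 : (algebraMap (ZMod p) Ω r) = ((r.val : ℕ) : Ω) := by
        conv_lhs => rw [← ZMod.natCast_zmod_val r]
        rw [map_natCast]
      rw [h1]
      exact natCast_mem V _
    | add a b _ _ ha hb => exact add_mem ha hb
    | mul a b _ _ ha hb => exact mul_mem ha hb
  let f : Algebra.adjoin (ZMod p) {x} →+* V :=
    { toFun := fun a => ⟨a, hle a a.2⟩
      map_one' := rfl
      map_zero' := rfl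
      map_add' := fun _ _ => rfl
      map_mul' := fun _ _ => rfl }
  obtain ⟨P, hP, hPz⟩ := hz
  have h1 : IsIntegral V z := by
    refine ⟨P.map f, hP.map f, ?_⟩
    rw [Polynomial.eval₂_map]
    exact hPz
  obtain ⟨y, hy⟩ := (IsIntegrallyClosed.isIntegral_iff (R := V) (K := Ω)).1 h1
  rw [← hy]
  exact y.2

/-- The ring. -/
noncomputable def RQ_S (p : ℕ) [Fact p.Prime] {Ω : Type} [Field Ω] [Algebra (ZMod p) Ω] (x : Ω)
    {Q : Type} [Group Q] (ψ : Gx p x →* Q) : Subalgebra (ZMod p) Ω where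
  carrier := {z | IsIntegral (Algebra.adjoin (ZMod p) {x}) z ∧
    ∀ γ : Gx p x, ψ γ = 1 → (γ : Ω ≃ₐ[ZMod p] Ω) z = z}
  mul_mem' := by
    rintro a b ⟨ha, ha'⟩ ⟨hb, hb'⟩
    exact ⟨ha.mul hb, fun γ h => by rw [map_mul, ha' γ h, hb' γ h]⟩
  add_mem' := by
    rintro a b ⟨ha, ha'⟩ ⟨hb, hb'⟩
    exact ⟨ha.add hb, fun γ h => by rw [map_add, ha' γ h, hb' γ h]⟩
  algebraMap_mem' := fun r => ⟨by
    have h1 : IsIntegral (Algebra.adjoin (ZMod p) {x}) (algebraMap (Algebra.adjoin (ZMod p) {x}) Ω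
      (algebraMap (ZMod p) _ r)) := isIntegral_algebraMap
    exact h1, fun γ _ => AlgEquiv.commutes _ r⟩

theorem RQ_mem_S {x : Ω} {Q : Type} [Group Q] {ψ : Gx p x →* Q} {z : Ω} : z ∈ RQ_S p x ψ ↔
    IsIntegral (Algebra.adjoin (ZMod p) {x}) z ∧
    ∀ γ : Gx p x, ψ γ = 1 → (γ : Ω ≃ₐ[ZMod p] Ω) z = z := Iff.rfl

theorem RQ_map {x : Ω} {Q : Type} [Group Q] {ψ : Gx p x →* Q} (γ : Gx p x) {z : Ω}
    (hz : z ∈ RQ_S p x ψ) : (γ : Ω ≃ₐ[ZMod p] Ω) z ∈ RQ_S p x ψ := by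
  rw [RQ_mem_S] at hz ⊢
  refine ⟨RQ_int γ hz.1, fun δ hδ => ?_⟩
  have h1 := hz.2 (γ⁻¹ * δ * γ) (by
    rw [map_mul, map_mul, hδ, mul_one, map_inv, inv_mul_cancel])
  have h2 : ((γ⁻¹ * δ * γ : Gx p x) : Ω ≃ₐ[ZMod p] Ω) z =
      (γ : Ω ≃ₐ[ZMod p] Ω).symm ((δ : Ω ≃ₐ[ZMod p] Ω) ((γ : Ω ≃ₐ[ZMod p] Ω) z)) := rfl
  rw [h2, AlgEquiv.symm_apply_eq] at h1
  exact h1

theorem RQ_eq {x : Ω} {Q : Type} [Group Q] {ψ : Gx p x →* Q} {γ γ' : Gx p x} (h : ψ γ = ψ γ')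
    {z : Ω} (hz : z ∈ RQ_S p x ψ) : (γ : Ω ≃ₐ[ZMod p] Ω) z = (γ' : Ω ≃ₐ[ZMod p] Ω) z := by
  rw [RQ_mem_S] at hz
  have h1 := hz.2 (γ'⁻¹ * γ) (by rw [map_mul, map_inv, h, inv_mul_cancel])
  have h2 : ((γ'⁻¹ * γ : Gx p x) : Ω ≃ₐ[ZMod p] Ω) z =
      (γ' : Ω ≃ₐ[ZMod p] Ω).symm ((γ : Ω ≃ₐ[ZMod p] Ω) z) := rfl
  rw [h2, AlgEquiv.symm_apply_eq] at h1
  exact h1

theorem tRQ (hRes : ResStmt) : RQStmt := by
  intro p _ Ω _ _ x hst Q _ ψ hψ
  obtain ⟨s, hs⟩ := hψ.hasRightInverse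
  let a : Q →* (RQ_S p x ψ ≃+* RQ_S p x ψ) :=
    { toFun := fun q =>
        { toFun := fun z => ⟨(s q : Ω ≃ₐ[ZMod p] Ω) z, RQ_map (s q) z.2⟩
          invFun := fun z => ⟨((s q)⁻¹ : Gx p x).1 z, RQ_map (s q)⁻¹ z.2⟩
          left_inv := fun z => Subtype.ext (AlgEquiv.symm_apply_apply _ _)
          right_inv := fun z => Subtype.ext (AlgEquiv.apply_symm_apply _ _)
          map_mul' := fun z w => Subtype.ext (map_mul (s q : Ω ≃ₐ[ZMod p] Ω) (z : Ω) w)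
          map_add' := fun z w => Subtype.ext (map_add (s q : Ω ≃ₐ[ZMod p] Ω) (z : Ω) w) }
      map_one' := by
        ext z
        show (s 1 : Ω ≃ₐ[ZMod p] Ω) (z : Ω) = z
        exact RQ_eq (γ' := 1) (by rw [hs, map_one]) z.2
      map_mul' := by
        intro q q'
        ext z
        show (s (q * q') : Ω ≃ₐ[ZMod p] Ω) (z : Ω) =
          (s q : Ω ≃ₐ[ZMod p] Ω) ((s q' : Ω ≃ₐ[ZMod p] Ω) (z : Ω))
        exact RQ_eq (γ' := s q * s q') (by rw [hs, map_mul, hs, hs]) z.2 }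
  refine ⟨RQ_S p x ψ, inferInstance, inferInstance, (RQ_S p x ψ).val.toRingHom, a,
    Subtype.val_injective, ?_, ?_, ?_, ?_⟩
  · intro z hz hz'
    exact ⟨⟨z, hz, hz'⟩, rfl⟩
  · intro r
    exact r.2.1
  · intro γ r
    show (γ : Ω ≃ₐ[ZMod p] Ω) (r : Ω) = (s (ψ γ) : Ω ≃ₐ[ZMod p] Ω) (r : Ω)
    exact RQ_eq (by rw [hs]) r.2
  · intro V hV hxV
    obtain ⟨hC, hC1, hres, -⟩ := hRes p Ω x hst V hV
    have hmem : ∀ r : RQ_S p x ψ, (r : Ω) ∈ V := fun r => RQ_mem V hxV r.2.1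
    choose c hcC hcv hcu using fun r : RQ_S p x ψ => hres r (hmem r)
    have hadd : ∀ u v : Ω, V.valuation u < 1 → V.valuation v < 1 → V.valuation (u + v) < 1 :=
      fun u v hu hv => lt_of_le_of_lt (V.valuation.map_add u v) (max_lt hu hv)
    have hmul : ∀ u v : Ω, u ∈ V → V.valuation v < 1 → V.valuation (u * v) < 1 := by
      intro u v hu hv
      rw [map_mul]
      exact mul_lt_one_of_nonneg_of_lt_one_right ((V.valuation_le_one_iff u).2 hu) zero_le' hv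
    refine ⟨{ toFun := fun r => ⟨c r, hcC r⟩
              map_one' := ?_
              map_mul' := ?_
              map_zero' := ?_
              map_add' := ?_ }, fun r => hcv r⟩
    · apply Subtype.ext
      refine (hcu 1 1 (one_mem _) ?_).symm
      show V.valuation ((1 : Ω) - 1) < 1
      rw [sub_self, map_zero]
      exact zero_lt_one
    · intro r r'
      apply Subtype.ext
      refine (hcu (r * r') (c r * c r') (mul_mem (hcC r) (hcC r')) ?_).symm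
      have h1 : ((r * r' : RQ_S p x ψ) : Ω) - c r * c r' =
          (r : Ω) * ((r' : Ω) - c r') + c r' * ((r : Ω) - c r) := by
        show (r : Ω) * (r' : Ω) - c r * c r' = _
        ring
      rw [h1]
      exact hadd _ _ (hmul _ _ (hmem r) (hcv r')) (hmul _ _ (hC _ (hcC r')) (hcv r))
    · apply Subtype.ext
      refine (hcu 0 0 (zero_mem _) ?_).symm
      show V.valuation ((0 : Ω) - 0) < 1
      rw [sub_self, map_zero]
      exact zero_lt_one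
    · intro r r'
      apply Subtype.ext
      refine (hcu (r + r') (c r + c r') (add_mem (hcC r) (hcC r')) ?_).symm
      have h1 : ((r + r' : RQ_S p x ψ) : Ω) - (c r + c r') =
          ((r : Ω) - c r) + ((r' : Ω) - c r') := by
        show (r : Ω) + (r' : Ω) - (c r + c r') = _
        ring
      rw [h1]
      exact hadd _ _ (hcv r) (hcv r')

end MP7Z
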