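import Pool.Agent.Lib.MP_7f581e_Z.Lie.Spec

/-! # Tor: the homomorphism defined by a solution of `F y = g y` -/

set_option autoImplicit false

namespace MP7Z

open TensorProduct MP7fS

namespace TorAux

section gen

variable {p : ℕ} [Fact p.Prime] {B : Type} [Ring B] [Finite B] [Algebra (ZMod p) B]
  {R S T : Type} [CommRing R] [CommRing S] [CommRing T] [Algebra (ZMod p) R]
  [Algebra (ZMod p) S] [Algebra (ZMod p) T]

theorem tu_tu (f : S →+* T) (g : B →+* B) (f' : R →+* S) (g' : B →+* B)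
    (x : (R ⊗[ZMod p] B)ˣ) : tu f g (tu f' g' x) = tu (f.comp f') (g.comp g') x :=
  Units.ext (tmap_comp f g f' g' _)

theorem tu_cstu (f : R →+* S) (g : B ≃+* B) (b : Bˣ) :
    tu f (g : B →+* B) (cstu (p := p) R b) = cstu S (Units.mapEquiv (g : B ≃* B) b) := by
  apply Units.ext
  rw [coe_tu, coe_cstu, coe_cstu, tmap_tmul, map_one]
  rfl

theorem tu_cstu_id (f : R →+* S) (b : Bˣ) :
    tu f (RingHom.id B) (cstu (p := p) R b) = cstu S b := by
  apply Units.ext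
  rw [coe_tu, coe_cstu, coe_cstu, tmap_tmul, map_one]
  rfl

theorem cstu_inj [Nontrivial R] {b b' : Bˣ} (h : cstu (p := p) R b = cstu R b') : b = b' := by
  apply Units.ext
  apply one_tmul_inj (p := p) (R := R)
  have h1 := congrArg Units.val h
  rwa [coe_cstu, coe_cstu] at h1

theorem fru_tu {R S : Type} [Field R] [Field S] [CharP R p] [CharP S p] [Algebra (ZMod p) R]
    [Algebra (ZMod p) S] (d : ℕ) (f : R →+* S) (g : B →+* B) (x : (R ⊗[ZMod p] B)ˣ) :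
    fru d S (tu f g x) = tu f g (fru d R x) := by
  unfold fru
  rw [tu_tu, tu_tu]
  have h1 : (iterateFrobenius S p d).comp f = f.comp (iterateFrobenius R p d) := by
    ext r
    simp [iterateFrobenius_def]
  rw [h1, RingHom.id_comp, RingHom.comp_id]

/-- units fixed by the Frobenius are constant -/
theorem exists_cstu {R : Type} [Field R] [CharP R p] [Algebra (ZMod p) R]
    (x : (R ⊗[ZMod p] B)ˣ) (h : fru 1 R x = x) : ∃ b : Bˣ, x = cstu R b := by
  have h1 : frob R (x : R ⊗[ZMod p] B) = x := by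
    have h2 := congrArg Units.val h
    rw [fru, coe_tu, iterateFrobenius_one] at h2
    exact h2
  obtain ⟨b, hb⟩ := exists_unit_of_frob_eq x h1
  exact ⟨b, Units.ext hb⟩

end gen

end TorAux

open TorAux in
theorem tTor : TorStmt := by
  intro p _ B _ _ _ 𝒢 Q _ ρ hρ Ω _ _ _ x ψ g y hψ hg hy hfy
  classical
  let T : Gx p x → (Ω ⊗[ZMod p] B)ˣ →* (Ω ⊗[ZMod p] B)ˣ := fun γ =>
    tu ((γ : Ω ≃ₐ[ZMod p] Ω) : Ω →+* Ω) (ρ (ψ γ) : B →+* B)
  have hT : ∀ γ z, T γ z = tu ((γ : Ω ≃ₐ[ZMod p] Ω) : Ω →+* Ω) (ρ (ψ γ) : B →+* B) z :=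
    fun _ _ => rfl
  have hTmul : ∀ γ δ z, T (γ * δ) z = T γ (T δ z) := fun γ δ z => by
    rw [hT, hT, hT, tu_tu, map_mul, map_mul]
    rfl
  have hTc : ∀ γ (b : Bˣ), T γ (cstu Ω b) = cstu Ω (uact ρ (ψ γ) b) := fun γ b => tu_cstu _ _ b
  have hTH : ∀ γ, ∀ z ∈ 𝒢.H Ω, T γ z ∈ 𝒢.H Ω := fun γ z hz => by
    have h1 := hρ Ω (ψ γ) _ (𝒢.map Ω Ω ((γ : Ω ≃ₐ[ZMod p] Ω) : Ω →+* Ω) z hz)
    rw [tu_tu] at h1
    exact h1
  have hc : ∀ γ, ∃ b : Bˣ, T γ y = y * cstu Ω b := fun γ => by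
    obtain ⟨b, hb⟩ := exists_cstu (p := p) (y⁻¹ * T γ y) (by
      rw [map_mul, map_inv, hfy, hT, fru_tu, hfy, map_mul, ← hT γ g]
      have h1 : T γ g = g := hg γ
      rw [h1]
      group)
    exact ⟨b, by rw [← hb, mul_inv_cancel_left]⟩
  choose b hb using hc
  have hbpts : ∀ γ, b γ ∈ 𝒢.pts := fun γ => by
    change cstu (ZMod p) (b γ) ∈ 𝒢.H (ZMod p)
    apply 𝒢.inj (ZMod p) Ω (algebraMap (ZMod p) Ω) (algebraMap (ZMod p) Ω).injective
    rw [tu_cstu_id]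
    have h1 : cstu Ω (b γ) = y⁻¹ * T γ y := by rw [hb, inv_mul_cancel_left]
    rw [h1]
    exact mul_mem (inv_mem hy) (hTH γ y hy)
  have hbmul : ∀ γ δ, b (γ * δ) = b γ * uact ρ (ψ γ) (b δ) := fun γ δ => by
    apply cstu_inj (p := p) (R := Ω)
    have h1 := hb (γ * δ)
    rw [hTmul, hb δ, map_mul, hb γ, hTc, mul_assoc] at h1
    rw [map_mul]
    exact (mul_left_cancel h1).symm
  let Ψ : Gx p x →* 𝒢.pts ⋊[𝒢.act ρ hρ] Q := MonoidHom.mk' (fun γ => ⟨⟨b γ, hbpts γ⟩, ψ γ⟩)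
    (fun γ δ => by
      refine SemidirectProduct.ext ?_ ?_
      · rw [SemidirectProduct.mul_left]
        exact Subtype.ext (hbmul γ δ)
      · rw [SemidirectProduct.mul_right]
        exact map_mul ψ γ δ)
  refine ⟨Ψ, ?_, fun γ => rfl, fun γ => hb γ⟩
  obtain ⟨S, hS⟩ := hψ
  refine ⟨S ∪ Finset.univ.image (fun i => crd (y : Ω ⊗[ZMod p] B) i), fun γ hγ => ?_⟩
  have h1 : ψ γ = 1 := hS γ fun s hs => hγ s (Finset.mem_union_left _ hs)
  have h2 : T γ y = y := by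
    apply Units.ext
    rw [hT, coe_tu, h1, map_one]
    have h3 : ((1 : B ≃+* B) : B →+* B) = RingHom.id B := rfl
    rw [h3]
    apply (eb (Module.finBasis (ZMod p) B) Ω).repr.injective
    ext i
    rw [repr_tmap]
    exact hγ _ (Finset.mem_union_right _ (Finset.mem_image_of_mem _ (Finset.mem_univ i)))
  have h3 : b γ = 1 := by
    apply cstu_inj (p := p) (R := Ω)
    have h4 := hb γ
    rw [h2, left_eq_mul] at h4
    rw [h4, map_one]
  refine SemidirectProduct.ext ?_ ?_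
  · exact Subtype.ext h3
  · exact h1

end MP7Z
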