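import Pool.Agent.Lib.MP_7f581e_Z.Lie.Tor

/-! # TorO: surjectivity of the Lang torsor homomorphism on the geometric part -/

set_option autoImplicit false

namespace MP7Z

open TensorProduct MP7fS

namespace TorOAux

/-- Jordan: a subgroup of a finite group which meets all conjugacy classes is the whole group. -/
theorem jordan {G : Type} [Group G] [Finite G] (H : Subgroup G)
    (h : ∀ g : G, ∃ k : G, k⁻¹ * g * k ∈ H) : H = ⊤ := by
  classical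
  haveI : Fintype G := Fintype.ofFinite G
  have hb := MulAction.sum_card_fixedBy_eq_card_orbits_mul_card_group G (G ⧸ H)
  have h1 : Fintype.card (Quotient (MulAction.orbitRel G (G ⧸ H))) = 1 := by
    obtain ⟨u⟩ := (MulAction.pretransitive_iff_unique_quotient_of_nonempty G (G ⧸ H)).1
      inferInstance
    exact Fintype.card_eq_one_iff.2 ⟨u.default, fun y => u.uniq y⟩
  rw [h1, one_mul] at hb
  have h2 : ∀ g : G, 1 ≤ Fintype.card (MulAction.fixedBy (G ⧸ H) g) := fun g => by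
    obtain ⟨k, hk⟩ := h g
    refine Fintype.card_pos_iff.2 ⟨⟨(k : G ⧸ H), ?_⟩⟩
    change ((g * k : G) : G ⧸ H) = (k : G ⧸ H)
    rw [eq_comm, QuotientGroup.eq, ← mul_assoc]
    exact hk
  have h3 : Fintype.card (MulAction.fixedBy (G ⧸ H) (1 : G)) = 1 := by
    by_contra hne
    have h4 : 1 < Fintype.card (MulAction.fixedBy (G ⧸ H) (1 : G)) :=
      lt_of_le_of_ne (h2 1) (Ne.symm hne)
    have h5 : ∑ _g : G, 1 < ∑ g : G, Fintype.card (MulAction.fixedBy (G ⧸ H) g) :=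
      Finset.sum_lt_sum (fun g _ => h2 g) ⟨1, Finset.mem_univ _, h4⟩
    rw [hb, Finset.sum_const, Finset.card_univ, smul_eq_mul, mul_one] at h5
    exact lt_irrefl _ h5
  rw [Fintype.card_eq_one_iff] at h3
  obtain ⟨x, hx⟩ := h3
  rw [eq_top_iff]
  intro g _
  have e1 := hx ⟨((1 : G) : G ⧸ H), by
    change ((1 * 1 : G) : G ⧸ H) = _
    rw [mul_one]⟩
  have e2 := hx ⟨(g : G ⧸ H), by
    change ((1 * g : G) : G ⧸ H) = _
    rw [one_mul]⟩
  have e3 : ((1 : G) : G ⧸ H) = (g : G ⧸ H) := congrArg Subtype.val (e1.trans e2.symm)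
  rw [QuotientGroup.eq, inv_one, one_mul] at e3
  exact e3

variable {p : ℕ} [Fact p.Prime] {Ω : Type} [Field Ω] [Algebra (ZMod p) Ω]

theorem exists_pow {c : Ω} (hc : c ∈ Cst p Ω) : ∃ n : ℕ, 0 < n ∧ c ^ (p ^ n) = c := by
  have h1 : IsIntegral (ZMod p) c := (mem_algebraicClosure_iff.1 hc).isIntegral
  haveI : FiniteDimensional (ZMod p) (IntermediateField.adjoin (ZMod p) {c}) :=
    IntermediateField.adjoin.finiteDimensional h1
  haveI : Finite (IntermediateField.adjoin (ZMod p) {c}) := Module.finite_of_finite (ZMod p)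
  haveI : Fintype (IntermediateField.adjoin (ZMod p) {c}) := Fintype.ofFinite _
  refine ⟨Module.finrank (ZMod p) (IntermediateField.adjoin (ZMod p) {c}), Module.finrank_pos, ?_⟩
  have h2 := FiniteField.pow_card
    (⟨c, IntermediateField.mem_adjoin_simple_self _ c⟩ : IntermediateField.adjoin (ZMod p) {c})
  rw [← Nat.card_eq_fintype_card, Module.natCard_eq_pow_finrank (K := ZMod p), Nat.card_zmod] at h2
  exact congrArg Subtype.val h2

theorem comm_cst [IsSepClosed Ω] [CharP Ω p] (γ δ : Ω ≃ₐ[ZMod p] Ω) {c : Ω} (hc : c ∈ Cst p Ω) :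
    γ (δ c) = δ (γ c) := by
  by_cases hc0 : c = 0
  · subst hc0
    simp only [map_zero]
  obtain ⟨n, hn, hcn⟩ := exists_pow hc
  have hp : 1 < p := (Fact.out : p.Prime).one_lt
  have hpn : 1 < p ^ n := Nat.one_lt_pow hn.ne' hp
  set N := p ^ n - 1 with hN
  have hN0 : ((N : ℕ) : Ω) ≠ 0 := by
    rw [hN, Nat.cast_sub hpn.le, Nat.cast_pow, CharP.cast_eq_zero, zero_pow hn.ne', Nat.cast_one]
    simp
  haveI : NeZero ((N : ℕ) : Ω) := ⟨hN0⟩
  haveI : NeZero N := ⟨by omega⟩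
  obtain ⟨ζ, hζ⟩ := HasEnoughRootsOfUnity.exists_primitiveRoot Ω N
  have hc1 : c ^ N = 1 := by
    have h1 : c ^ N * c = 1 * c := by
      rw [← pow_succ, one_mul, hN, Nat.sub_add_cancel hpn.le, hcn]
    exact mul_right_cancel₀ hc0 h1
  obtain ⟨a, -, ha⟩ := hζ.eq_pow_of_pow_eq_one hc1
  obtain ⟨i, -, hi⟩ := hζ.eq_pow_of_pow_eq_one (ξ := γ ζ)
    (by rw [← map_pow, hζ.pow_eq_one, map_one])
  obtain ⟨j, -, hj⟩ := hζ.eq_pow_of_pow_eq_one (ξ := δ ζ)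
    (by rw [← map_pow, hζ.pow_eq_one, map_one])
  rw [← ha, map_pow, map_pow, map_pow, map_pow, ← hi, ← hj, map_pow, map_pow, ← hi, ← hj]
  ring

end TorOAux

open TorAux TorOAux in
theorem tTorO (h1 : CongStmt) (h2 : CongUStmt) (h3 : IntStmt) (h4 : CloStmt) : TorOStmt := by
  intro p _ B _ _ _ 𝒢 Q _ _ ρ hρ Ω _ _ _ _ x ψ g y Ψ hst hreg hperf hy hyi hyi' hfy hΨr hΨ hcl
  haveI : IsSepClosed Ω := hst.sepClosed
  -- left components, for elements of `ker ψ`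
  have hleft : ∀ γ δ : Gx p x, ψ γ = 1 → (Ψ (γ * δ)).left = (Ψ γ).left * (Ψ δ).left := by
    intro γ δ hγ
    rw [map_mul, SemidirectProduct.mul_left, hΨr, hγ, map_one, MulAut.one_apply]
  let κ : ψ.ker →* 𝒢.pts := MonoidHom.mk' (fun γ => (Ψ γ).left) (fun γ δ => hleft γ δ γ.2)
  have hκ : ∀ γ, κ γ = (Ψ γ).left := fun _ => rfl
  -- every conjugacy class
  have hconj : ∀ h : 𝒢.pts, ∃ k : 𝒢.pts, k⁻¹ * h * k ∈ κ.range := by
    intro h
    obtain ⟨V, hV, hxV, γ, hγV, hψγ, d, hd, hγd, z, hz, hfz, hgz⟩ := hcl h h.2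
    obtain ⟨c1, c2, c3, c4, c5, c6, c7, -⟩ := h1 p B Ω x hst V hV
    obtain ⟨-, -, -, -, i5, -⟩ := h3 p B Ω x
    obtain ⟨u, hu⟩ := h2 p B Ω x hst V hV y (i5 V hxV _ hyi) (i5 V hxV _ hyi')
    have huH : u ∈ 𝒢.H (Cst p Ω) := h4 p B 𝒢 Ω x hst V hV y u hy (i5 V hxV _ hyi)
      (i5 V hxV _ hyi') hu
    have e1 : fru 1 (Cst p Ω) u = fru 1 (Cst p Ω) z * z⁻¹ * u := by
      apply Units.ext
      refine c4 _ _ _ (c6 1 y u hu) ?_
      rw [hfy]
      exact c1 _ _ _ _ hgz hu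
    obtain ⟨b, hb⟩ := exists_cstu (p := p) (z⁻¹ * u) (by
      rw [map_mul, map_inv, e1]
      group)
    have hu' : u = z * cstu (Cst p Ω) b := by rw [← hb, mul_inv_cancel_left]
    have hbp : b ∈ 𝒢.pts := by
      change cstu (ZMod p) b ∈ 𝒢.H (ZMod p)
      apply 𝒢.inj (ZMod p) (Cst p Ω) (algebraMap (ZMod p) (Cst p Ω))
        (algebraMap (ZMod p) (Cst p Ω)).injective
      rw [tu_cstu_id, ← hb]
      exact mul_mem (inv_mem hz) huH
    have e2 : tu (cstAut (γ : Ω ≃ₐ[ZMod p] Ω)) (RingHom.id B) u =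
        u * cstu (Cst p Ω) ((Ψ γ).left : Bˣ) := by
      apply Units.ext
      have e3 := c5 γ hγV (RingHom.id B) _ _ hu
      have e4 := hΨ γ
      rw [hψγ, map_one] at e4
      have e5 := congrArg Units.val e4
      have e6 : tmap (p := p) ((γ : Ω ≃ₐ[ZMod p] Ω) : Ω →+* Ω) (RingHom.id B)
          (y : Ω ⊗[ZMod p] B) = (y : Ω ⊗[ZMod p] B) * ((1 : Ω) ⊗ₜ (((Ψ γ).left : Bˣ) : B)) := e5
      rw [e6] at e3
      exact c4 _ _ _ e3 (c1 _ _ _ _ hu (c3 _))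
    have e3 : tu (cstAut (γ : Ω ≃ₐ[ZMod p] Ω)) (RingHom.id B) u = fru d (Cst p Ω) u := by
      have e4 : cstAut (γ : Ω ≃ₐ[ZMod p] Ω) = iterateFrobenius (Cst p Ω) p d := by
        ext c
        rw [coe_cstAut, iterateFrobenius_def, hγd _ c.2]
        rfl
      rw [e4]
      rfl
    have e4 : (Ψ γ).left = ⟨b, hbp⟩⁻¹ * h * ⟨b, hbp⟩ := by
      apply Subtype.ext
      apply cstu_inj (p := p) (R := Cst p Ω)
      have e5 : fru d (Cst p Ω) (cstu (Cst p Ω) b) = cstu (Cst p Ω) b := tu_cstu_id _ _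
      have e6 := e2
      rw [e3, hu', map_mul, hfz, e5, mul_assoc, mul_assoc] at e6
      have e7 := mul_left_cancel e6
      change cstu (Cst p Ω) ((Ψ γ).left : Bˣ) = cstu (Cst p Ω) (b⁻¹ * (h : Bˣ) * b)
      rw [map_mul, map_mul, map_inv, mul_assoc, e7, inv_mul_cancel_left]
    exact ⟨⟨b, hbp⟩, ⟨⟨γ, hψγ⟩, e4⟩⟩
  haveI : Finite 𝒢.pts := inferInstance
  have htop : κ.range = ⊤ := jordan _ hconj
  -- the geometric part
  let Δ : Subgroup 𝒢.pts := (((Fx p (Cst p Ω : Set Ω)).comap (Gx p x).subtype).comap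
    ψ.ker.subtype).map κ
  have hΔ : Δ = ⊤ := by
    rw [eq_top_iff, ← hperf, commutator_eq_closure, Subgroup.closure_le]
    rintro _ ⟨a, b, rfl⟩
    obtain ⟨γ, rfl⟩ : a ∈ κ.range := by rw [htop]; trivial
    obtain ⟨δ, rfl⟩ : b ∈ κ.range := by rw [htop]; trivial
    refine ⟨γ * δ * γ⁻¹ * δ⁻¹, ?_, by
      rw [map_mul, map_mul, map_mul, map_inv, map_inv, commutatorElement_def]⟩
    intro c hc
    have hcst : ∀ (σ : Ω ≃ₐ[ZMod p] Ω) {a : Ω}, a ∈ Cst p Ω → σ a ∈ Cst p Ω := by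
      intro σ a ha
      rw [mem_algebraicClosure_iff] at ha ⊢
      exact IsAlgebraic.algHom (σ : Ω →ₐ[ZMod p] Ω) ha
    have hc' : c ∈ Cst p Ω := hc
    let γ' : Ω ≃ₐ[ZMod p] Ω := ((γ : Gx p x) : Ω ≃ₐ[ZMod p] Ω)
    let δ' : Ω ≃ₐ[ZMod p] Ω := ((δ : Gx p x) : Ω ≃ₐ[ZMod p] Ω)
    change γ' (δ' (γ'⁻¹ (δ'⁻¹ c))) = c
    have e1 : δ' (γ'⁻¹ (δ'⁻¹ c)) = γ'⁻¹ (δ' (δ'⁻¹ c)) := comm_cst δ' γ'⁻¹ (hcst _ hc')
    have e2 : δ' (δ'⁻¹ c) = c := δ'.apply_symm_apply c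
    have e3 : γ' (γ'⁻¹ c) = c := γ'.apply_symm_apply c
    rw [e1, e2, e3]
  intro e
  obtain ⟨γ, hγ, hγe⟩ := hreg e.right
  have h5 : e.left * (Ψ γ).left⁻¹ ∈ Δ := by rw [hΔ]; trivial
  obtain ⟨γ₁, hγ₁, hγ₁'⟩ := h5
  refine ⟨γ₁ * γ, mul_mem hγ₁ hγ, ?_⟩
  refine SemidirectProduct.ext ?_ ?_
  · rw [hleft _ _ γ₁.2, ← hκ, hγ₁', inv_mul_cancel_right]
  · rw [hΨr, map_mul, hγe]
    have h6 : ψ (γ₁ : Gx p x) = 1 := γ₁.2
    rw [h6, one_mul]

end MP7Z
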