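import Pool.Agent.Lib.MP_7f581e_Z.Lie.Spec

set_option autoImplicit false

/-! The invariant (S) for the homomorphism of a torsor. -/

namespace MP7Z

open TensorProduct MP7fS

theorem TorS_mem {Ω : Type} [Field Ω] {V : ValuationSubring Ω} {ℓ : ℕ} {x : Ω}
    (h : BadV ℓ x V) : x ∈ V := by
  rcases h with h | ⟨m, hm, -, h⟩
  · exact (V.valuation_le_one_iff x).1 h.le
  · have h1 : x ^ m ∈ V := by
      have h2 : x ^ m = (x ^ m - 1) + 1 := by ring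
      rw [h2]
      exact add_mem ((V.valuation_le_one_iff _).1 h.le) V.one_mem
    rw [← V.valuation_le_one_iff, map_pow] at h1
    rw [← V.valuation_le_one_iff]
    by_contra hcon
    rw [not_le] at hcon
    exact absurd h1 (not_le.2 (one_lt_pow₀ hcon hm.ne'))

theorem tTorS (hCong : CongStmt) (hCongU : CongUStmt) (hInt : IntStmt) : TorSStmt := by
  intro p _ B _ _ _ 𝒢 Q _ _ ρ hρ Ω _ _ _ _ x ψ y Ψ hst hS hy hy' hright hΨ
  intro ℓ hℓ hne V hV hb γ hγ hdvd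
  have hxV : x ∈ V := TorS_mem hb
  obtain ⟨c1, c2, c3, c4, c5, -, -, -⟩ := hCong p B Ω x hst V hV
  obtain ⟨-, -, -, -, i5, -⟩ := hInt p B Ω x
  obtain ⟨u, hu⟩ := hCongU p B Ω x hst V hV y (i5 V hxV _ hy) (i5 V hxV _ hy')
  set m := orderOf (ψ γ) with hm
  have hnd : ¬ ℓ ∣ m := hS ℓ hℓ hne V hV hb γ hγ
  apply hnd
  refine hdvd.trans (orderOf_dvd_of_pow_eq_one ?_)
  rw [← map_pow]
  set γ' : Gx p x := γ ^ m with hγ'
  have hψγ' : ψ γ' = 1 := by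
    rw [hγ', map_pow, hm, pow_orderOf_eq_one]
  have hI : (γ' : Ω ≃ₐ[ZMod p] Ω) ∈ Inert p V := by
    have h1 : (γ' : Ω ≃ₐ[ZMod p] Ω) = (γ : Ω ≃ₐ[ZMod p] Ω) ^ m := rfl
    rw [h1]
    exact pow_mem hγ m
  have hcst : cstAut (γ' : Ω ≃ₐ[ZMod p] Ω) = RingHom.id (Cst p Ω) := by
    ext c
    rw [coe_cstAut]
    exact hI.1 c c.2
  -- the equation for `γ'`
  have h1 := hΨ γ'
  have h2 := congrArg (Units.val) h1
  rw [coe_tu, Units.val_mul, coe_cstu] at h2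
  have h3 := c5 (γ' : Ω ≃ₐ[ZMod p] Ω) hI.2 (ρ (ψ γ') : B →+* B) y u hu
  rw [h2, hcst] at h3
  have h4 : tmap (p := p) (RingHom.id (Cst p Ω)) (ρ (ψ γ') : B →+* B)
      (u : Cst p Ω ⊗[ZMod p] B) = u := by
    have h5 : (ρ (ψ γ') : B →+* B) = RingHom.id B := by
      rw [hψγ', map_one]
      rfl
    rw [h5]
    exact tmap_id _
  rw [h4] at h3
  have h6 := c1 _ _ _ _ hu (c3 (((Ψ γ').left : Bˣ) : B))
  have h7 := c4 _ _ _ h6 h3
  have h8 : (1 : Cst p Ω) ⊗ₜ[ZMod p] (((Ψ γ').left : Bˣ) : B) = 1 ⊗ₜ 1 := by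
    have h9 : (u : Cst p Ω ⊗[ZMod p] B) * ((1 : Cst p Ω) ⊗ₜ[ZMod p] (((Ψ γ').left : Bˣ) : B)) =
        (u : Cst p Ω ⊗[ZMod p] B) * 1 := by
      rw [h7, mul_one]
    exact (Units.mul_right_inj u).1 h9
  have h10 := one_tmul_inj h8
  have h11 : (Ψ γ').left = 1 := Subtype.ext (Units.ext h10)
  have h12 : (Ψ γ').right = 1 := by
    rw [hright, hψγ']
  exact SemidirectProduct.ext h11 h12

end MP7Z
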