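import Pool.Agent.Lib.MP_7f581e_Z.BR.Main
import Pool.Agent.Lib.MP_7f581e_Z.Lie.Clo
import Pool.Agent.Lib.MP_7f581e_Z.Lie.Cong
import Pool.Agent.Lib.MP_7f581e_Z.Lie.CongU
import Pool.Agent.Lib.MP_7f581e_Z.Lie.DecF
import Pool.Agent.Lib.MP_7f581e_Z.Lie.Fam
import Pool.Agent.Lib.MP_7f581e_Z.Lie.Gel
import Pool.Agent.Lib.MP_7f581e_Z.Lie.Int
import Pool.Agent.Lib.MP_7f581e_Z.Lie.L3
import Pool.Agent.Lib.MP_7f581e_Z.Lie.LiftAll
import Pool.Agent.Lib.MP_7f581e_Z.Lie.ParL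
import Pool.Agent.Lib.MP_7f581e_Z.Lie.Pres
import Pool.Agent.Lib.MP_7f581e_Z.Lie.RQ
import Pool.Agent.Lib.MP_7f581e_Z.Lie.Tor
import Pool.Agent.Lib.MP_7f581e_Z.Lie.TorO
import Pool.Agent.Lib.MP_7f581e_Z.Lie.TorS

/-!
# The Lang torsor theorem, complete
-/

namespace MP7Z

theorem lie_cong : CongStmt := tCong br_res

theorem lie_int : IntStmt := tInt

theorem lie_decF : DecFStmt := tDecF br_cst br_lvl br_bel br_conj br_res br_frb

theorem lie_pres : PresStmt := tPres br_res lie_decF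

theorem lie_fam : FamStmt := tFam br_res br_spl

theorem lie_liftAll : LiftAllStmt := tLiftAll br_cst lie_cong lie_int (tParL br_res lie_pres)

theorem lie_gel : GelStmt := tGel br_cst lie_fam lie_decF lie_liftAll

/-- **The Lang torsor theorem.** -/
theorem lie_l3 : L3Stmt :=
  tL3 lie_int lie_gel tTor (tTorS lie_cong (tCongU lie_cong) lie_int)
    (tTorO lie_cong (tCongU lie_cong) lie_int (tClo br_res))

end MP7Z
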