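import Pool.Agent.Lib.MP_7f581e_Z.Lie.Spec
import Pool.Agent.Lib.MP_7f581e_Z.Fin.Solv
import Pool.Agent.Lib.MP_7f581e_ntL.Y6

/-!
# Step Lie: group theory

`H` is a finite perfect group in the units of a ring `B`, `S = H / Z(H)` is simple and every
automorphism of `S` is induced by a unique element of a group `A` acting on `B` by ring
automorphisms; `D ≤ A` is a group of standard elements.
-/

namespace MP7Z

open MP7fW MP7fY

/-- The conditions on a type of simple groups. -/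
structure TypeD {H B A : Type} [Group H] [Ring B] [Group A] (inc : H →* B)
    (hinj : Function.Injective inc) (r : A →* RingAut B)
    (hex : ∀ x h, ∃ h', inc h' = r x (inc h)) (D : Subgroup A) : Prop where
  perf : commutator H = ⊤
  simple : IsSimpleGroup (H ⧸ Subgroup.center H)
  cent : Subgroup.center (H ⧸ Subgroup.center H) = ⊥
  sur : ∀ φ : (H ⧸ Subgroup.center H) ≃* (H ⧸ Subgroup.center H),
    ∃ x : A, ∀ t, φ t = cQ inc hinj r hex x t
  fix : ∀ x : A, (∀ t, cQ inc hinj r hex x t = t) → x = 1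
  /-- every element of `A` is standard up to an inner automorphism -/
  std : ∀ x : A, ∃ (s : H ⧸ Subgroup.center H) (y : A), y ∈ D ∧
    ∀ t, cQ inc hinj r hex y t = s * cQ inc hinj r hex x t * s⁻¹
  /-- the standard inner automorphisms are in a solvable group -/
  solv : ∃ T : Subgroup (H ⧸ Subgroup.center H), Group.IsSolvable T ∧
    ∀ s, (∃ y ∈ D, ∀ t, cQ inc hinj r hex y t = s * t * s⁻¹) → s ∈ T

/-- The Lang groups of a type: for all finite index sets `κ` and all actions of finite groups on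
`κ → B` by standard elements of the wreath product. -/
def LangOf (p : ℕ) [Fact p.Prime] {H B A : Type} [Group H] [Ring B] [Finite B]
    [Algebra (ZMod p) B] [Group A] (inc : H →* B) (r : A →* RingAut B) (D : Subgroup A) : Prop :=
  ∀ (κ : Type) [Finite κ], ∃ 𝒢 : LangGp p (κ → B),
    (∀ b : (κ → B)ˣ, b ∈ 𝒢.pts ↔ ∀ k, ∃ h, inc h = (b : κ → B) k) ∧ 𝒢.Lang1 ∧
    ∀ (Q : Type) [Group Q] [Fintype Q] (ρ : Q →* ((κ → B) ≃+* (κ → B))),
      (∀ q, ∃ (π : Equiv.Perm κ) (x : κ → A), (∀ k, x k ∈ D) ∧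
        ∀ b k, ρ q b (π k) = r (x k) (b k)) →
      𝒢.Stable ρ ∧ ∃ (m₀ : ℕ) (ι : Type) (Z : ι → Submodule (ZMod p) (κ → B)), 0 < m₀ ∧
        𝒢.LangM m₀ ∧ 𝒢.Gen m₀ Z ∧ (∀ i, ∀ q : Q, ∀ b ∈ Z i, ρ q b ∈ Z i) ∧
        ∀ i, 𝒢.Par ρ (Z i)

/-- A group with jointly injective homomorphisms to a solvable group is solvable. -/
theorem solvable_of_homs {G T κ : Type} [Group G] [Group T] (hT : Group.IsSolvable T)
    (φ : κ → (G →* T)) (hinj : ∀ g, (∀ k, φ k g = 1) → g = 1) : Group.IsSolvable G := by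
  obtain ⟨n, hn⟩ := hT.solvable
  refine ⟨n, ?_⟩
  rw [eq_bot_iff]
  intro g hg
  rw [Subgroup.mem_bot]
  apply hinj
  intro k
  have h1 := map_derivedSeries_le_derivedSeries (φ k) n ⟨g, hg, rfl⟩
  rw [hn, Subgroup.mem_bot] at h1
  exact h1

section

variable {p : ℕ} [Fact p.Prime] {H B A : Type} [Group H] [Ring B] [Finite B]
  [Algebra (ZMod p) B] [Group A] {inc : H →* B} {hinj : Function.Injective inc}
  {r : A →* RingAut B} {hex : ∀ x h, ∃ h', inc h' = r x (inc h)} {D : Subgroup A}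

/-- The points of the Lang group are `κ → H`. -/
theorem exists_hb (hinj : Function.Injective inc) {κ : Type} [Finite κ] {𝒢 : LangGp p (κ → B)}
    (hpts : ∀ b : (κ → B)ˣ, b ∈ 𝒢.pts ↔ ∀ k, ∃ h, inc h = (b : κ → B) k) :
    ∃ e : 𝒢.pts ≃* (κ → H), ∀ b k, inc (e b k) = ((b : (κ → B)ˣ) : κ → B) k := by
  choose u hu using fun (b : 𝒢.pts) => (hpts b).1 b.2
  have hunit : ∀ h : κ → H, ∃ b : 𝒢.pts, ∀ k, ((b : (κ → B)ˣ) : κ → B) k = inc (h k) := by
    intro h
    let b : (κ → B)ˣ :=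
      { val := fun k => inc (h k)
        inv := fun k => inc (h k)⁻¹
        val_inv := by
          funext k
          change inc (h k) * inc (h k)⁻¹ = 1
          rw [← map_mul, mul_inv_cancel, map_one]
        inv_val := by
          funext k
          change inc (h k)⁻¹ * inc (h k) = 1
          rw [← map_mul, inv_mul_cancel, map_one] }
    exact ⟨⟨b, (hpts b).2 fun k => ⟨h k, rfl⟩⟩, fun k => rfl⟩
  let f : 𝒢.pts →* (κ → H) :=
    { toFun := u
      map_one' := by
        funext k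
        apply hinj
        rw [hu]
        exact (map_one inc).symm
      map_mul' := by
        intro a b
        funext k
        apply hinj
        rw [hu]
        change ((a : (κ → B)ˣ) : κ → B) k * ((b : (κ → B)ˣ) : κ → B) k = inc (u a k * u b k)
        rw [map_mul, hu, hu] }
  refine ⟨MulEquiv.ofBijective f ⟨?_, ?_⟩, hu⟩
  · intro a b hab
    apply Subtype.ext
    apply Units.ext
    funext k
    rw [← hu, ← hu]
    exact congrArg inc (congrFun hab k)
  · intro h
    obtain ⟨b, hb⟩ := hunit h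
    refine ⟨b, ?_⟩
    funext k
    apply hinj
    rw [← hb]
    exact hu b k

/-- **Step Lie from a type.** -/
theorem lie_of_type (hL3 : L3Stmt) (hS : SolvStmt p) (hT : TypeD inc hinj r hex D)
    (hG : LangOf p inc r D) :
    LieStep p (fun S [Group S] => Nonempty (S ≃* H ⧸ Subgroup.center H)) := by
  intro Ω _ _ x G _ _ ψ hψ E _ _ f hf S _ _ κ _ hSS hθ₀ _
  obtain ⟨eS⟩ := hSS
  obtain ⟨θ₀⟩ := hθ₀
  have hsim := hT.simple
  have hnt : Nontrivial (H ⧸ Subgroup.center H) := hsim.toNontrivial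
  let θ : f.ker ≃* (κ → H ⧸ Subgroup.center H) := θ₀.trans (MulEquiv.piCongrRight fun _ => eS)
  let c := cQ inc hinj r hex
  have hexQ : ∀ e : E, ∃ (π : Equiv.Perm κ) (x : κ → A), Wr c (Psi f.ker θ e) π x :=
    fun e => exists_wrS hT.sur hT.cent (Psi f.ker θ e)
  have huni : ∀ x y : A, (∀ t, c x t = c y t) → x = y := cQ_injective hT.fix
  -- the subgroup of the standard elements
  let E₂ : Subgroup E :=
    { carrier := {e | ∃ (π : Equiv.Perm κ) (x : κ → A), Wr c (Psi f.ker θ e) π x ∧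
        ∀ k, x k ∈ D}
      one_mem' := ⟨1, fun _ => 1, by
        rw [map_one]
        exact Wr.one, fun _ => D.one_mem⟩
      mul_mem' := by
        rintro e e' ⟨π, x, h, hx⟩ ⟨π', x', h', hx'⟩
        refine ⟨π * π', fun k => x (π' k) * x' k, ?_, fun k => D.mul_mem (hx _) (hx' _)⟩
        rw [map_mul]
        exact h.mul h'
      inv_mem' := by
        rintro e ⟨π, x, h, hx⟩
        refine ⟨π⁻¹, fun k => (x (π⁻¹ k))⁻¹, ?_, fun k => D.inv_mem (hx _)⟩
        rw [map_inv]
        exact h.inv }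
  have hE₂ : ∀ e, e ∈ E₂ ↔ ∃ (π : Equiv.Perm κ) (x : κ → A), Wr c (Psi f.ker θ e) π x ∧
      ∀ k, x k ∈ D := fun e => Iff.rfl
  have hsup : ∀ e : E, ∃ y, nn f.ker θ y * e ∈ E₂ := by
    intro e
    obtain ⟨π, x, h⟩ := hexQ e
    choose s y hyD hy using fun k => hT.std (x k)
    refine ⟨fun i => s (π.symm i), π, y, ?_, hyD⟩
    intro z k
    rw [map_mul, MulAut.mul_apply, Psi_nn]
    change s (π.symm (π k)) * Psi f.ker θ e z (π k) * (s (π.symm (π k)))⁻¹ = _
    rw [h, Equiv.symm_apply_apply, ← hy]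
  -- the kernel is solvable
  let f₂ : E₂ →* G := f.comp E₂.subtype
  have hf₂ : Function.Surjective f₂ := by
    intro g
    obtain ⟨e, rfl⟩ := hf g
    obtain ⟨y, hy⟩ := hsup e
    refine ⟨⟨_, hy⟩, ?_⟩
    change f (nn f.ker θ y * e) = f e
    have h1 : f (nn f.ker θ y) = 1 := MonoidHom.mem_ker.1 (nn_mem f.ker θ y)
    rw [map_mul, h1, one_mul]
  have hsolv : Group.IsSolvable f₂.ker := by
    obtain ⟨T, hTs, hT'⟩ := hT.solv
    have hmem : ∀ e : f₂.ker, ((e : E₂) : E) ∈ f.ker := fun e => MonoidHom.mem_ker.1 e.2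
    have key : ∀ (e : f₂.ker) (k : κ), θ ⟨((e : E₂) : E), hmem e⟩ k ∈ T := by
      intro e k
      obtain ⟨π, x, h, hx⟩ := (hE₂ _).1 (e : E₂).2
      obtain ⟨s, hs⟩ := nn_surj f.ker θ (hmem e)
      have hse : θ ⟨((e : E₂) : E), hmem e⟩ = s := by
        apply nn_inj f.ker θ
        rw [hs]
        change ((θ.symm (θ ⟨((e : E₂) : E), hmem e⟩) : f.ker) : E) = _
        rw [MulEquiv.symm_apply_apply]
      rw [hse]
      rw [← hs] at h
      classical
      have h1 : ∀ (z : κ → H ⧸ Subgroup.center H) (k : κ),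
          s (π k) * z (π k) * (s (π k))⁻¹ = c (x k) (z k) := by
        intro z k
        have h2 := h z k
        rw [Psi_nn] at h2
        exact h2
      have hπ : ∀ k, π k = k := by
        intro k
        by_contra hne
        obtain ⟨t, ht⟩ := exists_ne (1 : H ⧸ Subgroup.center H)
        have h2 := h1 (Pi.mulSingle (π k) t) k
        rw [Pi.mulSingle_eq_same, Pi.mulSingle_eq_of_ne (Ne.symm hne), map_one] at h2
        apply ht
        rw [mul_inv_eq_one] at h2
        exact mul_eq_left.mp h2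
      refine hT' _ ⟨x k, hx k, ?_⟩
      intro t
      have h3 := h1 (fun _ => t) k
      rw [hπ k] at h3
      exact h3.symm
    let φ : κ → (f₂.ker →* T) := fun k =>
      { toFun := fun e => ⟨θ ⟨((e : E₂) : E), hmem e⟩ k, key e k⟩
        map_one' := by
          apply Subtype.ext
          change θ ⟨(((1 : f₂.ker) : E₂) : E), hmem 1⟩ k = 1
          have h1 : (⟨(((1 : f₂.ker) : E₂) : E), hmem 1⟩ : f.ker) = 1 := rfl
          rw [h1, map_one]
          rfl
        map_mul' := by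
          intro a b
          apply Subtype.ext
          change θ ⟨(((a * b : f₂.ker) : E₂) : E), hmem (a * b)⟩ k = _
          have h1 : (⟨(((a * b : f₂.ker) : E₂) : E), hmem (a * b)⟩ : f.ker) =
            ⟨((a : E₂) : E), hmem a⟩ * ⟨((b : E₂) : E), hmem b⟩ := rfl
          rw [h1, map_mul]
          rfl }
    refine solvable_of_homs hTs φ ?_
    intro e he
    have h1 : θ ⟨((e : E₂) : E), hmem e⟩ = 1 := by
      funext k
      exact congrArg Subtype.val (he k)
    have h2 : (⟨((e : E₂) : E), hmem e⟩ : f.ker) = 1 := by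
      apply θ.injective
      rw [h1, map_one]
    have h3 : ((e : E₂) : E) = 1 := congrArg (fun z : f.ker => (z : E)) h2
    exact Subtype.ext (Subtype.ext h3)
  -- the solution for the standard subgroup
  obtain ⟨x', -, -, -, ψ₂, hψ₂, -⟩ := hS Ω x G ψ hψ E₂ f₂ hf₂ hsolv
  -- the action
  obtain ⟨𝒢, hpts, hL1, hQ⟩ := hG κ
  let ρ : E₂ →* ((κ → B) ≃+* (κ → B)) :=
    (rhoQ (c := c) (Ψ := Psi f.ker θ) hexQ huni r).comp E₂.subtype
  have hform : ∀ (e : E₂) (b : κ → B) (k : κ),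
      ρ e b (pQ hexQ (e : E) k) = r (xQ hexQ (e : E) k) (b k) :=
    fun e b k => rhoQ_apply hexQ huni r (e : E) b k
  have hxD : ∀ (e : E₂) (k : κ), xQ hexQ (e : E) k ∈ D := by
    intro e k
    obtain ⟨π, x, h, hx⟩ := (hE₂ _).1 e.2
    have h1 := (wr_unique huni (wrQ hexQ (e : E)) h).2
    rw [h1]
    exact hx k
  have : Fintype E₂ := Fintype.ofFinite E₂
  obtain ⟨hst, m₀, ι, Z, hm₀, hLM, hGen, hZ, hPar⟩ := hQ E₂ ρ fun e =>
    ⟨pQ hexQ (e : E), xQ hexQ (e : E), hxD e, hform e⟩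
  obtain ⟨eb, heb⟩ := exists_hb hinj hpts
  have hperf : commutator 𝒢.pts = ⊤ := by
    have h1 : commutator (κ → H) = ⊤ := perfect_pi hT.perf
    rw [eq_top_iff]
    intro b _
    have h2 : eb b ∈ commutator (κ → H) := by
      rw [h1]
      exact Subgroup.mem_top _
    have h3 : (commutator (κ → H)).map eb.symm.toMonoidHom ≤ commutator 𝒢.pts := by
      rw [commutator_def, commutator_def, Subgroup.map_commutator]
      exact Subgroup.commutator_mono le_top le_top
    have h4 := h3 ⟨eb b, h2, rfl⟩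
    have h5 : eb.symm.toMonoidHom (eb b) = b := eb.symm_apply_apply b
    rw [h5] at h4
    exact h4
  obtain ⟨Ψ₃, hΨ₃, -⟩ := hL3 p (κ → B) 𝒢 E₂ ρ hst m₀ ι Z hm₀ hL1 hLM hGen hZ hPar hperf Ω x' ψ₂ hψ₂
  -- the homomorphism onto `E`
  let f₁ : 𝒢.pts →* E := (nn f.ker θ).comp ((mkk κ H).comp eb.toMonoidHom)
  have hact : ∀ (e : E₂) (b : 𝒢.pts), f₁ (𝒢.act ρ hst e b) = (e : E) * f₁ b * (e : E)⁻¹ := by
    intro e b
    change nn f.ker θ (mkk κ H (eb (𝒢.act ρ hst e b))) =
      (e : E) * nn f.ker θ (mkk κ H (eb b)) * (e : E)⁻¹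
    rw [← nn_psi]
    congr 1
    funext i
    obtain ⟨k, rfl⟩ := (pQ hexQ (e : E)).surjective i
    rw [wrQ hexQ (e : E) (mkk κ H (eb b)) k]
    symm
    apply cQ_mk'
    rw [heb, heb]
    exact hform e ((b : (κ → B)ˣ) : κ → B) k
  let F : 𝒢.pts ⋊[𝒢.act ρ hst] E₂ →* E := SemidirectProduct.lift f₁ E₂.subtype (by
    intro e
    ext b
    exact hact e b)
  have hF : Function.Surjective F := by
    intro e
    obtain ⟨y, hy⟩ := hsup e
    obtain ⟨h, hh⟩ := mkk_surj κ H y⁻¹
    refine ⟨⟨eb.symm h, ⟨_, hy⟩⟩, ?_⟩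
    change nn f.ker θ (mkk κ H (eb (eb.symm h))) * (nn f.ker θ y * e) = e
    rw [MulEquiv.apply_symm_apply, hh, map_inv, inv_mul_cancel_left]
  exact ⟨x', F.comp Ψ₃, hΨ₃.map F hF⟩

end

end MP7Z
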