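import Pool.Agent.Lib.MP_7f581e_Z.Lie.Defs

/-!
# Step Lie, abstract part (L2, L3): statements with complete proofs in the docstrings

Each `def XStmt : Prop` is one Lean task: file `Lie/X.lean`, import only this file, `theorem tX :
XStmt`; statements listed under *Uses* are hypotheses.  Notation: `𝔽 = Cst p Ω`, `D_V = Dec p V`,
coordinates: `crd`, with respect to the fixed basis `Module.finBasis (ZMod p) B`.
-/

namespace MP7Z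

open TensorProduct MP7fS

/-- **Cong.** Calculus of values at `V`.

*Proof.*  All statements are about coordinates.  (1) `crd (w w') i = Σ_{j,k} s_{jk}^i crd w j crd w' k` with
structure constants `s ∈ ZMod p` (the same for `Ω` and `𝔽`), and `Cong V w u` implies that the
coordinates of `w` are in `V` (`crd u i` is a constant, in `V` by *Res*); the difference of products is
in the maximal ideal.  (2) (3) `crd (1 ⊗ b) i` is the image of the `i`-th coordinate of `b` in the prime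
field, the same for `Ω` and `𝔽`.  (4) `V.valuation (crd u i - crd u' i) < 1` and nonzero constants are
units (*Res*).  (5) the coordinates of `tmap γ r w` are `Σ_j r_{ij} γ (crd w j)` with `r_{ij} ∈ ZMod p` the
matrix of `r`, and `γ` preserves the maximal ideal of `V`.  (6) coordinates are raised to the power
`p ^ d`, `a ^ (p^d) - c ^ (p^d) = (a - c) ^ (p^d)` (`repr_tmap`).  (7) let `u'` be the value of `w⁻¹` (by (8));
`w w⁻¹ = 1` gives `u u' = 1` by (1), (2), (4).  (8) *Res*: each coordinate has a residue; take `u = vec` of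
the residues.
*Uses*: Res (of BR). -/
def CongStmt : Prop :=
  ∀ (p : ℕ) [Fact p.Prime] (B : Type) [Ring B] [Finite B] [Algebra (ZMod p) B] (Ω : Type)
    [Field Ω] [Algebra (ZMod p) Ω] [CharP Ω p] [CharP (Cst p Ω) p] (x : Ω), IsStage p x →
    ∀ V : ValuationSubring Ω, V ≠ ⊤ →
    (∀ (w w' : Ω ⊗[ZMod p] B) (u u' : Cst p Ω ⊗[ZMod p] B), Cong V w u → Cong V w' u' →
      Cong V (w * w') (u * u')) ∧
    Cong V (1 : Ω ⊗[ZMod p] B) 1 ∧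
    (∀ b : B, Cong V ((1 : Ω) ⊗ₜ[ZMod p] b) (1 ⊗ₜ b)) ∧
    (∀ (w : Ω ⊗[ZMod p] B) (u u' : Cst p Ω ⊗[ZMod p] B), Cong V w u → Cong V w u' → u = u') ∧
    (∀ γ ∈ Dec p V, ∀ (r : B →+* B) (w : Ω ⊗[ZMod p] B) (u : Cst p Ω ⊗[ZMod p] B), Cong V w u →
      Cong V (tmap (γ : Ω →+* Ω) r w) (tmap (cstAut γ) r u)) ∧
    (∀ (d : ℕ) (w : (Ω ⊗[ZMod p] B)ˣ) (u : (Cst p Ω ⊗[ZMod p] B)ˣ),
      Cong V (w : Ω ⊗[ZMod p] B) (u : Cst p Ω ⊗[ZMod p] B) →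
      Cong V (fru d Ω w : (Ω ⊗[ZMod p] B)ˣ) ((fru d (Cst p Ω) u : (Cst p Ω ⊗[ZMod p] B)ˣ) :
        Cst p Ω ⊗[ZMod p] B)) ∧
    (∀ (w : (Ω ⊗[ZMod p] B)ˣ) (u : (Cst p Ω ⊗[ZMod p] B)ˣ),
      (∀ i, crd ((w⁻¹ : (Ω ⊗[ZMod p] B)ˣ) : Ω ⊗[ZMod p] B) i ∈ V) →
      Cong V (w : Ω ⊗[ZMod p] B) (u : Cst p Ω ⊗[ZMod p] B) →
      Cong V ((w⁻¹ : (Ω ⊗[ZMod p] B)ˣ) : Ω ⊗[ZMod p] B)
        ((u⁻¹ : (Cst p Ω ⊗[ZMod p] B)ˣ) : Cst p Ω ⊗[ZMod p] B)) ∧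
    (∀ w : Ω ⊗[ZMod p] B, (∀ i, crd w i ∈ V) → ∃ u : Cst p Ω ⊗[ZMod p] B, Cong V w u)

/-- **CongU.** Units have unit values.

*Proof.*  By (8) of *Cong* `w` and `w⁻¹` have values `u`, `u'`; by (1), (2), (4) `u u' = 1 = u' u`.
*Uses*: Cong. -/
def CongUStmt : Prop :=
  ∀ (p : ℕ) [Fact p.Prime] (B : Type) [Ring B] [Finite B] [Algebra (ZMod p) B] (Ω : Type)
    [Field Ω] [Algebra (ZMod p) Ω] [CharP Ω p] [CharP (Cst p Ω) p] (x : Ω), IsStage p x →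
    ∀ V : ValuationSubring Ω, V ≠ ⊤ → ∀ w : (Ω ⊗[ZMod p] B)ˣ,
      (∀ i, crd (w : Ω ⊗[ZMod p] B) i ∈ V) →
      (∀ i, crd ((w⁻¹ : (Ω ⊗[ZMod p] B)ˣ) : Ω ⊗[ZMod p] B) i ∈ V) →
      ∃ u : (Cst p Ω ⊗[ZMod p] B)ˣ, Cong V (w : Ω ⊗[ZMod p] B) (u : Cst p Ω ⊗[ZMod p] B)

/-- **Clo.** Values of elements of `H(Ω)`, integral with their inverses at `V`, are in `H(𝔽)`.

*Proof.*  `V` as a commutative ring is an algebra over `ZMod p` (contains the image of `ZMod p`).  By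
*Res* every `f ∈ V` has a unique residue `res f ∈ 𝔽` with `V.valuation (f - res f) < 1`; `res : V → 𝔽` is a
ring homomorphism (uniqueness).  With `e = Module.finBasis (ZMod p) B` let `w_V = vec e (coordinates of
w) ∈ V ⊗ B` and `w_V'` the same for `w⁻¹`; the inclusion `V → Ω` maps `w_V`, `w_V'` to `w`, `w⁻¹`
(`tmap_vec`, `vec_repr`), and it is injective on `V ⊗ B` (`tmap_injective`), so `w_V` is a unit with inverse
`w_V'`.  By `𝒢.inj` `w_V ∈ H(V)`, by `𝒢.map` for `res`: `tu res id w_V ∈ H(𝔽)`, and this is `u` (same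
coordinates, by uniqueness of residues).
*Uses*: Res (of BR). -/
def CloStmt : Prop :=
  ∀ (p : ℕ) [Fact p.Prime] (B : Type) [Ring B] [Finite B] [Algebra (ZMod p) B]
    (𝒢 : LangGp p B) (Ω : Type) [Field Ω] [Algebra (ZMod p) Ω] (x : Ω), IsStage p x →
    ∀ V : ValuationSubring Ω, V ≠ ⊤ → ∀ (w : (Ω ⊗[ZMod p] B)ˣ) (u : (Cst p Ω ⊗[ZMod p] B)ˣ),
      w ∈ 𝒢.H Ω → (∀ i, crd (w : Ω ⊗[ZMod p] B) i ∈ V) →
      (∀ i, crd ((w⁻¹ : (Ω ⊗[ZMod p] B)ˣ) : Ω ⊗[ZMod p] B) i ∈ V) →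
      Cong V (w : Ω ⊗[ZMod p] B) (u : Cst p Ω ⊗[ZMod p] B) → u ∈ 𝒢.H (Cst p Ω)

/-- **Int.** Calculus of integral elements.

*Proof.*  (1)-(3): coordinates of products, sums, constants are polynomials with coefficients in the
prime field in the given coordinates, and integral elements form a ring.  (4) `γ` fixes
`Algebra.adjoin (ZMod p) {x}`, so it maps integral elements to integral elements; coordinates of
`tmap γ r w` are prime field combinations of `γ (crd w j)`.  (5) `V` is integrally closed and contains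
`adjoin (ZMod p) {x}`.  (6) Let `A` be the ring of all elements of `Ω` integral over `adjoin (ZMod p) {x}`
(integrally closed in `Ω`), `Y_i` the coordinates of `y`: `Y_i ^ p = Σ_k (lmm g)_{ik} Y_k` with `(lmm g)_{ik} ∈
A` (`lmm_mulVec`, coordinates of `g e_k`).  So the `A`-module generated by the monomials `∏ Y_i^{m_i}`,
`0 ≤ m_i < p`, is stable under multiplication by all `Y_j` (a monomial with an exponent `p` is a
combination of monomials of smaller total degree, as `p ≥ 2`): by induction on the degree it contains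
all monomials; it is a finitely generated `A`-module which is a ring, so the `Y_i` are integral over `A`
(`IsIntegral.of_mem_of_fg`), so in `A`.  For `y⁻¹`: `fru 1 Ω y⁻¹ = y⁻¹ g⁻¹`, the same argument with the
matrix of right multiplication by `g⁻¹`.  (`MP7fZ.isIntegral_repr` in `MP_7f581e_ntL` has the argument
for `y`.) -/
def IntStmt : Prop :=
  ∀ (p : ℕ) [Fact p.Prime] (B : Type) [Ring B] [Finite B] [Algebra (ZMod p) B] (Ω : Type)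
    [Field Ω] [Algebra (ZMod p) Ω] [CharP Ω p] (x : Ω),
    (∀ w w' : Ω ⊗[ZMod p] B, IntX x w → IntX x w' → IntX x (w * w')) ∧
    (∀ w w' : Ω ⊗[ZMod p] B, IntX x w → IntX x w' → IntX x (w + w')) ∧
    (∀ b : B, IntX x ((1 : Ω) ⊗ₜ[ZMod p] b)) ∧
    (∀ γ ∈ Gx p x, ∀ (r : B →+* B) (w : Ω ⊗[ZMod p] B), IntX x w →
      IntX x (tmap (γ : Ω →+* Ω) r w)) ∧
    (∀ V : ValuationSubring Ω, x ∈ V → ∀ w : Ω ⊗[ZMod p] B, IntX x w → ∀ i, crd w i ∈ V) ∧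
    (∀ g y : (Ω ⊗[ZMod p] B)ˣ, IntX x (g : Ω ⊗[ZMod p] B) →
      IntX x ((g⁻¹ : (Ω ⊗[ZMod p] B)ˣ) : Ω ⊗[ZMod p] B) → fru 1 Ω y = g * y →
      IntX x (y : Ω ⊗[ZMod p] B) ∧ IntX x ((y⁻¹ : (Ω ⊗[ZMod p] B)ˣ) : Ω ⊗[ZMod p] B))

/-- **Fam.** Existence of split families.

*Proof.*  Let `L` be the fixed field of `ker ψ`, finite Galois over `F₀ = 𝔽_p(x)`, `L = F₀(α)` with `α`
integral over `adjoin (ZMod p) {x}` (multiply a primitive element by a denominator).  For `γ, γ' ∈ Gx`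
with `ψ γ ≠ ψ γ'`: `γ α ≠ γ' α` (else `γ'⁻¹ γ` fixes `L`, so it is in `ker ψ`, by the Galois correspondence;
`ker ψ` contains the elements fixing a finite set).  The set `T₀` of all differences `γ α - γ' α` with
`ψ γ ≠ ψ γ'` is finite (conjugates of `α`), consists of nonzero elements.  Let `S₀ = {c ∈ Ω : c^(p^m₀) =
c}`, a finite set (roots of a polynomial) of constants, preserved by all `γ`; `ψ₁ : Gx → Q × Perm S₀`
(`ψ` and the action on `S₀`), of finite level.  Build `V 0, V 1, …` one after the other: given `V i`,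
`i < j`, let `c_i ∈ 𝔽` be the residue of `x` at `V i`, `P_i` its minimal polynomial over `ZMod p`,
`t_i = P_i(x) ≠ 0` (`x` is transcendental), `(V i).valuation t_i < 1` (`P_i(c_i) = 0`).  Apply *Spl* to `ψ₁`
with `T = T₀ ∪ {t_i : i < j}`.  Then `sep i j` for `i < j` holds with `t_i`.  For `sep j i` (`i < j`): take
`t = t_j = P_j(x)`: `(V i).valuation t_j = 1`, because `P_i ≠ P_j` (`P_i = P_j` would give
`(V j).valuation t_i < 1`) are distinct monic irreducible polynomials, so `P_j(c_i) ≠ 0`.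
*Uses*: Res, Spl (of BR). -/
def FamStmt : Prop :=
  ∀ (p : ℕ) [Fact p.Prime] (Ω : Type) [Field Ω] [Algebra (ZMod p) Ω] (x : Ω), IsStage p x →
    ∀ (m₀ : ℕ), 0 < m₀ → ∀ (Q : Type) [Group Q] [Finite Q] (ψ : Gx p x →* Q), FinLevel ψ →
      ∀ r : ℕ, ∃ V : Fin r → ValuationSubring Ω, SplitFam m₀ ψ V

/-- **DecF.** The decomposition group in `Gx` of a finite place acts on the constants through the
Frobenius of its residue field `𝔽_p(c)`, `c` = residue of `x`.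

*Proof.*  Let `c ∈ 𝔽` be the residue of `x` at `V` (*Res*) and `d ≥ 1` minimal with `c ^ (p^d) = c`
(exists: `c` is algebraic over `ZMod p`); `𝔽_p[c]` is a field with `p^d` elements, and it is
`{a ∈ 𝔽 : a ^ (p^d) = a}` (both have `p^d` elements).  First claim: let `φ ∈ Gx` induce `c ↦ c ^ p` (*Frb*).
`K = 𝔽(x)`, a level.  `V' = φ^d V` (that is `{φ^d f}`, or `V.map`/`comap`) and `V` have the same trace on
`K`: both contain `x`, the residue of `x` at `V'` is `φ^d(c) = c ^ (p^d) = c` (apply `φ^d` to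
`V.valuation (x - c) < 1`); the place of `K` with `x = c` is unique (every `f ∈ K` is `(x-c)^n g(x)/h(x)`,
`g(c) h(c) ≠ 0`).  By *Conj* there is `γ' ∈ Γ_K` with `γ' V' = V`; `γ = γ' φ^d`.  Second claim: `δ ∈ Gx ∩ D_V`,
`δ x = x`, so `V.valuation (x - δ c) < 1`, so `δ c = c` (uniqueness of the residue), so `δ` fixes `𝔽_p[c]`.
Third claim: `a ∈ 𝔽` fixed by `Gx ∩ D_V` is fixed by `γ`, so `a ^ (p^d) = a`, `a = P(c)` with
`P ∈ (ZMod p)[X]`, and `r = P(x)`.  Last claim: let `ζ ∈ Ω` be a primitive root of unity of order `p^m - 1`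
(`Ω` is separably closed, the order is prime to `p`; if `m = 1` and `p = 2` the claim is trivial): `ζ^(p^m)
= ζ`, so `ζ^(p^d) = ζ`, `p^m - 1 ∣ p^d - 1`, so `m ∣ d`.
*Uses*: Cst, Lvl, Bel, Conj, Res, Frb (of BR). -/
def DecFStmt : Prop :=
  ∀ (p : ℕ) [Fact p.Prime] (Ω : Type) [Field Ω] [Algebra (ZMod p) Ω] (x : Ω), IsStage p x →
    ∀ V : ValuationSubring Ω, V ≠ ⊤ → x ∈ V →
      ∃ d : ℕ, 0 < d ∧ (∃ γ ∈ Gx p x ⊓ Dec p V, ∀ c ∈ Cst p Ω, γ c = c ^ (p ^ d)) ∧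
        (∀ δ ∈ Gx p x ⊓ Dec p V, ∀ c ∈ Cst p Ω, c ^ (p ^ d) = c → δ c = c) ∧
        (∀ a ∈ Cst p Ω, (∀ δ ∈ Gx p x ⊓ Dec p V, δ a = a) →
          ∃ r ∈ Algebra.adjoin (ZMod p) {x}, V.valuation (r - a) < 1) ∧
        ∀ m : ℕ, 0 < m → (∀ δ ∈ Gx p x ⊓ Dec p V, ∀ c : Ω, c ^ (p ^ m) = c → δ c = c) → m ∣ d

/-- **Pres.** Prescribed values at the places of a split family, for elements of the fixed field of
`ker ψ`, with value `0` at the conjugates.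

*Proof.*  Let `α` be as in `SplitFam.prim`, `γ_q ∈ Gx` with `ψ γ_q = q` (`γ_1 = 1`).  Fix `j`, `V = V j`.
`γ_q α` is integral over `adjoin (ZMod p) {x}`, so in `V`; let `α_q ∈ 𝔽` be its residue.  The `α_q`, `q ∈ Q`,
are pairwise distinct (`prim`).  `δ ∈ Gx ∩ D_V` fixes `γ_q α` (`ψ δ = 1`, so `γ_q⁻¹ δ γ_q ∈ ker ψ` fixes `α`),
hence fixes `α_q`.  Let `Λ(T) = a_j ∏_{q ≠ 1} (T - α_q)/(α_1 - α_q) = Σ_{k < |Q|} λ_k T^k ∈ 𝔽[T]`: the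
coefficients `λ_k` are fixed by `Gx ∩ D_V`, so by *DecF* there are `h_{j,k} ∈ R := adjoin (ZMod p) {x}`
with `(V j).valuation (h_{j,k} - λ_k) < 1`.  The ideals `I_j = {r ∈ R : (V j).valuation r < 1}` of `R` are
maximal (prime, nonzero: `R` is a principal ideal domain, isomorphic to a polynomial ring; nonzero
because `R/I_j` embeds in `𝔽`-residues and `P(x) ∈ I_j` for `P` the minimal polynomial of the residue of
`x`; or directly: `R / I_j` is an integral domain algebraic over `ZMod p`, so a field) and pairwise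
distinct, so coprime, by `sep`.  Chinese remainder theorem: `h_k ∈ R` with `h_k - h_{j,k} ∈ I_j` for all
`j`.  Put `z = Σ_k h_k α^k`: integral, fixed by `ker ψ`.  `γ_q z = Σ h_k (γ_q α)^k` has the residue
`Σ λ_k α_q^k = Λ(α_q)` at `V j`, that is `a_j` for `q = 1` and `0` for `q ≠ 1`; any `γ` with `ψ γ = q` satisfies
`γ z = γ_q z`.
*Uses*: Res (of BR), DecF. -/
def PresStmt : Prop :=
  ∀ (p : ℕ) [Fact p.Prime] (Ω : Type) [Field Ω] [Algebra (ZMod p) Ω] (x : Ω), IsStage p x →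
    ∀ (Q : Type) [Group Q] [Finite Q] (ψ : Gx p x →* Q), Function.Surjective ψ →
    ∀ (m₀ r : ℕ) (V : Fin r → ValuationSubring Ω), SplitFam m₀ ψ V →
    ∀ a : Fin r → Ω, (∀ j, a j ∈ Cst p Ω) → (∀ j, ∀ δ ∈ Gx p x ⊓ Dec p (V j), δ (a j) = a j) →
      ∃ z : Ω, IsIntegral (Algebra.adjoin (ZMod p) {x}) z ∧
        (∀ γ : Gx p x, ψ γ = 1 → (γ : Ω ≃ₐ[ZMod p] Ω) z = z) ∧
        (∀ j, (V j).valuation (z - a j) < 1) ∧
        ∀ γ : Gx p x, ψ γ ≠ 1 → ∀ j, (V j).valuation ((γ : Ω ≃ₐ[ZMod p] Ω) z) < 1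

/-- **RQ.** The ring of integral elements of the fixed field of `ker ψ`, with the action of `Q`.

*Proof.*  `R` = the subring of the elements of `Ω` which are integral over `adjoin (ZMod p) {x}` and fixed
by all `γ ∈ Gx` with `ψ γ = 1`.  `γ ∈ Gx` maps `R` onto itself (it fixes `adjoin (ZMod p) {x}` pointwise, and
`ker ψ` is normal), and the restriction depends only on `ψ γ`; `ψ` is onto, so choose `γ_q` with
`ψ γ_q = q` and let `a q` be the restriction of `γ_q` (multiplicative because of the independence).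
`π`: an element of `R` is integral over `adjoin (ZMod p) {x} ⊆ V`, so in `V`; its residue (*Res*) is
unique, so `π` is a ring homomorphism.
*Uses*: Res (of BR). -/
def RQStmt : Prop :=
  ∀ (p : ℕ) [Fact p.Prime] (Ω : Type) [Field Ω] [Algebra (ZMod p) Ω] (x : Ω), IsStage p x →
    ∀ (Q : Type) [Group Q] (ψ : Gx p x →* Q), Function.Surjective ψ →
      ∃ (R : Type) (_ : CommRing R) (_ : Algebra (ZMod p) R) (inc : R →+* Ω)
        (a : Q →* (R ≃+* R)), Function.Injective inc ∧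
        (∀ z : Ω, IsIntegral (Algebra.adjoin (ZMod p) {x}) z →
          (∀ γ : Gx p x, ψ γ = 1 → (γ : Ω ≃ₐ[ZMod p] Ω) z = z) → ∃ r : R, inc r = z) ∧
        (∀ r : R, IsIntegral (Algebra.adjoin (ZMod p) {x}) (inc r)) ∧
        (∀ (γ : Gx p x) (r : R), (γ : Ω ≃ₐ[ZMod p] Ω) (inc r) = inc (a (ψ γ) r)) ∧
        ∀ V : ValuationSubring Ω, V ≠ ⊤ → x ∈ V → ∃ π : R →+* Cst p Ω, ∀ r : R,
          V.valuation (inc r - (π r : Ω)) < 1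

/-- **ParL.** Lifting elements `u = 1 + ζ`, `ζ ∈ 𝔽 ⊗ Z`, `ζ ^ 2 = 0`, given at the places of a split
family.

*Proof.*  Let `R, inc, a, π_j` be as in *RQ* (`π_j` for `V j`).  Let `m_1, …, m_s` be a basis of `Z`,
`u_j = 1 + Σ_i a_{ji} ⊗ m_i` with `a_{ji} ∈ 𝔽` (`Submodule.baseChange` is spanned by the `1 ⊗ m_i`), fixed by
`Gx ∩ D_{V_j}` (the `m_i` are linearly independent and `u_j` is fixed).  *Pres* gives `z_i ∈ Ω`, in the
image of `R`: `z_i = inc r_i`, with `π_j r_i = a_{ji}` and `π_j (a q r_i) = 0` for `q ≠ 1` (uniqueness of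
residues), and `c₀ ∈ R` in the same way for the values `1`: `π_j (Σ_q a q c₀) = 1`.  `n₀ = Σ_i r_i ⊗ m_i`,
`n = Σ_{q ∈ Q} tmap (a q) (ρ q) n₀ ∈ R ⊗ Z` (`ρ q Z ⊆ Z`), and `tmap (a q') (ρ q') n = n`.
`tmap π_j id n = Σ_i a_{ji} ⊗ m_i = u_j - 1`, whose square is `0`.  *Par* gives `g ∈ H(R)`;
`w = tu inc id g`: in `H(Ω)` (`𝒢.map`); `InvL`: `tu γ (ρ (ψ γ)) (tu inc id g) = tu inc id (tu (a (ψ γ)) (ρ (ψ γ)) g)`;
the coordinates of `w`, `w⁻¹` are in `inc R`; the value at `V j` is `tmap π_j id g = 1 + (u_j - 1)`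
(coordinates: `repr_tmap`).
*Uses*: Pres, RQ. -/
def ParLStmt : Prop :=
  ∀ (p : ℕ) [Fact p.Prime] (B : Type) [Ring B] [Finite B] [Algebra (ZMod p) B]
    (𝒢 : LangGp p B) (Q : Type) [Group Q] [Fintype Q] (ρ : Q →* (B ≃+* B))
    (Z : Submodule (ZMod p) B), (∀ q : Q, ∀ b ∈ Z, ρ q b ∈ Z) → 𝒢.Par ρ Z →
    ∀ (Ω : Type) [Field Ω] [Algebra (ZMod p) Ω] (x : Ω), IsStage p x →
    ∀ ψ : Gx p x →* Q, Function.Surjective ψ →
    ∀ (m₀ r : ℕ) (V : Fin r → ValuationSubring Ω), SplitFam m₀ ψ V →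
    ∀ u : Fin r → (Cst p Ω ⊗[ZMod p] B)ˣ,
    (∀ j, (u j : Cst p Ω ⊗[ZMod p] B) - 1 ∈ Z.baseChange (Cst p Ω)) →
    (∀ j, ((u j : Cst p Ω ⊗[ZMod p] B) - 1) * ((u j : Cst p Ω ⊗[ZMod p] B) - 1) = 0) →
    (∀ j, ∀ γ ∈ Gx p x ⊓ Dec p (V j), tu (cstAut γ) (RingHom.id B) (u j) = u j) →
    ∃ w : (Ω ⊗[ZMod p] B)ˣ, w ∈ 𝒢.H Ω ∧ InvL ψ ρ w ∧ IntX x (w : Ω ⊗[ZMod p] B) ∧
      IntX x ((w⁻¹ : (Ω ⊗[ZMod p] B)ˣ) : Ω ⊗[ZMod p] B) ∧
      ∀ j, Cong (V j) (w : Ω ⊗[ZMod p] B) (u j : Cst p Ω ⊗[ZMod p] B)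

/-- **LiftAll.** Every family of points, fixed by the powers of the Frobenius, lifts.

*Proof.*  For fixed `j` let `C_j ⊆ (𝔽 ⊗ B)ˣ` be the set of the `u` for which there is `w ∈ H(Ω)` with
`InvL ψ ρ w`, `w` and `w⁻¹` integral, value `u` at `V j` and value `1` at `V i`, `i ≠ j`.  `C_j` is a subgroup
(*Cong*, *Int*; inverses by (7) of *Cong*, the coordinates of `w⁻¹` are in `V i` by (5) of *Int*; products
and inverses satisfy `InvL` because `tu` is a homomorphism), and it contains all `u` with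
`fru (d j) u = u`, `(u - 1)^2 = 0`, `u - 1 ∈ 𝔽 ⊗ Z_i`: apply *ParL* to the family with `u` at `j` and `1` at
the other places; the condition on `γ ∈ Gx ∩ D_{V_j}`: the coordinates of `u` satisfy `c ^ (p^{d_j}) = c`
(`repr_tmap`), so `γ` fixes them (hypothesis); at the other places trivially.  By `Gen` (`𝔽` is
algebraically closed, *Cst*, and algebraic over `ZMod p`) `g_j ∈ C_j`, realized by `w_j`; `w = ∏_j w_j`
(in any order, for example by induction on `r' ≤ r` for `∏_{j < r'}`).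
*Uses*: Cst (of BR), Cong, Int, ParL. -/
def LiftAllStmt : Prop :=
  ∀ (p : ℕ) [Fact p.Prime] (B : Type) [Ring B] [Finite B] [Algebra (ZMod p) B]
    (𝒢 : LangGp p B) (Q : Type) [Group Q] [Fintype Q] (ρ : Q →* (B ≃+* B)) (m₀ : ℕ) (ι : Type)
    (Z : ι → Submodule (ZMod p) B), 𝒢.Gen m₀ Z → (∀ i, ∀ q : Q, ∀ b ∈ Z i, ρ q b ∈ Z i) →
    (∀ i, 𝒢.Par ρ (Z i)) →
    ∀ (Ω : Type) [Field Ω] [Algebra (ZMod p) Ω] [CharP Ω p] [CharP (Cst p Ω) p] (x : Ω),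
    IsStage p x → ∀ ψ : Gx p x →* Q, Function.Surjective ψ →
    ∀ (r : ℕ) (V : Fin r → ValuationSubring Ω), SplitFam m₀ ψ V →
    ∀ d : Fin r → ℕ, (∀ j, 0 < d j) → (∀ j, m₀ ∣ d j) →
    (∀ j, ∀ δ ∈ Gx p x ⊓ Dec p (V j), ∀ c ∈ Cst p Ω, c ^ (p ^ d j) = c → δ c = c) →
    ∀ g : Fin r → (Cst p Ω ⊗[ZMod p] B)ˣ, (∀ j, g j ∈ 𝒢.H (Cst p Ω)) →
    (∀ j, fru (d j) (Cst p Ω) (g j) = g j) →
    ∃ w : (Ω ⊗[ZMod p] B)ˣ, w ∈ 𝒢.H Ω ∧ InvL ψ ρ w ∧ IntX x (w : Ω ⊗[ZMod p] B) ∧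
      IntX x ((w⁻¹ : (Ω ⊗[ZMod p] B)ˣ) : Ω ⊗[ZMod p] B) ∧
      ∀ j, Cong (V j) (w : Ω ⊗[ZMod p] B) (g j : Cst p Ω ⊗[ZMod p] B)

/-- **Gel.** The element `g`.

*Proof.*  Let `h_0, …, h_{r-1}` be the elements of the finite group `𝒢.pts` (all of them), `V_0, …, V_{r-1}`
a split family (*Fam*), `d_j`, `γ_j` from *DecF* for `V_j` (`ψ γ_j = 1` by `SplitFam.dec`, `m₀ ∣ d_j` by
`SplitFam.deg` and the last claim of *DecF*).  `𝔽` is algebraically closed (*Cst*), algebraic over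
`ZMod p`.  `LangM` for `k = 𝔽`, `d = d_j`, `c = h_j` gives `z_j ∈ H(𝔽)` with `fru d_j z_j = z_j cstu h_j`.
`g_j = fru 1 z_j * z_j⁻¹ ∈ H(𝔽)` (`𝒢.map` for the Frobenius `𝔽 → 𝔽`).  `fru d_j g_j =
fru 1 (z_j cstu h_j) (z_j cstu h_j)⁻¹ = g_j` (`fru d` and `fru 1` commute, `fru 1` fixes `cstu h_j`).
*LiftAll* gives `g = w`.  For `h ∈ 𝒢.pts` take the `j` with `h_j = h`, `V = V_j`, `γ = γ_j`, `d = d_j`,
`z = z_j`.
*Uses*: Cst (of BR), Fam, DecF, LiftAll. -/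
def GelStmt : Prop :=
  ∀ (p : ℕ) [Fact p.Prime] (B : Type) [Ring B] [Finite B] [Algebra (ZMod p) B]
    (𝒢 : LangGp p B) (Q : Type) [Group Q] [Fintype Q] (ρ : Q →* (B ≃+* B)) (m₀ : ℕ) (ι : Type)
    (Z : ι → Submodule (ZMod p) B), 0 < m₀ → 𝒢.LangM m₀ → 𝒢.Gen m₀ Z →
    (∀ i, ∀ q : Q, ∀ b ∈ Z i, ρ q b ∈ Z i) → (∀ i, 𝒢.Par ρ (Z i)) →
    ∀ (Ω : Type) [Field Ω] [Algebra (ZMod p) Ω] [CharP Ω p] [CharP (Cst p Ω) p] (x : Ω),
      IsStage p x → ∀ ψ : Gx p x →* Q, FinLevel ψ → Function.Surjective ψ →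
      ∃ g ∈ 𝒢.H Ω, InvL ψ ρ g ∧ IntX x (g : Ω ⊗[ZMod p] B) ∧
        IntX x ((g⁻¹ : (Ω ⊗[ZMod p] B)ˣ) : Ω ⊗[ZMod p] B) ∧
        ∀ h ∈ 𝒢.pts, ∃ V : ValuationSubring Ω, V ≠ ⊤ ∧ x ∈ V ∧ ∃ γ : Gx p x,
          (γ : Ω ≃ₐ[ZMod p] Ω) ∈ Dec p V ∧ ψ γ = 1 ∧ ∃ d : ℕ, 0 < d ∧
          (∀ c ∈ Cst p Ω, (γ : Ω ≃ₐ[ZMod p] Ω) c = c ^ (p ^ d)) ∧
          ∃ z ∈ 𝒢.H (Cst p Ω), fru d (Cst p Ω) z = z * cstu (Cst p Ω) h ∧
            Cong V (g : Ω ⊗[ZMod p] B)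
              ((fru 1 (Cst p Ω) z * z⁻¹ : (Cst p Ω ⊗[ZMod p] B)ˣ) : Cst p Ω ⊗[ZMod p] B)

/-- **Tor.** The homomorphism defined by a solution of `F y = g y`.

*Proof.*  For `γ ∈ Gx` write `γ * y = tu γ (ρ (ψ γ)) y` and `c(γ) = y⁻¹ (γ * y)`.  `fru 1` commutes with `tu γ r`
(`frob_tmap`), so `fru 1 (c γ) = (g y)⁻¹ (γ * (g y)) = y⁻¹ g⁻¹ g (γ * y) = c γ` (`InvL`).  By
`exists_unit_of_frob_eq` `c γ = cstu Ω b`, `b ∈ Bˣ`; `c γ ∈ H(Ω)` (*Stable*, and `𝒢.map` for `γ : Ω → Ω`: `tu γ r =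
tu id r ∘ tu γ id`), so `b ∈ 𝒢.pts` by `𝒢.inj` for `ZMod p → Ω` (`cstu Ω b = tu (algebraMap) id (cstu (ZMod p) b)`).
`cstu Ω` is injective (`one_tmul_inj`).  `c(γ δ) = y⁻¹ (γ * (δ * y)) = y⁻¹ (γ * (y c(δ))) = c(γ) · uact ρ (ψ γ)
(c δ)` (`γ * (cstu b) = cstu (ρ (ψ γ) b)`).  So `Ψ γ = (c γ, ψ γ)` is a homomorphism to the semidirect
product.  Finite level: the set for `ψ` together with the coordinates of `y`: if `γ` fixes them then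
`ψ γ = 1` and `tu γ id y = y`, `c γ = 1`. -/
def TorStmt : Prop :=
  ∀ (p : ℕ) [Fact p.Prime] (B : Type) [Ring B] [Finite B] [Algebra (ZMod p) B]
    (𝒢 : LangGp p B) (Q : Type) [Group Q] (ρ : Q →* (B ≃+* B)) (hρ : 𝒢.Stable ρ)
    (Ω : Type) [Field Ω] [Algebra (ZMod p) Ω] [CharP Ω p] (x : Ω) (ψ : Gx p x →* Q)
    (g y : (Ω ⊗[ZMod p] B)ˣ), FinLevel ψ → InvL ψ ρ g → y ∈ 𝒢.H Ω → fru 1 Ω y = g * y →
      ∃ Ψ : Gx p x →* 𝒢.pts ⋊[𝒢.act ρ hρ] Q, FinLevel Ψ ∧ (∀ γ, (Ψ γ).right = ψ γ) ∧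
        ∀ γ : Gx p x, tu ((γ : Ω ≃ₐ[ZMod p] Ω) : Ω →+* Ω) (ρ (ψ γ) : B →+* B) y =
          y * cstu Ω ((Ψ γ).left : Bˣ)

/-- **TorS.** The invariant (S) for `Ψ`.

*Proof.*  Let `ℓ ≠ p`, `V` `ℓ`-bad for `x` (so `x ∈ V`: in both cases `V.valuation x ≤ 1`), `γ ∈ Gx ∩ Inert V`,
`m` the order of `ψ γ` (`Q` finite), not divisible by `ℓ`.  `γ' = γ^m`: `ψ γ' = 1`, so
`tu γ' id y = y cstu b`, `b = (Ψ γ').left`.  By *CongU* `y` has a value `u` at `V` (`y`, `y⁻¹` integral, *Int*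
(5)).  By *Cong* (5) and `cstAut γ' = id` (inertia fixes constants) the left side has the value `u`, the
right side the value `u cstu b`; so `cstu 𝔽 b = 1` (*Cong* (4)), `b = 1`, `Ψ γ' = 1`.  So the order of `Ψ γ`
divides `m`, and `ℓ` does not divide it.
*Uses*: Cong, CongU, Int. -/
def TorSStmt : Prop :=
  ∀ (p : ℕ) [Fact p.Prime] (B : Type) [Ring B] [Finite B] [Algebra (ZMod p) B]
    (𝒢 : LangGp p B) (Q : Type) [Group Q] [Finite Q] (ρ : Q →* (B ≃+* B)) (hρ : 𝒢.Stable ρ)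
    (Ω : Type) [Field Ω] [Algebra (ZMod p) Ω] [CharP Ω p] [CharP (Cst p Ω) p] (x : Ω)
    (ψ : Gx p x →* Q) (y : (Ω ⊗[ZMod p] B)ˣ) (Ψ : Gx p x →* 𝒢.pts ⋊[𝒢.act ρ hρ] Q),
    IsStage p x → SInv p x ψ → IntX x (y : Ω ⊗[ZMod p] B) →
    IntX x ((y⁻¹ : (Ω ⊗[ZMod p] B)ˣ) : Ω ⊗[ZMod p] B) → (∀ γ, (Ψ γ).right = ψ γ) →
    (∀ γ : Gx p x, tu ((γ : Ω ≃ₐ[ZMod p] Ω) : Ω →+* Ω) (ρ (ψ γ) : B →+* B) y =
          y * cstu Ω ((Ψ γ).left : Bˣ)) → SInv p x Ψ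

/-- **TorO.** Surjectivity on the geometric part.

*Proof.*  `Δ = {b ∈ 𝒢.pts : ∃ γ ∈ Gx, ψ γ = 1, (Ψ γ).left = b}` is a subgroup.  It meets every conjugacy
class of `𝒢.pts`: let `h ∈ 𝒢.pts`, with `V, γ, d, z` as in the hypothesis.  `y` has a value `u` at `V` (*CongU*),
`u ∈ H(𝔽)` by *Clo*.  From `fru 1 y = g y` (*Cong* (6), (1), (4)): `fru 1 u = fru 1 z z⁻¹ u`, so `fru 1 (z⁻¹ u) = z⁻¹ u`, so
`z⁻¹ u = cstu b`, `b ∈ Bˣ` (`exists_unit_of_frob_eq`), `b ∈ 𝒢.pts` (`bc`).  `ψ γ = 1`: `tu γ id y =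
y cstu (Ψ γ).left`; values: `tu (cstAut γ) id u = fru d u` (as `γ c = c ^ (p^d)` on constants), so
`fru d u = u cstu (Ψ γ).left`.  With `u = z cstu b`: `fru d u = z cstu h cstu b`, so
`(Ψ γ).left = b⁻¹ h b`.  A subgroup meeting all conjugacy classes of a finite group is the whole group
(Jordan; elementary count: if `Δ ≠ G` the conjugates of `Δ` cover at most
`1 + [G:Δ](|Δ| - 1) < |G|` elements).  So `Δ = 𝒢.pts`.  Let `Δ' ≤ Δ` be the set of `(Ψ γ).left` for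
`γ ∈ Gx`, `ψ γ = 1`, `γ` fixing `𝔽`: a normal subgroup of `Δ` (conjugate by elements of `ker ψ`), and `Δ/Δ'` is
abelian: for `γ, δ ∈ ker ψ` the commutator of `γ` and `δ` fixes `𝔽`, because the automorphisms of `𝔽`
commute with each other (`𝔽` algebraic over `ZMod p`: on a finite subfield `𝔽_{p^n}` every automorphism
is a power of the Frobenius; every `c ∈ 𝔽` lies in `{a : a ^ (p^n) = a}` for some `n`, on which each
automorphism `σ` of `𝔽` acts as `a ↦ a ^ (p^s)`).  As `𝒢.pts` is perfect, `Δ' = 𝒢.pts`.  Finally let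
`(b, q) ∈ 𝒢.pts ⋊ Q`; by `reg` of `ψ` there is `γ` fixing `𝔽` with `ψ γ = q`, and `γ₁ ∈ ker ψ` fixing `𝔽` with
`(Ψ γ₁).left = b (Ψ γ).left⁻¹`; `Ψ (γ₁ γ) = (b, q)`.
*Uses*: Cong, CongU, Int, Clo. -/
def TorOStmt : Prop :=
  ∀ (p : ℕ) [Fact p.Prime] (B : Type) [Ring B] [Finite B] [Algebra (ZMod p) B]
    (𝒢 : LangGp p B) (Q : Type) [Group Q] [Finite Q] (ρ : Q →* (B ≃+* B)) (hρ : 𝒢.Stable ρ)
    (Ω : Type) [Field Ω] [Algebra (ZMod p) Ω] [CharP Ω p] [CharP (Cst p Ω) p] (x : Ω)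
    (ψ : Gx p x →* Q) (g y : (Ω ⊗[ZMod p] B)ˣ) (Ψ : Gx p x →* 𝒢.pts ⋊[𝒢.act ρ hρ] Q),
    IsStage p x → (∀ a : Q, ∃ γ : Gx p x, (γ : Ω ≃ₐ[ZMod p] Ω) ∈ Fx p (Cst p Ω : Set Ω) ∧
      ψ γ = a) →
    commutator 𝒢.pts = ⊤ → y ∈ 𝒢.H Ω → IntX x (y : Ω ⊗[ZMod p] B) →
    IntX x ((y⁻¹ : (Ω ⊗[ZMod p] B)ˣ) : Ω ⊗[ZMod p] B) → fru 1 Ω y = g * y →
    (∀ γ, (Ψ γ).right = ψ γ) →
    (∀ γ : Gx p x, tu ((γ : Ω ≃ₐ[ZMod p] Ω) : Ω →+* Ω) (ρ (ψ γ) : B →+* B) y =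
          y * cstu Ω ((Ψ γ).left : Bˣ)) →
    (∀ h ∈ 𝒢.pts, ∃ V : ValuationSubring Ω, V ≠ ⊤ ∧ x ∈ V ∧ ∃ γ : Gx p x,
          (γ : Ω ≃ₐ[ZMod p] Ω) ∈ Dec p V ∧ ψ γ = 1 ∧ ∃ d : ℕ, 0 < d ∧
          (∀ c ∈ Cst p Ω, (γ : Ω ≃ₐ[ZMod p] Ω) c = c ^ (p ^ d)) ∧
          ∃ z ∈ 𝒢.H (Cst p Ω), fru d (Cst p Ω) z = z * cstu (Cst p Ω) h ∧
            Cong V (g : Ω ⊗[ZMod p] B)
              ((fru 1 (Cst p Ω) z * z⁻¹ : (Cst p Ω ⊗[ZMod p] B)ˣ) : Cst p Ω ⊗[ZMod p] B)) →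
    ∀ e : 𝒢.pts ⋊[𝒢.act ρ hρ] Q, ∃ γ : Gx p x, (γ : Ω ≃ₐ[ZMod p] Ω) ∈ Fx p (Cst p Ω : Set Ω) ∧
      Ψ γ = e

/-- **L3.** The Lang torsor theorem.

*Proof.*  *Gel* gives `g`; `Lang1` for `k = Ω` (separably closed) gives `y ∈ H(Ω)` with `fru 1 y = g y`;
*Int* (6): `y`, `y⁻¹` integral; *Tor* gives `Ψ`; *TorS*: (S); *TorO*: `reg`.  (`CharP Ω p` and
`CharP (Cst p Ω) p`: `charP_of_injective_algebraMap`; `ψ` is surjective by `reg`.)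
*Uses*: Int, Gel, Tor, TorS, TorO. -/
def L3Stmt : Prop :=
  ∀ (p : ℕ) [Fact p.Prime] (B : Type) [Ring B] [Finite B] [Algebra (ZMod p) B]
    (𝒢 : LangGp p B) (Q : Type) [Group Q] [Fintype Q] (ρ : Q →* (B ≃+* B))
    (hρ : 𝒢.Stable ρ) (m₀ : ℕ) (ι : Type) (Z : ι → Submodule (ZMod p) B), 0 < m₀ →
    𝒢.Lang1 → 𝒢.LangM m₀ → 𝒢.Gen m₀ Z → (∀ i, ∀ q : Q, ∀ b ∈ Z i, ρ q b ∈ Z i) →
    (∀ i, 𝒢.Par ρ (Z i)) → commutator 𝒢.pts = ⊤ →
    ∀ (Ω : Type) [Field Ω] [Algebra (ZMod p) Ω] (x : Ω) (ψ : Gx p x →* Q), GoodR p x ψ →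
      ∃ Ψ : Gx p x →* 𝒢.pts ⋊[𝒢.act ρ hρ] Q, GoodR p x Ψ ∧ ∀ γ, (Ψ γ).right = ψ γ

end MP7Z
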