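import Pool.Agent.Lib.MP_7f581e_Z.BR.Spec
import Pool.Agent.Lib.MP_7f581e_ntL.U3

/-!
# Step Lie: definitions

`B` is a finite ring of characteristic `p`; groups of units of `k ⊗ B`, `k` a field of
characteristic `p`, with the Frobenius of `k` and semilinear automorphisms.
(`tmap f g : R ⊗ B →+* S ⊗ B`, `eb`, `vec`, `lmm` are in `MP_7f581e_ntL/U3.lean`.)
-/

namespace MP7Z

open TensorProduct MP7fS

section units

variable {p : ℕ} [Fact p.Prime] {B : Type} [Ring B] [Finite B] [Algebra (ZMod p) B]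

/-- `tmap` on units. -/
noncomputable def tu {R S : Type} [CommRing R] [CommRing S] [Algebra (ZMod p) R]
    [Algebra (ZMod p) S] (f : R →+* S) (g : B →+* B) :
    (R ⊗[ZMod p] B)ˣ →* (S ⊗[ZMod p] B)ˣ :=
  Units.map (tmap (p := p) f g : R ⊗[ZMod p] B →* S ⊗[ZMod p] B)

@[simp] theorem coe_tu {R S : Type} [CommRing R] [CommRing S] [Algebra (ZMod p) R]
    [Algebra (ZMod p) S] (f : R →+* S) (g : B →+* B) (x : (R ⊗[ZMod p] B)ˣ) :
    ((tu f g x : (S ⊗[ZMod p] B)ˣ) : S ⊗[ZMod p] B) = tmap f g (x : R ⊗[ZMod p] B) := rfl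

/-- The constants `1 ⊗ b`. -/
noncomputable def cstu (R : Type) [CommRing R] [Algebra (ZMod p) R] : Bˣ →* (R ⊗[ZMod p] B)ˣ :=
  Units.map ((Algebra.TensorProduct.includeRight : B →ₐ[ZMod p] R ⊗[ZMod p] B) :
    B →* R ⊗[ZMod p] B)

@[simp] theorem coe_cstu (R : Type) [CommRing R] [Algebra (ZMod p) R] (b : Bˣ) :
    ((cstu R b : (R ⊗[ZMod p] B)ˣ) : R ⊗[ZMod p] B) = 1 ⊗ₜ (b : B) := rfl

/-- The `d`-th power of the Frobenius of `R`, on `R ⊗ B`, units. -/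
noncomputable def fru (d : ℕ) (R : Type) [CommRing R] [CharP R p] [Algebra (ZMod p) R] :
    (R ⊗[ZMod p] B)ˣ →* (R ⊗[ZMod p] B)ˣ :=
  tu (iterateFrobenius R p d) (RingHom.id B)

end units

/-- A functor `R ↦ H(R) ≤ (R ⊗ B)ˣ` on commutative rings of characteristic `p` (a group defined by
polynomial equations). -/
structure LangGp (p : ℕ) [Fact p.Prime] (B : Type) [Ring B] [Finite B] [Algebra (ZMod p) B] where
  H : ∀ (R : Type) [CommRing R] [Algebra (ZMod p) R], Subgroup (R ⊗[ZMod p] B)ˣ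
  map : ∀ (R R' : Type) [CommRing R] [Algebra (ZMod p) R] [CommRing R'] [Algebra (ZMod p) R']
    (f : R →+* R') (x : (R ⊗[ZMod p] B)ˣ), x ∈ H R → tu f (RingHom.id B) x ∈ H R'
  inj : ∀ (R R' : Type) [CommRing R] [Algebra (ZMod p) R] [CommRing R'] [Algebra (ZMod p) R']
    (f : R →+* R'), Function.Injective f → ∀ x : (R ⊗[ZMod p] B)ˣ,
      tu f (RingHom.id B) x ∈ H R' → x ∈ H R

section LangGp

variable {p : ℕ} [Fact p.Prime] {B : Type} [Ring B] [Finite B] [Algebra (ZMod p) B]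

/-- For homomorphisms of fields. -/
theorem LangGp.bc (𝒢 : LangGp p B) {k k' : Type} [Field k] [Algebra (ZMod p) k] [Field k']
    [Algebra (ZMod p) k'] (f : k →+* k') (x : (k ⊗[ZMod p] B)ˣ) :
    x ∈ 𝒢.H k ↔ tu f (RingHom.id B) x ∈ 𝒢.H k' :=
  ⟨𝒢.map k k' f x, 𝒢.inj k k' f f.injective x⟩

/-- The finite group of rational points. -/
noncomputable def LangGp.pts (𝒢 : LangGp p B) : Subgroup Bˣ := (𝒢.H (ZMod p)).comap (cstu (ZMod p))

/-- Stability under a group of automorphisms of `B`. -/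
def LangGp.Stable (𝒢 : LangGp p B) {Q : Type} [Group Q] (ρ : Q →* (B ≃+* B)) : Prop :=
  ∀ (R : Type) [CommRing R] [Algebra (ZMod p) R] (q : Q), ∀ x ∈ 𝒢.H R,
    tu (RingHom.id R) (ρ q : B →+* B) x ∈ 𝒢.H R

/-- Lang's theorem for the Frobenius, over separably closed fields. -/
def LangGp.Lang1 (𝒢 : LangGp p B) : Prop :=
  ∀ (k : Type) [Field k] [Algebra (ZMod p) k] [CharP k p] [IsSepClosed k],
    ∀ g ∈ 𝒢.H k, ∃ y ∈ 𝒢.H k, fru 1 k y = g * y

/-- Lang's theorem over the algebraic closure of `𝔽_p`, for the powers `F ^ d`, `m₀ ∣ d`, of the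
Frobenius, and rational points. -/
def LangGp.LangM (𝒢 : LangGp p B) (m₀ : ℕ) : Prop :=
  ∀ (k : Type) [Field k] [Algebra (ZMod p) k] [CharP k p] [IsAlgClosed k]
    [Algebra.IsAlgebraic (ZMod p) k] (d : ℕ), 0 < d → m₀ ∣ d →
    ∀ c ∈ 𝒢.pts, ∃ y ∈ 𝒢.H k, fru d k y = y * cstu k c

/-- Over the algebraic closure of `𝔽_p`: the points over `𝔽_{p^d}`, `m₀ ∣ d`, are products of
elements `1 + z`, `z ∈ 𝔽_{p^d} ⊗ Z_i`, `z ^ 2 = 0`. -/
def LangGp.Gen (𝒢 : LangGp p B) (m₀ : ℕ) {ι : Type} (Z : ι → Submodule (ZMod p) B) : Prop :=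
  ∀ (k : Type) [Field k] [Algebra (ZMod p) k] [CharP k p] [IsAlgClosed k]
    [Algebra.IsAlgebraic (ZMod p) k] (d : ℕ), 0 < d → m₀ ∣ d → ∀ x ∈ 𝒢.H k, fru d k x = x →
      x ∈ Subgroup.closure {w : (k ⊗[ZMod p] B)ˣ | fru d k w = w ∧
        ((w : k ⊗[ZMod p] B) - 1) * ((w : k ⊗[ZMod p] B) - 1) = 0 ∧
        ∃ i, (w : k ⊗[ZMod p] B) - 1 ∈ (Z i).baseChange k}

/-- Parametrization: over every commutative ring `R` with an action of `Q`, every invariant
`z ∈ R ⊗ Z` and every `c₀ ∈ R` give an invariant `g ∈ H(R)`, which is `1 + z` at every point of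
`R` in a field where the trace of `c₀` is `1` and `z ^ 2 = 0`. -/
def LangGp.Par (𝒢 : LangGp p B) {Q : Type} [Group Q] [Fintype Q] (ρ : Q →* (B ≃+* B))
    (Z : Submodule (ZMod p) B) : Prop :=
  ∀ (R : Type) [CommRing R] [Algebra (ZMod p) R] (a : Q →* (R ≃+* R)) (c₀ : R)
    (z : R ⊗[ZMod p] B), z ∈ Z.baseChange R →
    (∀ q, tmap (a q : R →+* R) (ρ q : B →+* B) z = z) →
    ∃ g ∈ 𝒢.H R, (∀ q, tu (a q : R →+* R) (ρ q : B →+* B) g = g) ∧
      ∀ (k : Type) [Field k] [Algebra (ZMod p) k] (π : R →+* k), π (∑ q, a q c₀) = 1 →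
        tmap π (RingHom.id B) z * tmap π (RingHom.id B) z = 0 →
        tmap π (RingHom.id B) (g : R ⊗[ZMod p] B) = 1 + tmap π (RingHom.id B) z

end LangGp

section omega

variable {p : ℕ} [Fact p.Prime] {B : Type} [Ring B] [Finite B] [Algebra (ZMod p) B]
  {Ω : Type} [Field Ω] [Algebra (ZMod p) Ω]

/-- The coordinates of an element of `R ⊗ B` with respect to a basis of `B` (chosen once for all). -/
noncomputable def crd {R : Type} [CommRing R] [Algebra (ZMod p) R] (w : R ⊗[ZMod p] B)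
    (i : Fin (Module.finrank (ZMod p) B)) : R :=
  (eb (Module.finBasis (ZMod p) B) R).repr w i

/-- The coordinates are integral over `𝔽_p[x]`. -/
def IntX (x : Ω) (w : Ω ⊗[ZMod p] B) : Prop :=
  ∀ i, IsIntegral (Algebra.adjoin (ZMod p) {x}) (crd w i)

/-- `w ∈ Ω ⊗ B` has the value `u ∈ 𝔽 ⊗ B` at `V`. -/
def Cong (V : ValuationSubring Ω) (w : Ω ⊗[ZMod p] B) (u : Cst p Ω ⊗[ZMod p] B) : Prop :=
  ∀ i, V.valuation (crd w i - ((crd u i : Cst p Ω) : Ω)) < 1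

/-- The automorphism of the constants induced by an automorphism of `Ω`. -/
noncomputable def cstAut (γ : Ω ≃ₐ[ZMod p] Ω) : Cst p Ω →+* Cst p Ω :=
  ((γ : Ω →+* Ω).comp (algebraMap (Cst p Ω) Ω)).codRestrict (Cst p Ω).toSubfield.toSubring (by
    intro c
    have h : IsAlgebraic (ZMod p) (c : Ω) := mem_algebraicClosure_iff.1 c.2
    exact mem_algebraicClosure_iff.2 (h.algHom (γ : Ω →ₐ[ZMod p] Ω)))

theorem coe_cstAut (γ : Ω ≃ₐ[ZMod p] Ω) (c : Cst p Ω) : ((cstAut γ c : Cst p Ω) : Ω) = γ (c : Ω) :=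
  rfl

/-- `w` is invariant under the semilinear action of the Galois group through `ψ` and `ρ`. -/
def InvL {x : Ω} {Q : Type} [Group Q] (ψ : Gx p x →* Q) (ρ : Q →* (B ≃+* B))
    (w : (Ω ⊗[ZMod p] B)ˣ) : Prop :=
  ∀ γ : Gx p x, tu ((γ : Ω ≃ₐ[ZMod p] Ω) : Ω →+* Ω) (ρ (ψ γ) : B →+* B) w = w

/-- A family of finite places of `𝔽_p(x)` (given by valuation rings of `Ω`), pairwise distinct on
`𝔽_p[x]`, totally split for `ψ` and for the constant extension of degree `m₀`, with an element `α`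
integral over `𝔽_p[x]`, fixed by `ker ψ`, whose conjugates are pairwise distinct modulo all `V j`. -/
structure SplitFam {x : Ω} {Q : Type} [Group Q] (m₀ : ℕ) (ψ : Gx p x →* Q) {r : ℕ}
    (V : Fin r → ValuationSubring Ω) : Prop where
  ne_top : ∀ j, V j ≠ ⊤
  mem : ∀ j, x ∈ V j
  dec : ∀ j, ∀ γ : Gx p x, (γ : Ω ≃ₐ[ZMod p] Ω) ∈ Dec p (V j) → ψ γ = 1
  deg : ∀ j, ∀ γ ∈ Gx p x ⊓ Dec p (V j), ∀ c : Ω, c ^ (p ^ m₀) = c → γ c = c
  sep : ∀ i j, i ≠ j → ∃ t ∈ Algebra.adjoin (ZMod p) {x},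
    (V i).valuation t < 1 ∧ (V j).valuation t = 1
  prim : ∃ α : Ω, IsIntegral (Algebra.adjoin (ZMod p) {x}) α ∧
    (∀ γ : Gx p x, ψ γ = 1 → (γ : Ω ≃ₐ[ZMod p] Ω) α = α) ∧
    ∀ γ γ' : Gx p x, ψ γ ≠ ψ γ' → ∀ j,
      (V j).valuation ((γ : Ω ≃ₐ[ZMod p] Ω) α - (γ' : Ω ≃ₐ[ZMod p] Ω) α) = 1

end omega

section act

variable {p : ℕ} [Fact p.Prime] {B : Type} [Ring B] [Finite B] [Algebra (ZMod p) B]

theorem LangGp.Stable.pts {𝒢 : LangGp p B} {Q : Type} [Group Q] {ρ : Q →* (B ≃+* B)}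
    (h : 𝒢.Stable ρ) (q : Q) {b : Bˣ} (hb : b ∈ 𝒢.pts) : uact ρ q b ∈ 𝒢.pts := by
  have h1 := h (ZMod p) q _ hb
  have h2 : tu (p := p) (RingHom.id (ZMod p)) (ρ q : B →+* B) (cstu (ZMod p) b) =
      cstu (ZMod p) (uact ρ q b) := Units.ext rfl
  rw [h2] at h1
  exact h1

/-- The action of `Q` on the group of rational points. -/
noncomputable def LangGp.act (𝒢 : LangGp p B) {Q : Type} [Group Q] (ρ : Q →* (B ≃+* B))
    (h : 𝒢.Stable ρ) : Q →* MulAut 𝒢.pts where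
  toFun q :=
    { toFun := fun b => ⟨uact ρ q b.1, h.pts q b.2⟩
      invFun := fun b => ⟨uact ρ q⁻¹ b.1, h.pts q⁻¹ b.2⟩
      left_inv := fun b => by
        apply Subtype.ext
        change uact ρ q⁻¹ (uact ρ q b.1) = b.1
        rw [← MulAut.mul_apply, ← map_mul, inv_mul_cancel, map_one, MulAut.one_apply]
      right_inv := fun b => by
        apply Subtype.ext
        change uact ρ q (uact ρ q⁻¹ b.1) = b.1
        rw [← MulAut.mul_apply, ← map_mul, mul_inv_cancel, map_one, MulAut.one_apply]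
      map_mul' := fun a b => Subtype.ext (map_mul (uact ρ q) a.1 b.1) }
  map_one' := by
    ext b
    change (uact ρ 1 b.1 : Bˣ).1 = _
    rw [map_one]
    rfl
  map_mul' q q' := by
    ext b
    change (uact ρ (q * q') b.1 : Bˣ).1 = _
    rw [map_mul]
    rfl

end act

end MP7Z
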