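import Pool.Agent.Lib.MP_7f581e_Z.Lie.Pres

set_option autoImplicit false
set_option linter.unusedSectionVars false

/-! Lifting elements `1 + ζ` given at the places of a split family. -/

namespace MP7Z

open TensorProduct MP7fS

namespace ParM

section

variable {p : ℕ} [Fact p.Prime] {B : Type} [Ring B] [Finite B] [Algebra (ZMod p) B]

/-- Extension of a linear form of `B` to `R ⊗ B`. -/
noncomputable def fn (R : Type) [CommRing R] [Algebra (ZMod p) R] (φ : B →ₗ[ZMod p] ZMod p) :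
    R ⊗[ZMod p] B →ₗ[ZMod p] R :=
  (TensorProduct.rid (ZMod p) R).toLinearMap ∘ₗ φ.lTensor R

theorem fn_tmul {R : Type} [CommRing R] [Algebra (ZMod p) R] (φ : B →ₗ[ZMod p] ZMod p) (r : R)
    (b : B) : fn R φ (r ⊗ₜ b) = φ b • r := by
  simp [fn]

theorem fn_tmap {R S : Type} [CommRing R] [Algebra (ZMod p) R] [CommRing S] [Algebra (ZMod p) S]
    (φ : B →ₗ[ZMod p] ZMod p) (f : R →+* S) (y : R ⊗[ZMod p] B) :
    fn S φ (tmap (p := p) f (RingHom.id B) y) = f (fn R φ y) := by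
  induction y using TensorProduct.induction_on with
  | zero => rw [map_zero, map_zero, map_zero, map_zero]
  | tmul r b =>
    rw [tmap_tmul, fn_tmul, fn_tmul, RingHom.id_apply, ← toAlg_apply (p := p) f (φ b • r),
      map_smul]
    rfl
  | add x y hx hy => rw [map_add, map_add, map_add, map_add, hx, hy]

theorem exists_fn (Z : Submodule (ZMod p) B) : ∃ (n : ℕ) (m : Fin n → B)
    (φ : Fin n → (B →ₗ[ZMod p] ZMod p)), (∀ i, m i ∈ Z) ∧ ∀ b ∈ Z, b = ∑ i, φ i b • m i := by
  obtain ⟨g, hg⟩ := LinearMap.exists_leftInverse_of_injective Z.subtype (Submodule.ker_subtype Z)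
  let e := Module.finBasis (ZMod p) Z
  refine ⟨_, fun i => (e i : B), fun i => (e.coord i) ∘ₗ g, fun i => (e i).2, fun b hb => ?_⟩
  have h1 : g b = ⟨b, hb⟩ := LinearMap.congr_fun hg ⟨b, hb⟩
  have h2 := congrArg (fun z : Z => (z : B)) (e.sum_repr ⟨b, hb⟩)
  simp only [Submodule.coe_sum, Submodule.coe_smul] at h2
  rw [← h2]
  refine Finset.sum_congr rfl fun i _ => ?_
  change _ = (e.coord i) (g (∑ i, _ • _)) • (e i : B)
  rw [h2, h1]
  rfl

theorem eq_sum {Z : Submodule (ZMod p) B} {n : ℕ} {m : Fin n → B}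
    {φ : Fin n → (B →ₗ[ZMod p] ZMod p)} (h : ∀ b ∈ Z, b = ∑ i, φ i b • m i) {R : Type}
    [CommRing R] [Algebra (ZMod p) R] {y : R ⊗[ZMod p] B} (hy : y ∈ Z.baseChange R) :
    y = ∑ i, fn R (φ i) y ⊗ₜ[ZMod p] m i := by
  obtain ⟨t, rfl⟩ := hy
  induction t using TensorProduct.induction_on with
  | zero => simp
  | tmul r b =>
    rw [LinearMap.baseChange_tmul]
    have h1 : (Z.subtype b : B) = ∑ i, φ i (b : B) • m i := h b b.2
    conv_lhs => rw [h1, TensorProduct.tmul_sum]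
    refine Finset.sum_congr rfl fun i _ => ?_
    rw [fn_tmul, TensorProduct.smul_tmul]
    rfl
  | add x y hx hy =>
    rw [map_add]
    conv_lhs => rw [hx, hy]
    rw [← Finset.sum_add_distrib]
    refine Finset.sum_congr rfl fun i _ => ?_
    rw [map_add, TensorProduct.add_tmul]

theorem crd_tmap {R S : Type} [CommRing R] [Algebra (ZMod p) R] [CommRing S] [Algebra (ZMod p) S]
    (f : R →+* S) (y : R ⊗[ZMod p] B) (i : Fin (Module.finrank (ZMod p) B)) :
    crd (tmap (p := p) f (RingHom.id B) y) i = f (crd y i) := repr_tmap _ f y i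

theorem tmap_mem {Z : Submodule (ZMod p) B} {R S : Type} [CommRing R] [Algebra (ZMod p) R]
    [CommRing S] [Algebra (ZMod p) S] (f : R →+* S) (g : B →+* B) (hg : ∀ b ∈ Z, g b ∈ Z)
    {y : R ⊗[ZMod p] B} (hy : y ∈ Z.baseChange R) : tmap (p := p) f g y ∈ Z.baseChange S := by
  obtain ⟨t, rfl⟩ := hy
  induction t using TensorProduct.induction_on with
  | zero => simp
  | tmul r b =>
    rw [LinearMap.baseChange_tmul, tmap_tmul]
    exact Submodule.tmul_mem_baseChange_of_mem _ (hg _ b.2)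
  | add x y hx hy =>
    rw [map_add, map_add]
    exact add_mem hx hy

end

end ParM

theorem tParL (hRes : ResStmt) (hP : PresStmt) : ParLStmt := by
  classical
  intro p _ B _ _ _ 𝒢 Q _ _ ρ Z hZ hPar Ω _ _ x hst ψ hψ m₀ r V hV u hu1 hu2 hu3
  obtain ⟨R, _, _, inc, act, hinj, hsurj, hint, hact, hπ⟩ := tRQ hRes p Ω x hst Q ψ hψ
  choose π hπ' using fun j => hπ (V j) (hV.ne_top j) (hV.mem j)
  have hu : ∀ j (z : R) (c : Cst p Ω), (V j).valuation (inc z - (c : Ω)) < 1 → π j z = c :=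
    fun j z c h => Subtype.ext (PresM.res_unique (π j z).2 c.2 (hπ' j z) h)
  -- prescribed values in `R`
  have hpres : ∀ a : Fin r → Cst p Ω, (∀ j, ∀ δ ∈ Gx p x ⊓ Dec p (V j), cstAut δ (a j) = a j) →
      ∃ c : R, ∀ j q, π j (act q c) = if q = 1 then a j else 0 := by
    intro a ha
    obtain ⟨z, h1, h2, h3, h4⟩ := hP p Ω x hst Q ψ hψ m₀ r V hV (fun j => (a j : Ω))
      (fun j => (a j).2) (fun j δ hδ => congrArg Subtype.val (ha j δ hδ))
    obtain ⟨c, rfl⟩ := hsurj z h1 h2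
    refine ⟨c, fun j q => ?_⟩
    by_cases hq : q = 1
    · rw [if_pos hq, hq, map_one]
      exact hu j c _ (h3 j)
    · rw [if_neg hq]
      obtain ⟨γ, rfl⟩ := hψ q
      apply hu
      rw [← hact, ZeroMemClass.coe_zero, sub_zero]
      exact h4 γ hq j
  obtain ⟨n, m, φ, hm, hφ⟩ := ParM.exists_fn Z
  let y : Fin r → Cst p Ω ⊗[ZMod p] B := fun j => (u j : Cst p Ω ⊗[ZMod p] B) - 1
  let a : Fin n → Fin r → Cst p Ω := fun i j => ParM.fn (Cst p Ω) (φ i) (y j)
  have hy : ∀ j, y j = ∑ i, a i j ⊗ₜ[ZMod p] m i := fun j => ParM.eq_sum hφ (hu1 j)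
  have ha : ∀ i j, ∀ δ ∈ Gx p x ⊓ Dec p (V j), cstAut δ (a i j) = a i j := by
    intro i j δ hδ
    have h1 : tmap (p := p) (cstAut δ) (RingHom.id B) (y j) = y j := by
      have h2 := congrArg Units.val (hu3 j δ hδ)
      rw [coe_tu] at h2
      change tmap (p := p) (cstAut δ) (RingHom.id B) ((u j : Cst p Ω ⊗[ZMod p] B) - 1) = _
      rw [map_sub, map_one, h2]
    change cstAut δ (ParM.fn (Cst p Ω) (φ i) (y j)) = ParM.fn (Cst p Ω) (φ i) (y j)
    rw [← ParM.fn_tmap, h1]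
  choose c hc using fun i => hpres (a i) (ha i)
  obtain ⟨c₀, hc₀⟩ := hpres (fun _ => 1) (fun _ _ _ => map_one _)
  let n₀ : R ⊗[ZMod p] B := ∑ i, c i ⊗ₜ[ZMod p] m i
  let N : R ⊗[ZMod p] B := ∑ q : Q, tmap (p := p) (act q : R →+* R) (ρ q : B →+* B) n₀
  have hn₀ : n₀ ∈ Z.baseChange R :=
    Submodule.sum_mem _ fun i _ => Submodule.tmul_mem_baseChange_of_mem _ (hm i)
  have hN : N ∈ Z.baseChange R :=
    Submodule.sum_mem _ fun q _ => ParM.tmap_mem _ _ (hZ q) hn₀
  have hNinv : ∀ q, tmap (p := p) (act q : R →+* R) (ρ q : B →+* B) N = N := by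
    intro q
    change tmap (p := p) (act q : R →+* R) (ρ q : B →+* B) (∑ q' : Q, _) = _
    rw [map_sum]
    refine Fintype.sum_equiv (Equiv.mulLeft q) _ _ fun q' => ?_
    rw [tmap_comp]
    have h1 : ((act q : R →+* R).comp (act q' : R →+* R)) =
        (act (Equiv.mulLeft q q') : R →+* R) := by
      rw [Equiv.coe_mulLeft, map_mul]
      rfl
    have h2 : ((ρ q : B →+* B).comp (ρ q' : B →+* B)) =
        (ρ (Equiv.mulLeft q q') : B →+* B) := by
      rw [Equiv.coe_mulLeft, map_mul]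
      rfl
    rw [h1, h2]
  have hNv : ∀ j, tmap (p := p) (π j) (RingHom.id B) N = y j := by
    intro j
    change tmap (p := p) (π j) (RingHom.id B) (∑ q : Q, _) = _
    rw [map_sum, Finset.sum_eq_single 1]
    · rw [map_one, map_one, tmap_comp]
      change tmap (p := p) _ _ (∑ i, _) = _
      rw [map_sum, hy]
      refine Finset.sum_congr rfl fun i _ => ?_
      rw [tmap_tmul]
      have h1 := hc i j 1
      rw [if_pos rfl, map_one] at h1
      have h2 : ((π j).comp ((1 : R ≃+* R) : R →+* R)) (c i) = a i j := h1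
      rw [h2]
      rfl
    · intro q _ hq
      rw [tmap_comp]
      change tmap (p := p) _ _ (∑ i, _) = _
      rw [map_sum]
      refine Finset.sum_eq_zero fun i _ => ?_
      rw [tmap_tmul]
      have h1 := hc i j q
      rw [if_neg hq] at h1
      have h2 : ((π j).comp ((act q : R ≃+* R) : R →+* R)) (c i) = 0 := h1
      rw [h2, TensorProduct.zero_tmul]
    · intro h
      exact absurd (Finset.mem_univ _) h
  obtain ⟨g, hgH, hginv, hgv⟩ := hPar R act c₀ N hN hNinv
  have hgj : ∀ j, tmap (p := p) (π j) (RingHom.id B) (g : R ⊗[ZMod p] B) =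
      (u j : Cst p Ω ⊗[ZMod p] B) := by
    intro j
    rw [hgv (Cst p Ω) (π j) ?_ ?_, hNv]
    · change 1 + ((u j : Cst p Ω ⊗[ZMod p] B) - 1) = _
      rw [add_sub_cancel]
    · rw [map_sum]
      simp only [hc₀, Finset.sum_ite_eq', Finset.mem_univ, if_true]
    · rw [hNv]
      exact hu2 j
  refine ⟨tu inc (RingHom.id B) g, 𝒢.map R Ω inc g hgH, ?_, ?_, ?_, ?_⟩
  · intro γ
    apply Units.ext
    rw [coe_tu, coe_tu, tmap_comp]
    have h1 : (((γ : Ω ≃ₐ[ZMod p] Ω) : Ω →+* Ω).comp inc) =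
        inc.comp (act (ψ γ) : R →+* R) := by
      ext s
      exact hact γ s
    have h2 : (ρ (ψ γ) : B →+* B).comp (RingHom.id B) =
        (RingHom.id B).comp (ρ (ψ γ) : B →+* B) := rfl
    rw [h1, h2, ← tmap_comp]
    have h3 := congrArg Units.val (hginv (ψ γ))
    rw [coe_tu] at h3
    rw [h3]
  · intro i
    rw [coe_tu, ParM.crd_tmap]
    exact hint _
  · intro i
    rw [← map_inv, coe_tu, ParM.crd_tmap]
    exact hint _
  · intro j i
    rw [coe_tu, ParM.crd_tmap, ← hgj, ParM.crd_tmap]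
    exact hπ' j _

end MP7Z
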